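import Mathlib
import Pool.Agent.Lib.H99L.Defs
import Pool.Agent.Lib.H99L.K1

/-!
# The local test theorem over fields with a real place: definitions

`Ω` is an algebraic closure of `ℚ`, for instance `Qb`; `Γ` and `Δ` are open subgroups of
`Gal(Ω/ℚ)`, the Galois groups of number fields `F` and `F₀`, and `ρ` is a `p`-adic representation
of `Γ`.
-/

namespace Pool.Agent.H99W

open NumberField TensorProduct Module Polynomial Pool.Agent.GSem Pool.Agent.NF Pool.Agent.H99L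

/-- The algebraic closure of the rationals. -/
abbrev Qb := AlgebraicClosure ℚ

theorem qb_alg : @Algebra.IsAlgebraic ℚ Qb _ _ DivisionRing.toRatAlgebra := by
  have h : (DivisionRing.toRatAlgebra : Algebra ℚ Qb) = AlgebraicClosure.instAlgebra ℚ :=
    Subsingleton.elim _ _
  rw [h]
  infer_instance

theorem qb_cl : IsAlgClosure ℚ Qb := ⟨inferInstance, qb_alg⟩

theorem qb_gal : IsGalois ℚ Qb := by
  have := qb_cl
  exact IsAlgClosure.isGalois ℚ Qb

/-- `c` is a complex conjugation: it is induced by the complex conjugation through an embedding of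
`Ω` in `ℂ`. -/
def IsCplxConj {Ω : Type*} [Field Ω] [CharZero Ω] (c : Gal(Ω/ℚ)) : Prop :=
  ∃ j : Ω →+* ℂ, ∀ x, j (c x) = starRingEnd ℂ (j x)

section

variable {p : ℕ} [hp : Fact p.Prime] {Ω : Type*} [Field Ω] [CharZero Ω]
variable {Γ : Subgroup Gal(Ω/ℚ)}
variable {V : Type*} [AddCommGroup V] [Module ℚ_[p] V]

/-- **Geometric condition of weight `w`.** For all large primes `q`: `ρ` is unramified at all places
above `q`; and if `φ` is a Frobenius element at `q` and `φ ^ j ∈ Γ` with `j > 0`, the characteristic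
polynomial of `φ ^ j` has rational coefficients, its complex roots have absolute value
`q ^ (- j w / 2)` and become algebraic integers after multiplication by `q ^ (m j)`, for a fixed
`m`. -/
def IsGeom [FiniteDimensional ℚ_[p] V] (ρ : Representation ℚ_[p] Γ V) (w : ℤ) : Prop :=
  ∃ b m : ℕ, ∀ q : ℕ, b < q → q.Prime →
    (∀ (s : Γ) (Q : Ideal (𝓞 Ω)), Q.IsPrime → (q : 𝓞 Ω) ∈ Q →
      (∀ x : 𝓞 Ω, (s : Gal(Ω/ℚ)) • x - x ∈ Q) → ρ s = 1) ∧
    ∀ φ : Gal(Ω/ℚ), IsFrobAt q φ → ∀ (j : ℕ) (hj : φ ^ j ∈ Γ), 0 < j → ∃ P : ℚ[X],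
      (ρ ⟨φ ^ j, hj⟩).charpoly = P.map (algebraMap ℚ ℚ_[p]) ∧
      ∀ z : ℂ, aeval z P = 0 →
        ‖z‖ ^ 2 = (q : ℝ) ^ (-(w * j)) ∧ IsIntegral ℤ ((q : ℂ) ^ (m * j) * z)

/-- Let `g ∈ Δ`, and let the `x i ∈ Δ` represent the orbits of `g` on the cosets of `Γ ∩ Δ` in `Δ`,
and `f i` be the lengths of the orbits. Then `x i ⁻¹ * g ^ f i * x i` is an element of `Γ`. For
`Γ = Gal(Ω/F)`, `Δ = Gal(Ω/F₀)` and a Frobenius element `g` at a place of `F₀` unramified in
`F F₀` these are Frobenius elements at the places of `F F₀` above it, of relative degrees `f i`. -/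
noncomputable def elt {Δ : Subgroup Gal(Ω/ℚ)} {g : Δ} {k : ℕ} {x : Fin k → Δ} {f : Fin k → ℕ}
    (h : IsOrbits (Γ.subgroupOf Δ) g x f) (i : Fin k) : Γ :=
  ⟨(((x i)⁻¹ * g ^ f i * x i : Δ) : Gal(Ω/ℚ)), h.mem i⟩

/-- **Weights in `W`.** Let `h σ` be the Hodge–Tate weights of `V` at the embeddings `σ` of `F` in
the algebraic closure of `ℚ_[p]`. The multisets `D σ` have `r` elements, `D σ` together with
`w - D σ` is contained in `h σ`, and `D σ` depends only on the place of `F` given by `σ`. -/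
def IsHTFamily {F : IntermediateField ℚ Ω} (w : ℤ) (r : ℕ) {n : ℕ}
    (h : (F →+* PadicAlgCl p) → Fin n → ℤ) (D : (F →+* PadicAlgCl p) → Multiset ℤ) : Prop :=
  (∀ σ, Multiset.card (D σ) = r) ∧
  (∀ σ, D σ + (D σ).map (fun d => w - d) ≤ Finset.univ.val.map (h σ)) ∧
  ∀ σ (τ : Gal(PadicAlgCl p/ℚ_[p])),
    D (((τ : PadicAlgCl p ≃+* PadicAlgCl p) : PadicAlgCl p →+* PadicAlgCl p).comp σ) = D σ

/-- **Clause for the weights.** If the `x i ∈ Δ` represent the cosets of `Γ ∩ Δ` in `Δ`, where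
`Γ = Gal(Ω/F)`, the sum of all elements of all `D (ι ∘ x i)` is `H`, for every embedding `ι`. -/
def WeightClause {F : IntermediateField ℚ Ω} (D : (F →+* PadicAlgCl p) → Multiset ℤ)
    (Δ : Subgroup Gal(Ω/ℚ)) (H : ℤ) : Prop :=
  ∀ (ι : Ω →+* PadicAlgCl p) (k : ℕ) (x : Fin k → Δ),
    Function.Bijective (fun i => ((x i : Δ) : Δ ⧸ F.fixingSubgroup.subgroupOf Δ)) →
    ∑ i, (D ((twistEmb ι (x i)).comp (algebraMap F Ω))).sum = H

/-- **Clause for all elements** `g ∈ Δ`, for instance Frobenius elements and complex conjugations.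
Let `g i ∈ Γ` be the elements attached to the orbits of `g` on the cosets of `Γ ∩ Δ` in `Δ`. The
eigenvalues `S i` of `g i` on `W` and all `χ (g i) ^ (- w) / z`, `z ∈ S i`, are together contained in
the eigenvalues of `g i` on `V`, and the product of all elements of all `S i` is
`ε g * χ g ^ (- H)`. -/
def ElementClause [FiniteDimensional ℚ_[p] V] (ρ : Representation ℚ_[p] Γ V) (w : ℤ)
    (W : Submodule ℚ_[p] V) {Δ : Subgroup Gal(Ω/ℚ)} (ε : Δ →* ℤ_[p]ˣ) (H : ℤ) : Prop :=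
  ∀ (g : Δ) (k : ℕ) (x : Fin k → Δ) (f : Fin k → ℕ) (ho : IsOrbits (Γ.subgroupOf Δ) g x f),
    (∀ i, IsoIn (algebraMap ℚ_[p] _ (chi p (g : Gal(Ω/ℚ)) (-(w * f i)))) (eig (ρ (elt ho i)) W)
      (rts (ρ (elt ho i)).charpoly)) ∧
    ∏ i, (eig (ρ (elt ho i)) W).prod =
      algebraMap ℚ_[p] _ (toQ (ε g) * chi p (g : Gal(Ω/ℚ)) (-H))

/-- **Clause at the places above a prime `l ≠ p`, of good or bad reduction.** Let `φ` be a Frobenius
element at `l`, `φ ^ a ∈ Δ` with `a > 0`, and `φ i ∈ Γ` the elements attached to the orbits of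
`φ ^ a`. If for all `i` the weight–monodromy condition of weight `w` holds for `φ i` and a monodromy
operator `N i`, then it also holds for `W`, and for all `j` the eigenvalues `S i j` of `φ i` on the
primitive part of `W` of weight `w + j` and all `l ^ (- a * f i * (w + j)) / z`, `z ∈ S i j`, are
together contained in the eigenvalues of `φ i` on the primitive part of `V`; the eigenvalues of
`φ i` on `W` are the `l ^ (a * f i * m) * z` with `z ∈ S i j` and `m ≤ j`. -/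
def MonodromyClause [FiniteDimensional ℚ_[p] V] (ρ : Representation ℚ_[p] Γ V) (w : ℤ)
    (W : Submodule ℚ_[p] V) (Δ : Subgroup Gal(Ω/ℚ)) : Prop :=
  ∀ (l : ℕ) (φ : Gal(Ω/ℚ)) (a : ℕ) (hφ : φ ^ a ∈ Δ) (k : ℕ) (x : Fin k → Δ) (f : Fin k → ℕ)
    (ho : IsOrbits (Γ.subgroupOf Δ) ⟨φ ^ a, hφ⟩ x f), l.Prime → l ≠ p → IsFrobAt l φ → 0 < a →
    ∀ (τ : Fin k → Γ) (N : Fin k → V →ₗ[ℚ_[p]] V) (P : Fin k → ℤ → ℚ[X]) (S : Fin k → Finset ℤ),
      (∀ i, ρ (τ i) = nexp (N i) ∧
        IsWM (l ^ (a * f i)) w (ρ (elt ho i)) (N i) (P i) (S i)) →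
      ∀ i, (∀ j : ℕ, Set.BijOn (N i ^ j)
          ((W ⊓ wtPart (ρ (elt ho i)) (P i) (w + j) : Submodule ℚ_[p] V) : Set V)
          ((W ⊓ wtPart (ρ (elt ho i)) (P i) (w - j) : Submodule ℚ_[p] V) : Set V)) ∧
        (∀ j : ℕ, IsoIn (algebraMap ℚ_[p] _ (((l ^ (a * f i) : ℕ) : ℚ_[p]) ^ (-(w + j) : ℤ)))
          (eig (ρ (elt ho i)) (W ⊓ primPart (ρ (elt ho i)) (N i) (P i) w j))
          (eig (ρ (elt ho i)) (primPart (ρ (elt ho i)) (N i) (P i) w j))) ∧
        eig (ρ (elt ho i)) W = ∑ j ∈ Finset.range (finrank ℚ_[p] V), ∑ m ∈ Finset.range (j + 1),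
          (eig (ρ (elt ho i)) (W ⊓ primPart (ρ (elt ho i)) (N i) (P i) w j)).map
            (fun z => (((l ^ (a * f i) : ℕ) : AlgebraicClosure ℚ_[p]) ^ m) * z)

/-- **Clause for the other members of the compatible system.** Let `θ` be an `l`-adic representation
compatible with `ρ`. There is a character `ε'` of `Δ` with the same kernel as `ε` such that for all
`g ∈ Δ`, if `g i ∈ Γ` are the elements attached to the orbits of `g`, there are multisets `S i` with
`r` elements which together with all `χ (g i) ^ (- w) / z`, `z ∈ S i`, are contained in the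
eigenvalues of `θ (g i)`, and the product of all elements of all `S i` is `ε' g * χ g ^ (- H)`, where
`χ` is the `l`-adic cyclotomic character. -/
def SystemClause [FiniteDimensional ℚ_[p] V] (ρ : Representation ℚ_[p] Γ V) (w : ℤ) (r : ℕ)
    {Δ : Subgroup Gal(Ω/ℚ)} (ε : Δ →* ℤ_[p]ˣ) (H : ℤ) : Prop :=
  ∀ (l : ℕ) [Fact l.Prime] (m : ℕ) (θ : Representation ℚ_[l] Γ (Fin m → ℚ_[l])),
    IsContRep θ → IsCompat θ ρ → ∃ ε' : Δ →* (AlgebraicClosure ℚ_[l])ˣ, ε'.ker = ε.ker ∧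
      ∀ (g : Δ) (k : ℕ) (x : Fin k → Δ) (f : Fin k → ℕ) (ho : IsOrbits (Γ.subgroupOf Δ) g x f),
        ∃ S : Fin k → Multiset (AlgebraicClosure ℚ_[l]), (∀ i, Multiset.card (S i) = r) ∧
          (∀ i, IsoIn (algebraMap ℚ_[l] _ (chi l (g : Gal(Ω/ℚ)) (-(w * f i)))) (S i)
            (rts (θ (elt ho i)).charpoly)) ∧
          ∏ i, (S i).prod = (ε' g : AlgebraicClosure ℚ_[l]) *
            algebraMap ℚ_[l] _ (chi l (g : Gal(Ω/ℚ)) (-H))

/-- **Clause for weight `w = 2 * m` and fields `F` with a real place.** Suppose that the Frobenius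
elements `φ ∈ Γ` at primes `q ≠ p` at which `V` is rigid (the characteristic polynomial of `φ⁻¹` has
integer coefficients, its complex roots have absolute value `q ^ m`, and the absolute values of its
roots in the algebraic closure of `ℚ_[q]` are rigid for `dim W`) are dense in a neighbourhood of `1`.
Then an open subgroup acts on `W` through the power `- m` of the cyclotomic character. -/
def TateClause [FiniteDimensional ℚ_[p] V] (ρ : Representation ℚ_[p] Γ V) (w : ℤ)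
    (W : Submodule ℚ_[p] V) : Prop :=
  ∀ m : ℤ, w = 2 * m → (∃ c ∈ Γ, IsCplxConj c) →
    closure {φ : Γ | ∃ (q : ℕ) (_ : Fact q.Prime), q ≠ p ∧ IsFrobAt q (φ : Gal(Ω/ℚ)) ∧
      IsRigidOp q m (finrank ℚ_[p] W) (ρ φ⁻¹)} ∈ nhds (1 : Γ) →
    ∃ U : Subgroup Γ, IsOpen (U : Set Γ) ∧
      ∀ g ∈ U, ∀ x ∈ W, ρ g x = chi p (g : Gal(Ω/ℚ)) (-m) • x

/-- All conditions attached to an open subgroup `Δ = Gal(Ω/F₀)`: there are one continuous character
`ε` of `Δ` of finite order and one integer `H` with `2 H = w r [F F₀ : F₀]` for which all clauses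
hold. -/
def TestOver [FiniteDimensional ℚ_[p] V] {F : IntermediateField ℚ Ω}
    (ρ : Representation ℚ_[p] F.fixingSubgroup V) (w : ℤ) (W : Submodule ℚ_[p] V)
    (D : (F →+* PadicAlgCl p) → Multiset ℤ) (Δ : Subgroup Gal(Ω/ℚ)) : Prop :=
  ∃ (ε : Δ →* ℤ_[p]ˣ) (H : ℤ), Continuous ε ∧ IsOfFinOrder ε ∧
    2 * H = w * (finrank ℚ_[p] W * F.fixingSubgroup.relIndex Δ) ∧ WeightClause D Δ H ∧
    ElementClause ρ w W ε H ∧ MonodromyClause ρ w W Δ ∧ SystemClause ρ w (finrank ℚ_[p] W) ε H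

end

end Pool.Agent.H99W
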