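import Mathlib
import Pool.Agent.Lib.H99L.E2
import Pool.Agent.Lib.H99W.Defs

/-!
# The clause for all elements
-/

namespace Pool.Agent.H99W

open NumberField Module Polynomial Pool.Agent.GSem Pool.Agent.NF Pool.Agent.H99L

variable {p : ℕ} [hp : Fact p.Prime] {Γ Δ : Subgroup Gal(Qb/ℚ)}
variable {V : Type*} [AddCommGroup V] [Module ℚ_[p] V] [FiniteDimensional ℚ_[p] V]

/-- The cyclotomic character at the elements attached to the orbits. -/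
theorem cyc_elt {g : Δ} {k : ℕ} {x : Fin k → Δ} {f : Fin k → ℕ}
    (ho : IsOrbits (Γ.subgroupOf Δ) g x f) (i : Fin k) :
    cyc p Qb ((elt ho i : Γ) : Gal(Qb/ℚ)) = cyc p Qb (g : Gal(Qb/ℚ)) ^ f i := by
  change cyc p Qb ((x i : Gal(Qb/ℚ))⁻¹ * (g : Gal(Qb/ℚ)) ^ f i * (x i : Gal(Qb/ℚ))) = _
  rw [cyc_conj, map_pow]

/-- Chunk C1 (size S). **The element clause**, from the product relation.

PROOF. Copy of `H99L.elementClause` (file `H99L/Z1.lean`), with `cyc_elt` above. -/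
theorem elementClause (ρ : Representation ℚ_[p] Γ V) (w : ℤ)
    (B : V →ₗ[ℚ_[p]] V →ₗ[ℚ_[p]] ℚ_[p]) (hB : IsPol ρ w B) (W : Submodule ℚ_[p] V)
    (hW : ∀ g, ∀ x ∈ W, ρ g x ∈ W) (hiso : ∀ x ∈ W, ∀ y ∈ W, B x y = 0)
    (ε : Δ →* ℤ_[p]ˣ) (H : ℤ)
    (hdet : ∀ (g : Δ) (k : ℕ) (x : Fin k → Δ) (f : Fin k → ℕ)
      (ho : IsOrbits (Γ.subgroupOf Δ) g x f),
        ∏ i, detG ρ W hW (elt ho i) = toQ (ε g) * chi p (g : Gal(Qb/ℚ)) (-H)) :
    ElementClause ρ w W ε H := by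
  intro g k x f ho
  refine ⟨fun i => ?_, ?_⟩
  · have hχ : chi p (g : Gal(Qb/ℚ)) (-(w * f i)) ≠ 0 := zpow_ne_zero _ (toQ_ne_zero _)
    refine isoIn_eig (ρ (elt ho i)) B _ hχ hB.1 (fun a b => ?_) W (hW _) hiso
    rw [hB.2]
    congr 1
    rw [cyc_elt ho i, map_pow, ← zpow_natCast, ← zpow_mul, chi]
    congr 1
    ring
  · rw [← hdet g k x f ho, map_prod]
    refine Finset.prod_congr rfl fun i _ => ?_
    exact prod_eig _ _ (hW _)

end Pool.Agent.H99W
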