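import Mathlib
import Pool.Agent.Lib.H99L.M1
import Pool.Agent.Lib.H99L.M2
import Pool.Agent.Lib.H99L.M3
import Pool.Agent.Lib.H99L.M5
import Pool.Agent.Lib.H99L.M6
import Pool.Agent.Lib.H99L.M7
import Pool.Agent.Lib.H99L.M8
import Pool.Agent.Lib.H99W.C1

/-!
# The clause at the places above a prime different from `p`
-/

namespace Pool.Agent.H99W

open NumberField Module Polynomial Pool.Agent.GSem Pool.Agent.NF Pool.Agent.H99L

variable {p : ℕ} [hp : Fact p.Prime] {Γ Δ : Subgroup Gal(Qb/ℚ)}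
variable {V : Type*} [AddCommGroup V] [Module ℚ_[p] V] [FiniteDimensional ℚ_[p] V]

/-- Chunk C2 (size M). **The monodromy clause.**

PROOF. Copy of `H99L.monodromyClause` (file `H99L/M8.lean`): replace `φ` by `φ ^ a`, `l ^ f i` by
`l ^ (a * f i)`, `ho.elt` by `elt ho`, `toQ (cyc p Qb (φ ^ a)) = l ^ a` (`cyc_frob_pow`, file
`H99/NF/Sum.lean`), `weights_eq` (M3) with the exponents `a * f i` and the number `a * H` instead of
`H` (`∏ i, R i = l ^ (-(2 * (a * H)))`), and `∑ i, f i = Nat.card (Δ ⧸ Γ.subgroupOf Δ)` (`sum_orbits`)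
`= Γ.relIndex Δ` (`Subgroup.relIndex`, `Subgroup.index`). -/
theorem monodromyClause (ρ : Representation ℚ_[p] Γ V) (w : ℤ)
    (B : V →ₗ[ℚ_[p]] V →ₗ[ℚ_[p]] ℚ_[p]) (hB : IsPol ρ w B) (W : Submodule ℚ_[p] V)
    (hW : ∀ g, ∀ x ∈ W, ρ g x ∈ W) (hiso : ∀ x ∈ W, ∀ y ∈ W, B x y = 0)
    (ε : Δ →* ℤ_[p]ˣ) (hε : IsOfFinOrder ε) (H : ℤ)
    (hH : 2 * H = w * (finrank ℚ_[p] W * Γ.relIndex Δ))
    (hdet : ∀ (g : Δ) (k : ℕ) (x : Fin k → Δ) (f : Fin k → ℕ)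
      (ho : IsOrbits (Γ.subgroupOf Δ) g x f),
        ∏ i, detG ρ W hW (elt ho i) = toQ (ε g) * chi p (g : Gal(Qb/ℚ)) (-H)) :
    MonodromyClause ρ w W Δ := by
  intro l φ a hφΔ k x f ho hl hlp hφ ha τ N P S hyp
  have hq : ∀ i, 1 < l ^ (a * f i) := fun i =>
    Nat.one_lt_pow (Nat.mul_pos ha (ho.pos i)).ne' hl.one_lt
  have hWN : ∀ i, ∀ y ∈ W, N i y ∈ W := fun i =>
    stable_of_nexp (N i) (hyp i).2.1 W (fun y hy => by rw [← (hyp i).1]; exact hW _ y hy)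
  obtain ⟨J⟩ := exists_embedding p
  choose A hA1 hA2 hA3 using fun i => wm_norm (hq i) (hyp i).2 J W (hW (elt ho i)) (hWN i)
  have hQg : IsGalois ℚ Qb := qb_gal
  have hcyc : toQ (cyc p Qb (φ ^ a)) = (l : ℚ_[p]) ^ a := cyc_frob_pow hl hlp hφ a
  have hnε : ‖J (algebraMap ℚ_[p] _ (toQ (ε ⟨φ ^ a, hφΔ⟩)))‖ = 1 := by
    obtain ⟨M, hM, hM'⟩ := isOfFinOrder_iff_pow_eq_one.1 hε
    have h1 : (ε ⟨φ ^ a, hφΔ⟩) ^ M = 1 := by
      have h2 := DFunLike.congr_fun hM' ⟨φ ^ a, hφΔ⟩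
      exact h2
    have h2 : ‖J (algebraMap ℚ_[p] _ (toQ (ε ⟨φ ^ a, hφΔ⟩)))‖ ^ M = 1 := by
      rw [← norm_pow, ← map_pow, ← map_pow, ← map_pow, h1, map_one, map_one, map_one, norm_one]
    exact (pow_eq_one_iff_of_nonneg (norm_nonneg _) hM.ne').1 h2
  have hprod : ∏ i, ‖J (algebraMap ℚ_[p] _
      (LinearMap.det ((ρ (elt ho i)).restrict (hW (elt ho i)))))‖ ^ 2 =
        (l : ℝ) ^ (-(2 * (a * H))) := by
    have h1 : ∏ i, LinearMap.det ((ρ (elt ho i)).restrict (hW (elt ho i))) =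
        toQ (ε ⟨φ ^ a, hφΔ⟩) * chi p (φ ^ a) (-H) := hdet ⟨φ ^ a, hφΔ⟩ k x f ho
    rw [Finset.prod_pow, ← norm_prod, ← map_prod, ← map_prod, h1, chi, hcyc, map_mul, map_mul,
      norm_mul, mul_pow, hnε, one_pow, one_mul, map_zpow₀, map_zpow₀, map_pow, map_pow,
      map_natCast, map_natCast, norm_zpow, norm_pow, Complex.norm_natCast, ← zpow_natCast,
      ← zpow_natCast, ← zpow_mul, ← zpow_mul]
    congr 1
    push_cast
    ring
  have haw := weights_eq hl.one_lt (fun i => a * f i) (fun i => Nat.mul_pos ha (ho.pos i)) A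
    (w * finrank ℚ_[p] W) (a * H) hA2 (by
    have h1 : ∑ i, ((a * f i : ℕ) : ℤ) = a * (Γ.relIndex Δ : ℕ) := by
      have h2 : Γ.relIndex Δ = ∑ i, f i := (sum_orbits ho).symm
      rw [h2]
      push_cast
      rw [Finset.mul_sum]
    rw [h1]
    calc 2 * ((a : ℤ) * H) = a * (2 * H) := by ring
      _ = _ := by
        rw [hH]
        push_cast
        ring) (fun i => ‖J (algebraMap ℚ_[p] _
      (LinearMap.det ((ρ (elt ho i)).restrict (hW (elt ho i)))))‖ ^ 2) hA1 hprod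
  intro i
  have hbij := fun j => wm_bijOn (hq i) (hyp i).2 W (hWN i) j (hA3 i (haw i) j)
  have hBN : ∀ y z, B (N i y) z = - B y (N i z) :=
    form_nexp (N i) (hyp i).2.1 B (toQ (cyc p Qb ((τ i : Γ) : Gal(Qb/ℚ))) ^ (-w)) (fun y z => by
      rw [← (hyp i).1]
      exact hB.2 _ y z)
  have hBT : ∀ y z, B (ρ (elt ho i) y) (ρ (elt ho i) z) =
      ((l ^ (a * f i) : ℕ) : ℚ_[p]) ^ (-w) * B y z := by
    intro y z
    rw [hB.2]
    congr 1
    have h1 : cyc p Qb ((elt ho i : Γ) : Gal(Qb/ℚ)) = cyc p Qb (φ ^ a) ^ f i := cyc_elt ho i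
    rw [h1, map_pow, hcyc, Nat.cast_pow, pow_mul]
  exact ⟨hbij, fun j => prim_isoIn (hq i) (hyp i).2 B hB.1 hBT hBN W (hW _) (hWN i) hiso j,
    eig_blocks (hq i) (hyp i).2 W (hW _) (hWN i) hbij⟩

end Pool.Agent.H99W
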