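import Mathlib
import Pool.Agent.Lib.H25G.GB1
import Pool.Agent.Lib.H99.NF.Sum
import Pool.Agent.Lib.H99W.Defs

/-!
# Inertia elements
-/

namespace Pool.Agent.H99W

open NumberField Pool.Agent.GSem

variable {p : ℕ} [hp : Fact p.Prime]

/-- the preimage of `Q` under `y` -/
noncomputable def v1_Q (Q : Ideal (𝓞 Qb)) (y : Gal(Qb/ℚ)) : Ideal (𝓞 Qb) :=
  Q.comap (MulSemiringAction.toRingHom Gal(Qb/ℚ) (𝓞 Qb) y)

theorem v1_mem {Q : Ideal (𝓞 Qb)} {y : Gal(Qb/ℚ)} {x : 𝓞 Qb} : x ∈ v1_Q Q y ↔ y • x ∈ Q := Iff.rfl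

theorem v1_prime {Q : Ideal (𝓞 Qb)} (hQ : Q.IsPrime) (y : Gal(Qb/ℚ)) : (v1_Q Q y).IsPrime :=
  hQ.comap _

theorem v1_q {q : ℕ} {Q : Ideal (𝓞 Qb)} (hqQ : (q : 𝓞 Qb) ∈ Q) (y : Gal(Qb/ℚ)) :
    (q : 𝓞 Qb) ∈ v1_Q Q y := by
  rw [v1_mem]
  have h1 : y • (q : 𝓞 Qb) = q := map_natCast (MulSemiringAction.toRingHom Gal(Qb/ℚ) (𝓞 Qb) y) q
  rw [h1]
  exact hqQ

theorem v1_conj (s y : Gal(Qb/ℚ)) (f : ℕ) (x : 𝓞 Qb) :
    y • ((y⁻¹ * s ^ f * y) • x) = s ^ f • (y • x) := by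
  rw [← mul_smul, ← mul_smul]
  congr 1
  group

/-- Chunk V1 (size M). **The cyclotomic character is unramified at `q ≠ p`.**

PROOF. `H25G.gb1_frob` gives `φ` with `φ • x - x ^ q ∈ Q` for all `x`. Then also
`(φ * s) • x - x ^ q = (φ • (s • x) - (s • x) ^ q) + ((s • x) ^ q - x ^ q) ∈ Q`
(`sub_dvd_pow_sub_pow`). So `φ` and `φ * s` satisfy `IsFrobAt q`, and `cyc_frob hq hqp` (file
`Helper90/GSem/CycChar.lean`) says that `cyc p Qb` has the same value in `ℤ_[p]` at both; units: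
`Units.ext`, `map_mul`, `mul_eq_left`. -/
theorem cyc_inertia {q : ℕ} (hq : q.Prime) (hqp : q ≠ p) {Q : Ideal (𝓞 Qb)} (hQ : Q.IsPrime)
    (hqQ : (q : 𝓞 Qb) ∈ Q) {s : Gal(Qb/ℚ)} (hs : ∀ x : 𝓞 Qb, s • x - x ∈ Q) :
    cyc p Qb s = 1 := by
  have hQcl : IsAlgClosure ℚ Qb := qb_cl
  obtain ⟨φ, hφ⟩ := H25G.gb1_frob hq hQ hqQ
  have h1 : IsFrobAt q φ := ⟨Q, hQ, hqQ, hφ⟩
  have h2 : IsFrobAt q (φ * s) := by
    refine ⟨Q, hQ, hqQ, fun x => ?_⟩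
    have h3 := hφ (s • x)
    have h4 : (s • x) ^ q - x ^ q ∈ Q := by
      rw [← Ideal.Quotient.eq, map_pow, map_pow, Ideal.Quotient.eq.2 (hs x)]
    have h5 := Q.add_mem h3 h4
    rw [sub_add_sub_cancel, ← mul_smul] at h5
    exact h5
  have e1 := cyc_frob hq hqp h1
  have e2 := cyc_frob hq hqp h2
  have e3 : cyc p Qb (φ * s) = cyc p Qb φ := Units.ext (by rw [e1, e2])
  rw [map_mul] at e3
  exact mul_eq_left.1 e3

/-- **Conjugates and powers of inertia elements.**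

PROOF. `s ^ f • x - x ∈ Q` by induction on `f` (`s ^ (f + 1) • x - x =
(s • (s ^ f • x) - s ^ f • x) + (s ^ f • x - x)`). Let `Q'` be the preimage of `Q` under the ring
automorphism `x ↦ y • x` of `𝓞 Qb` (`Ideal.comap (MulSemiringAction.toRingHom ..)`): it is prime
(`Ideal.comap_isPrime`), contains `q` (`y • (q : 𝓞 Qb) = q`: `smul` of a natural number,
`map_natCast` for the ring homomorphism), and
`y • ((y⁻¹ * s ^ f * y) • x - x) = s ^ f • (y • x) - y • x ∈ Q` (`smul_sub`, `mul_smul`,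
`smul_inv_smul`). -/
theorem inertia_conj {q : ℕ} {Q : Ideal (𝓞 Qb)} (hQ : Q.IsPrime) (hqQ : (q : 𝓞 Qb) ∈ Q)
    {s : Gal(Qb/ℚ)} (hs : ∀ x : 𝓞 Qb, s • x - x ∈ Q) (y : Gal(Qb/ℚ)) (f : ℕ) :
    ∃ Q' : Ideal (𝓞 Qb), Q'.IsPrime ∧ (q : 𝓞 Qb) ∈ Q' ∧
      ∀ x : 𝓞 Qb, (y⁻¹ * s ^ f * y) • x - x ∈ Q' := by
  have hpow : ∀ (f : ℕ) (x : 𝓞 Qb), s ^ f • x - x ∈ Q := by
    intro f
    induction f with
    | zero =>
      intro x
      rw [pow_zero, one_smul, sub_self]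
      exact Q.zero_mem
    | succ f ih =>
      intro x
      have h1 := Q.add_mem (hs (s ^ f • x)) (ih x)
      rw [sub_add_sub_cancel, ← mul_smul, ← pow_succ'] at h1
      exact h1
  refine ⟨v1_Q Q y, v1_prime hQ y, v1_q hqQ y, fun x => ?_⟩
  rw [v1_mem, smul_sub, v1_conj]
  exact hpow f (y • x)

end Pool.Agent.H99W
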