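import Mathlib
import Pool.Agent.Lib.H99W.V1

/-!
# Powers of Frobenius elements
-/

namespace Pool.Agent.H99W

open NumberField Pool.Agent.GSem

variable {p : ℕ} [hp : Fact p.Prime]

theorem v2a_pow {N : ℕ} {Q : Ideal (𝓞 Qb)} {φ : Gal(Qb/ℚ)}
    (hφ : ∀ x : 𝓞 Qb, φ • x - x ^ N ∈ Q) : ∀ (k : ℕ) (x : 𝓞 Qb), (φ ^ k) • x - x ^ (N ^ k) ∈ Q := by
  intro k
  induction k with
  | zero =>
    intro x
    rw [pow_zero, pow_zero, one_smul, pow_one, sub_self]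
    exact Q.zero_mem
  | succ k ih =>
    intro x
    have h3 := hφ ((φ ^ k) • x)
    rw [← mul_smul, ← pow_succ'] at h3
    have h4 : ((φ ^ k) • x) ^ N - (x ^ (N ^ k)) ^ N ∈ Q := by
      rw [← Ideal.Quotient.eq, map_pow, map_pow, Ideal.Quotient.eq.2 (ih x)]
    have h5 := Q.add_mem h3 h4
    rw [sub_add_sub_cancel, ← pow_mul, ← pow_succ] at h5
    exact h5

/-- Chunk V2a (size M). **Comparison with a power of a Frobenius element.**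

PROOF. As in `H25G.gb2_pow` (file `H25G/GB2B.lean`): `φ` from `H25G.gb1_frob`;
`φ ^ a • x - x ^ (q ^ a) ∈ Q` by induction; `φ ^ a • y ∈ Q → y ∈ Q`; so `s = (φ ^ a)⁻¹ * g` satisfies
`s • x - x ∈ Q`. -/
theorem exists_frob_mul {q : ℕ} (hq : q.Prime) {Q : Ideal (𝓞 Qb)} (hQ : Q.IsPrime)
    (hqQ : (q : 𝓞 Qb) ∈ Q) {g : Gal(Qb/ℚ)} {a : ℕ} (hg : ∀ x : 𝓞 Qb, g • x - x ^ (q ^ a) ∈ Q) :
    ∃ φ : Gal(Qb/ℚ), (∀ x : 𝓞 Qb, φ • x - x ^ q ∈ Q) ∧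
      ∀ x : 𝓞 Qb, ((φ ^ a)⁻¹ * g) • x - x ∈ Q := by
  obtain ⟨φ, hφ⟩ := H25G.gb1_frob hq hQ hqQ
  have h2 := v2a_pow hφ
  have h5 : ∀ y : 𝓞 Qb, (φ ^ a) • y ∈ Q → y ∈ Q := by
    intro y hy
    have h6 : y ^ (q ^ a) ∈ Q := by
      have h7 := Q.sub_mem hy (h2 a y)
      rwa [sub_sub_cancel] at h7
    exact hQ.mem_of_pow_mem _ h6
  refine ⟨φ, hφ, fun x => ?_⟩
  apply h5
  rw [smul_sub, mul_smul, smul_inv_smul]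
  have h7 := Q.sub_mem (hg x) (h2 a x)
  rwa [sub_sub_sub_cancel_right] at h7

/-- **Powers and conjugates.** If `g = φ ^ a * s` with a Frobenius element `φ` and an inertia
element `s` at `Q`, then `y⁻¹ * g ^ f * y = φ' ^ (a * f) * t` with the same at the prime `y⁻¹ Q`.

PROOF. `g ^ f • x - x ^ (q ^ (a * f)) ∈ Q` by induction on `f`. Let `Q'` be the preimage of `Q` under
`x ↦ y • x`, as in `inertia_conj` (V1). The element `y⁻¹ * g ^ f * y` acts on `𝓞 Qb` modulo `Q'` as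
`x ↦ x ^ (q ^ (a * f))`. Apply the first part to it and `Q'`. -/
theorem exists_frob_conj {q : ℕ} (hq : q.Prime) {Q : Ideal (𝓞 Qb)} (hQ : Q.IsPrime)
    (hqQ : (q : 𝓞 Qb) ∈ Q) {g : Gal(Qb/ℚ)} {a : ℕ} (hg : ∀ x : 𝓞 Qb, g • x - x ^ (q ^ a) ∈ Q)
    (y : Gal(Qb/ℚ)) (f : ℕ) :
    ∃ (Q' : Ideal (𝓞 Qb)) (φ : Gal(Qb/ℚ)), Q'.IsPrime ∧ (q : 𝓞 Qb) ∈ Q' ∧ IsFrobAt q φ ∧
      ∀ x : 𝓞 Qb, ((φ ^ (a * f))⁻¹ * (y⁻¹ * g ^ f * y)) • x - x ∈ Q' := by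
  have h1 : ∀ x : 𝓞 Qb, (y⁻¹ * g ^ f * y) • x - x ^ (q ^ (a * f)) ∈ v1_Q Q y := by
    intro x
    rw [v1_mem, smul_sub, v1_conj, pow_mul]
    have h2 : y • (x ^ ((q ^ a) ^ f)) = (y • x) ^ ((q ^ a) ^ f) :=
      map_pow (MulSemiringAction.toRingHom Gal(Qb/ℚ) (𝓞 Qb) y) x _
    rw [h2]
    exact v2a_pow hg f (y • x)
  obtain ⟨φ, hφ, hs⟩ := exists_frob_mul hq (v1_prime hQ y) (v1_q hqQ y) h1
  exact ⟨v1_Q Q y, φ, v1_prime hQ y, v1_q hqQ y, ⟨_, v1_prime hQ y, v1_q hqQ y, hφ⟩, hs⟩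

/-- **The cyclotomic character.** PROOF. First part, `cyc_inertia` (V1) and `cyc_frob_pow` (file
`H99/NF/Sum.lean`). -/
theorem cyc_frob_mul {q : ℕ} (hq : q.Prime) (hqp : q ≠ p) {Q : Ideal (𝓞 Qb)} (hQ : Q.IsPrime)
    (hqQ : (q : 𝓞 Qb) ∈ Q) {g : Gal(Qb/ℚ)} {a : ℕ} (hg : ∀ x : 𝓞 Qb, g • x - x ^ (q ^ a) ∈ Q) :
    toQ (cyc p Qb g) = (q : ℚ_[p]) ^ a := by
  have hQcl : IsAlgClosure ℚ Qb := qb_cl
  have hQg : IsGalois ℚ Qb := qb_gal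
  obtain ⟨φ, hφ, hs⟩ := exists_frob_mul hq hQ hqQ hg
  have h1 := cyc_inertia (p := p) hq hqp hQ hqQ hs
  rw [map_mul, map_inv, inv_mul_eq_one] at h1
  rw [← h1]
  exact Pool.Agent.NF.cyc_frob_pow hq hqp ⟨Q, hQ, hqQ, hφ⟩ a

end Pool.Agent.H99W
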