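import Mathlib
import Pool.Agent.Lib.H99L.Y2
import Pool.Agent.Lib.H99L.Y10
import Pool.Agent.Lib.H99W.V2a
import Pool.Agent.Lib.H99W.Defs

/-!
# The datum at powers of Frobenius elements
-/

namespace Pool.Agent.H99W

open NumberField Module Polynomial Pool.Agent.GSem Pool.Agent.NF Pool.Agent.H99L

variable {p : ℕ} [hp : Fact p.Prime] {Γ Δ : Subgroup Gal(Qb/ℚ)}
variable {V : Type*} [AddCommGroup V] [Module ℚ_[p] V] [FiniteDimensional ℚ_[p] V]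

/-- Chunk C3a (size M). **The `l`-adic datum at a power of a Frobenius element.**

PROOF. Copy of `H99L.datum_frob` (file `H99L/Y10.lean`), with `elt ho` instead of `ho.elt` and
`hel` the new `ElementClause`; the element `elt ho i = (x i)⁻¹ * (φ ^ m) ^ f i * x i` is the power
`m * f i` of the Frobenius element `(x i)⁻¹ * φ * x i`. -/
theorem datum_frob {l : ℕ} [Fact l.Prime] (ρ : Representation ℚ_[p] Γ V) (w : ℤ)
    (W : Submodule ℚ_[p] V) (hW : ∀ g, ∀ x ∈ W, ρ g x ∈ W) (ε : Δ →* ℤ_[p]ˣ) (H : ℤ)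
    (hel : ElementClause ρ w W ε H)
    (jp : Qb →+* AlgebraicClosure ℚ_[p]) (jl : Qb →+* AlgebraicClosure ℚ_[l])
    (e : Δ →* Qbˣ)
    (he : ∀ g, jp (e g : Qb) = algebraMap ℚ_[p] (AlgebraicClosure ℚ_[p]) (toQ (ε g)))
    {U : Type*} [AddCommGroup U] [Module ℚ_[l] U] [FiniteDimensional ℚ_[l] U]
    (θ : Representation ℚ_[l] Γ U) {b : ℕ}
    (hb : ∀ q : ℕ, b < q → q.Prime → ∀ φ : Gal(Qb/ℚ), IsFrobAt q φ →
      ∀ (j : ℕ) (hj : φ ^ j ∈ Γ), 0 < j → ∃ P : ℚ[X],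
        (θ ⟨φ ^ j, hj⟩).charpoly = P.map (algebraMap ℚ ℚ_[l]) ∧
        (ρ ⟨φ ^ j, hj⟩).charpoly = P.map (algebraMap ℚ ℚ_[p]))
    {q : ℕ} (hbq : b < q) (hpq : p < q) (hlq : l < q) (hq : q.Prime) {φ : Gal(Qb/ℚ)}
    (hφ : IsFrobAt q φ) {m : ℕ} (hm : 0 < m) (hφΔ : φ ^ m ∈ Δ) {k : ℕ} {x : Fin k → Δ}
    {f : Fin k → ℕ} (ho : IsOrbits (Γ.subgroupOf Δ) ⟨φ ^ m, hφΔ⟩ x f) :
    HasDatum (finrank ℚ_[p] W) (fun i => rts (θ (elt ho i)).charpoly)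
      (fun i => algebraMap ℚ_[l] _ (chi l (φ ^ m) (-(w * f i))))
      (jl (e ⟨φ ^ m, hφΔ⟩) * algebraMap ℚ_[l] _ (chi l (φ ^ m) (-H))) := by
  have hP : ∀ i, ∃ P : ℚ[X], (θ (elt ho i)).charpoly = P.map (algebraMap ℚ ℚ_[l]) ∧
      (ρ (elt ho i)).charpoly = P.map (algebraMap ℚ ℚ_[p]) := by
    intro i
    have e1 : ((x i : Gal(Qb/ℚ))⁻¹ * φ * x i) ^ (m * f i) =
        (x i : Gal(Qb/ℚ))⁻¹ * (φ ^ m) ^ f i * x i := by
      have := conj_pow (i := m * f i) (a := (x i : Gal(Qb/ℚ))⁻¹) (b := φ)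
      rw [inv_inv] at this
      rw [this, pow_mul]
    have hj : ((x i : Gal(Qb/ℚ))⁻¹ * φ * x i) ^ (m * f i) ∈ Γ := by
      rw [e1]
      exact ho.mem i
    obtain ⟨P, h1, h2⟩ := hb q hbq hq _ (Pool.Agent.Ord.isFrobAt_conj hφ (x i : Gal(Qb/ℚ)))
      (m * f i) hj (Nat.mul_pos hm (ho.pos i))
    have e2 : (⟨((x i : Gal(Qb/ℚ))⁻¹ * φ * x i) ^ (m * f i), hj⟩ : Γ) = elt ho i := Subtype.ext e1
    rw [e2] at h1 h2
    exact ⟨P, h1, h2⟩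
  choose P hPl hPp using hP
  have hcp : toQ (cyc p Qb (φ ^ m)) = (q : ℚ_[p]) ^ m := by
    rw [map_pow, map_pow, toQ_apply, cyc_frob hq hpq.ne' hφ, PadicInt.coe_natCast]
  have hcl : toQ (cyc l Qb (φ ^ m)) = (q : ℚ_[l]) ^ m := by
    rw [map_pow, map_pow, toQ_apply, cyc_frob hq hlq.ne' hφ, PadicInt.coe_natCast]
  have b1 : ∀ a : ℤ, algebraMap ℚ_[p] (AlgebraicClosure ℚ_[p]) (chi p (φ ^ m) a) =
      algebraMap ℚ (AlgebraicClosure ℚ_[p]) (((q : ℚ) ^ m) ^ a) := by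
    intro a
    rw [chi, hcp]
    simp only [map_zpow₀, map_pow, map_natCast]
  have b2 : ∀ a : ℤ, algebraMap ℚ_[l] (AlgebraicClosure ℚ_[l]) (chi l (φ ^ m) a) =
      algebraMap ℚ (AlgebraicClosure ℚ_[l]) (((q : ℚ) ^ m) ^ a) := by
    intro a
    rw [chi, hcl]
    simp only [map_zpow₀, map_pow, map_natCast]
  obtain ⟨h1, h2⟩ := hel ⟨φ ^ m, hφΔ⟩ k x f ho
  have h3 : HasDatum (finrank ℚ_[p] W) (fun i => rts ((P i).map (algebraMap ℚ ℚ_[p])))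
      (fun i => algebraMap ℚ (AlgebraicClosure ℚ_[p]) (((q : ℚ) ^ m) ^ (-(w * f i))))
      (jp (e ⟨φ ^ m, hφΔ⟩ : Qb) *
        algebraMap ℚ (AlgebraicClosure ℚ_[p]) (((q : ℚ) ^ m) ^ (-H))) := by
    refine ⟨fun i => eig (ρ (elt ho i)) W, fun i => card_eig _ _ (hW _), fun i => ?_, ?_⟩
    · have := h1 i
      change IsoIn (algebraMap ℚ_[p] _ (chi p (φ ^ m) (-(w * f i)))) _ _ at this
      rw [hPp i, b1] at this
      exact this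
    · rw [h2]
      change algebraMap ℚ_[p] _ (toQ (ε ⟨φ ^ m, hφΔ⟩) * chi p (φ ^ m) (-H)) = _
      rw [map_mul, b1, he]
  have h4 := datum_transfer jp jl P (fun i => ((q : ℚ) ^ m) ^ (-(w * f i)))
    (e ⟨φ ^ m, hφΔ⟩ : Qb) (((q : ℚ) ^ m) ^ (-H)) h3
  have c1 : (fun i => rts (θ (elt ho i)).charpoly) =
      fun i => rts ((P i).map (algebraMap ℚ ℚ_[l])) :=
    funext fun i => by rw [hPl i]
  have c2 : (fun i => algebraMap ℚ_[l] (AlgebraicClosure ℚ_[l]) (chi l (φ ^ m) (-(w * f i)))) =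
      fun i => algebraMap ℚ (AlgebraicClosure ℚ_[l]) (((q : ℚ) ^ m) ^ (-(w * f i))) :=
    funext fun i => b2 _
  rw [c1, c2, b2]
  exact h4

end Pool.Agent.H99W
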