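import Mathlib
import Pool.Agent.Lib.H99L.Y4
import Pool.Agent.Lib.H99L.Y5
import Pool.Agent.Lib.H99L.Y6
import Pool.Agent.Lib.H99L.Y7
import Pool.Agent.Lib.H99L.Y8
import Pool.Agent.Lib.H99L.Y9
import Pool.Agent.Lib.H99W.C3a

/-!
# The clause for the other members of the system
-/

namespace Pool.Agent.H99W

open NumberField Module Polynomial Pool.Agent.GSem Pool.Agent.NF Pool.Agent.H99L Filter Topology

variable {p : ℕ} [hp : Fact p.Prime] {Γ Δ : Subgroup Gal(Qb/ℚ)}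
variable {V : Type*} [AddCommGroup V] [Module ℚ_[p] V] [FiniteDimensional ℚ_[p] V]

/-- Chunk C3 (size M/L). **The system clause follows from the element clause.**

PROOF. Copy of `H99L.systemClause` (file `H99L/Y11.lean`) with `Δ` instead of `Gal(Ω/ℚ)`: `e : Δ →* Qbˣ`
from `exists_eps_lift` (Y7, any group), `ε'` a character of `Δ`, continuous as there (Y8, any
topological group). For `g`, `k`, `x`, `f`, `ho` let
`G' = {g' : Δ // ∀ i, (x i)⁻¹ * g' ^ f i * x i ∈ Γ.subgroupOf Δ}`; apply `hasDatum_of_mem_closure`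
(Y4). For the density: the normal core `C` of `Γ.subgroupOf Δ` in `Δ` is open in `Δ`, hence `C` maps
to an open subset of `Gal(Qb/ℚ)` (`Δ` is open); intersect with `g⁻¹ O'` and take an open normal
subgroup `N` of `Gal(Qb/ℚ)` inside; Y6 gives `g⁻¹ * φ ^ m ∈ N`, so `φ ^ m = g * c` with `c ∈ C`, in
particular `φ ^ m ∈ Δ`, and `IsOrbits` for `⟨φ ^ m, _⟩` by `IsOrbits.mul_core` (Y5, for the group
`Δ`). Then `datum_frob` (C3a). -/
theorem systemClause (hΓ : IsOpen (Γ : Set Gal(Qb/ℚ))) (hΔ : IsOpen (Δ : Set Gal(Qb/ℚ)))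
    (ρ : Representation ℚ_[p] Γ V) (w : ℤ)
    (W : Submodule ℚ_[p] V) (hW : ∀ g, ∀ x ∈ W, ρ g x ∈ W) (ε : Δ →* ℤ_[p]ˣ)
    (hεc : Continuous ε) (hε : IsOfFinOrder ε) (H : ℤ) (hel : ElementClause ρ w W ε H) :
    SystemClause ρ w (finrank ℚ_[p] W) ε H := by
  classical
  intro l _ m θ hθ hcompat
  obtain ⟨b, hb⟩ := hcompat
  have hQcl : IsAlgClosure ℚ Qb := qb_cl
  have _ : Algebra.IsAlgebraic ℚ Qb := IsAlgClosure.isAlgebraic
  have _ : IsGalois ℚ Qb := IsAlgClosure.isGalois ℚ Qb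
  let jp : Qb →+* AlgebraicClosure ℚ_[p] :=
    (IsAlgClosed.lift : Qb →ₐ[ℚ] AlgebraicClosure ℚ_[p]).toRingHom
  let jl : Qb →+* AlgebraicClosure ℚ_[l] :=
    (IsAlgClosed.lift : Qb →ₐ[ℚ] AlgebraicClosure ℚ_[l]).toRingHom
  obtain ⟨e, he⟩ := exists_eps_lift (L := AlgebraicClosure ℚ_[p]) jp ε hε
  let ε' : Δ →* (AlgebraicClosure ℚ_[l])ˣ :=
    (Units.map (jl : Qb →* AlgebraicClosure ℚ_[l])).comp e
  have hker : ε'.ker = ε.ker := by
    ext g
    rw [MonoidHom.mem_ker, MonoidHom.mem_ker]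
    constructor
    · intro h
      have h1 : jl (e g : Qb) = 1 := congrArg Units.val h
      have h2 : (e g : Qb) = 1 := jl.injective (by rw [h1, map_one])
      have h3 := he g
      rw [h2, map_one] at h3
      have h4 : toQ (ε g) = 1 :=
        (algebraMap ℚ_[p] (AlgebraicClosure ℚ_[p])).injective (by rw [← h3, map_one])
      exact toQ_injective (by rw [h4, map_one])
    · intro h
      have h3 := he g
      rw [h, map_one, map_one] at h3
      have h2 : (e g : Qb) = 1 := jp.injective (by rw [h3, map_one])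
      apply Units.ext
      change jl (e g : Qb) = 1
      rw [h2, map_one]
  refine ⟨ε', hker, fun g k x f ho => ?_⟩
  let c : Fin k → {g' : Δ // ∀ i, (x i)⁻¹ * g' ^ f i * x i ∈ Γ.subgroupOf Δ} → ℚ_[l][X] :=
    fun i g' => (θ ⟨(((x i)⁻¹ * (g' : Δ) ^ f i * x i : Δ) : Gal(Qb/ℚ)), g'.2 i⟩).charpoly
  let lam : Fin k → {g' : Δ // ∀ i, (x i)⁻¹ * g' ^ f i * x i ∈ Γ.subgroupOf Δ} → ℚ_[l] :=
    fun i g' => chi l ((g' : Δ) : Gal(Qb/ℚ)) (-(w * f i))
  let t : {g' : Δ // ∀ i, (x i)⁻¹ * g' ^ f i * x i ∈ Γ.subgroupOf Δ} → PadicAlgCl l :=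
    fun g' => ((ε' (g' : Δ) : (AlgebraicClosure ℚ_[l])ˣ) : AlgebraicClosure ℚ_[l]) *
      algebraMap ℚ_[l] (PadicAlgCl l) (chi l ((g' : Δ) : Gal(Qb/ℚ)) (-H))
  have hcc : ∀ i j, Continuous fun g' => (c i g').coeff j := by
    intro i j
    have h1 : Continuous fun g' : {g' : Δ // ∀ i, (x i)⁻¹ * g' ^ f i * x i ∈ Γ.subgroupOf Δ} =>
        (⟨(((x i)⁻¹ * (g' : Δ) ^ f i * x i : Δ) : Gal(Qb/ℚ)), g'.2 i⟩ : Γ) := by
      refine Continuous.subtype_mk ?_ _
      exact continuous_subtype_val.comp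
        ((continuous_const.mul (continuous_subtype_val.pow _)).mul continuous_const)
    exact (continuous_coeff θ hθ j).comp h1
  have hε'c : Continuous (fun g' : Δ => ((ε' g' : (PadicAlgCl l)ˣ) : PadicAlgCl l)) := by
    have h1 : Continuous (ε' : Δ → (PadicAlgCl l)ˣ) :=
      continuous_of_isOpen_ker (A := (PadicAlgCl l)ˣ) ε' (by
        rw [hker]; exact isOpen_ker ε hεc hε)
    exact Units.continuous_val.comp h1
  have htc : Continuous t := by
    refine (hε'c.comp continuous_subtype_val).mul ?_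
    exact (continuous_algebraMap ℚ_[l] (PadicAlgCl l)).comp
      ((continuous_chi l (-H)).comp (continuous_subtype_val.comp continuous_subtype_val))
  have hchi0 : ∀ (g' : Gal(Qb/ℚ)) (a : ℤ), chi l g' a ≠ 0 := fun g' a =>
    zpow_ne_zero _ (toQ_ne_zero _)
  have hcl : (⟨g, ho.mem⟩ : {g' : Δ // ∀ i, (x i)⁻¹ * g' ^ f i * x i ∈ Γ.subgroupOf Δ}) ∈
      closure {g' | HasDatum (finrank ℚ_[p] W)
        (fun i => ((c i g').map (algebraMap ℚ_[l] (PadicAlgCl l))).roots)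
        (fun i => algebraMap ℚ_[l] (PadicAlgCl l) (lam i g')) (t g')} := by
    rw [mem_closure_iff]
    intro O hO hgO
    obtain ⟨O', hO', rfl⟩ := isOpen_induced_iff.1 hO
    have hcomp : CompactSpace Δ :=
      isCompact_iff_compactSpace.1 (Subgroup.isClosed_of_isOpen Δ hΔ).isCompact
    have hS : IsOpen ((Γ.subgroupOf Δ : Subgroup Δ) : Set Δ) := hΓ.preimage continuous_subtype_val
    have hfinΓ : (Γ.subgroupOf Δ).FiniteIndex := by
      have := Subgroup.quotient_finite_of_isOpen (Γ.subgroupOf Δ) hS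
      exact Subgroup.finiteIndex_of_finite_quotient
    have hcore : IsOpen ((Γ.subgroupOf Δ).normalCore : Set Δ) := by
      have hcl : IsClosed ((Γ.subgroupOf Δ : Subgroup Δ) : Set Δ) :=
        Subgroup.isClosed_of_isOpen _ hS
      have hcl' : IsClosed ((Γ.subgroupOf Δ).normalCore : Set Δ) :=
        (Γ.subgroupOf Δ).normalCore_isClosed hcl
      exact Subgroup.isOpen_of_isClosed_of_finiteIndex _ hcl'
    have hU : IsOpen (((fun y : Δ => g * y) ⁻¹' O') ∩ (Γ.subgroupOf Δ).normalCore) :=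
      (hO'.preimage (continuous_const_mul g)).inter hcore
    have hU' : IsOpen (Subtype.val '' (((fun y : Δ => g * y) ⁻¹' O') ∩
        (Γ.subgroupOf Δ).normalCore) : Set Gal(Qb/ℚ)) := hΔ.isOpenMap_subtype_val _ hU
    obtain ⟨N, hN⟩ := ProfiniteGrp.exist_openNormalSubgroup_sub_open_nhds_of_one hU'
      ⟨1, ⟨by rw [Set.mem_preimage, mul_one]; exact hgO, (Γ.subgroupOf Δ).normalCore.one_mem⟩, rfl⟩
    have hNn : N.toSubgroup.Normal := N.isNormal'
    obtain ⟨q, hq1, hq, φ, hφ, m', hm', hφm⟩ := exists_frob_near N.toSubgroup N.isOpen'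
      (g : Gal(Qb/ℚ)) (max b (max l p))
    have hbq : b < q := lt_of_le_of_lt (le_max_left _ _) hq1
    have hlq : l < q := lt_of_le_of_lt ((le_max_left _ _).trans (le_max_right _ _)) hq1
    have hpq : p < q := lt_of_le_of_lt ((le_max_right _ _).trans (le_max_right _ _)) hq1
    obtain ⟨y, ⟨h1, h2⟩, hy⟩ := hN hφm
    have h3 : ((g * y : Δ) : Gal(Qb/ℚ)) = φ ^ m' := by
      rw [Subgroup.coe_mul, hy]
      exact mul_inv_cancel_left _ _
    have hφΔ : φ ^ m' ∈ Δ := by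
      rw [← h3]
      exact (g * y).2
    have h3' : g * y = ⟨φ ^ m', hφΔ⟩ := Subtype.ext h3
    have ho' : IsOrbits (Γ.subgroupOf Δ) ⟨φ ^ m', hφΔ⟩ x f := by
      have h4 := ho.mul_core h2
      rwa [h3'] at h4
    rw [Set.mem_preimage, h3'] at h1
    refine ⟨⟨⟨φ ^ m', hφΔ⟩, ho'.mem⟩, h1, ?_⟩
    exact datum_frob ρ w W hW ε H hel jp jl e he θ hb hbq hpq hlq hq hφ hm' hφΔ ho'
  have key := hasDatum_of_mem_closure (K := ℚ_[l]) (L := PadicAlgCl l) c lam t
    (n := finrank ℚ_[l] (Fin m → ℚ_[l])) (fun i g' => LinearMap.charpoly_monic _)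
    (fun i g' => LinearMap.charpoly_natDegree _) hcc (fun i g' => hchi0 _ _)
    (fun i => (continuous_chi l _).comp (continuous_subtype_val.comp continuous_subtype_val))
    (fun g' => mul_ne_zero (Units.ne_zero _)
      ((map_ne_zero (algebraMap ℚ_[l] (PadicAlgCl l))).2 (hchi0 _ _))) htc hcl
  exact key

end Pool.Agent.H99W
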