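import Mathlib
import Pool.Agent.Lib.CFT.N10
import Pool.Agent.Lib.CFT.LAT
import Pool.Agent.Lib.H99W.Defs

/-!
# Auxiliary definitions
-/

namespace Pool.Agent.H99W

open NumberField Module Polynomial Pool.Agent.GSem Pool.Agent.NF Pool.Agent.H99L

section

variable {p : ℕ} [hp : Fact p.Prime]

/-- The field of algebraic numbers in the algebraic closure of `ℚ_[p]`. -/
noncomputable abbrev Ab (p : ℕ) [Fact p.Prime] := algebraicClosure ℚ (PadicAlgCl p)

/-- `z` is an algebraic number of degree at most `n`, `q ^ m * z` is integral, and all complex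
conjugates of `z` have absolute value `q ^ (- b / 2)`. -/
structure WN (q : ℕ) (b : ℤ) (m n : ℕ) (z : PadicAlgCl p) : Prop where
  deg : ST32.DegLe n z
  int : IsIntegral ℤ ((q : PadicAlgCl p) ^ m * z)
  abs : ∀ (κ : Ab p →+* ℂ) (y : Ab p), (y : PadicAlgCl p) = z → ‖κ y‖ ^ 2 = (q : ℝ) ^ (-b)

/-- All conjugates of the algebraic number `z` in the algebraic closure of `ℚ_[p]` are near `1`. -/
def Nr (ε : ℝ) (z : PadicAlgCl p) : Prop :=
  ∀ (σ : Ab p →+* PadicAlgCl p) (y : Ab p), (y : PadicAlgCl p) = z → ‖σ y - 1‖ ≤ ε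

/-- The units of `ℤ_[p]` in the algebraic closure of `ℚ_[p]`. -/
noncomputable def unitL : ℤ_[p]ˣ →* (PadicAlgCl p)ˣ :=
  Units.map (((algebraMap ℚ_[p] (PadicAlgCl p)).comp
    (PadicInt.Coe.ringHom (p := p)) : ℤ_[p] →+* PadicAlgCl p) : ℤ_[p] →* PadicAlgCl p)

theorem unitL_apply (u : ℤ_[p]ˣ) :
    (unitL u : PadicAlgCl p) = algebraMap ℚ_[p] (PadicAlgCl p) (toQ u) := rfl

/-- The conditions on a `p`-adic character `ψ` of the Galois group of a number field `M` under which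
local algebraicity and purity of weight `0` can be used. -/
structure IsGood (M : IntermediateField ℚ Qb) [NumberField M]
    (ψ : M.fixingSubgroup →* (PadicAlgCl p)ˣ) : Prop where
  cont : Continuous fun g => (ψ g : PadicAlgCl p)
  data : ∃ (b B m : ℕ) (E : IntermediateField ℚ Qb) (_ : NumberField E),
    ∀ q : ℕ, b < q → q.Prime →
    (∀ (s : M.fixingSubgroup) (Q : Ideal (𝓞 Qb)), Q.IsPrime → (q : 𝓞 Qb) ∈ Q →
      (∀ x : 𝓞 Qb, (s : Gal(Qb/ℚ)) • x - x ∈ Q) → ψ s = 1) ∧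
    ∀ v : CFT.Pr M, (q : 𝓞 M) ∈ v.asIdeal → ∀ g : M.fixingSubgroup, H25G.IsFrP M v g →
      IsIntegral ℤ ((CFT.Nm v : PadicAlgCl p) ^ m * ψ g) ∧ ST32.DegLe B (ψ g : PadicAlgCl p) ∧
      (∀ (κ : Ab p →+* ℂ) (y : Ab p), (y : PadicAlgCl p) = ψ g → ‖κ y‖ = 1) ∧
      ((g : Gal(Qb/ℚ)) ∈ E.fixingSubgroup → ∀ (σ : Ab p →+* PadicAlgCl p) (y : Ab p),
        (y : PadicAlgCl p) = ψ g → ∀ (ζ : PadicAlgCl p) (j : ℕ), 0 < j → ζ ^ j = 1 →
          σ y = ζ * y → ζ = 1)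

end

end Pool.Agent.H99W
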