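import Mathlib
import Pool.Agent.Lib.H99W.Defs

/-!
# Open subgroups and real places
-/

namespace Pool.Agent.H99W

open NumberField

/-- Chunk G1 (size S/M). **An open subgroup is the Galois group of a number field.**

PROOF. `M = IntermediateField.fixedField Δ`; `M.fixingSubgroup = Δ` because `Δ` is closed
(`InfiniteGalois.fixingSubgroup_fixedField`, `Subgroup.isClosed_of_isOpen`), and `M` is
finite-dimensional because its fixing subgroup is open (`InfiniteGalois.isOpen_iff_finite`);
`NumberField.of_module_finite` or the constructor. (`Qb / ℚ` is Galois: `qb_gal`, `qb_cl` in `Defs`.) -/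
theorem exists_field (Δ : Subgroup Gal(Qb/ℚ)) (hΔ : IsOpen (Δ : Set Gal(Qb/ℚ))) :
    ∃ (M : IntermediateField ℚ Qb) (_ : NumberField M), M.fixingSubgroup = Δ := by
  have := qb_gal
  have hcl : IsClosed (Δ : Set Gal(Qb/ℚ)) := Subgroup.isClosed_of_isOpen Δ hΔ
  have h1 : (IntermediateField.fixedField Δ).fixingSubgroup = Δ :=
    InfiniteGalois.fixingSubgroup_fixedField (⟨Δ, hcl⟩ : ClosedSubgroup Gal(Qb/ℚ))
  have h2 : IsOpen (IntermediateField.fixedField Δ).fixingSubgroup.carrier := by
    rw [h1]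
    exact hΔ
  have h3 := (InfiniteGalois.isOpen_iff_finite (IntermediateField.fixedField Δ)).1 h2
  exact ⟨IntermediateField.fixedField Δ, NumberField.of_module_finite ℚ _, h1⟩

/-- **A complex conjugation over `M` gives a real place of `M`.**

PROOF. `j` with `j (c x) = conj (j x)`; `φ = j.comp (algebraMap M Qb)`. For `x : M`, `c x = x`, so
`conj (φ x) = φ x`: `ComplexEmbedding.isReal_iff`, `RingHom.ext`,
`ComplexEmbedding.conjugate_coe_eq`. -/
theorem exists_real (M : IntermediateField ℚ Qb) {c : Gal(Qb/ℚ)} (hc : c ∈ M.fixingSubgroup)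
    (hcc : IsCplxConj c) : ∃ φ : M →+* ℂ, ComplexEmbedding.IsReal φ := by
  obtain ⟨j, hj⟩ := hcc
  refine ⟨j.comp (algebraMap M Qb), ?_⟩
  rw [ComplexEmbedding.isReal_iff]
  refine RingHom.ext fun x => ?_
  rw [ComplexEmbedding.conjugate_coe_eq]
  show starRingEnd ℂ (j (x : Qb)) = j (x : Qb)
  rw [← hj]
  congr 1
  exact (IntermediateField.mem_fixingSubgroup_iff M c).1 hc x x.2

end Pool.Agent.H99W
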