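import Mathlib
import Pool.Agent.Lib.H99.PD.Tate2
import Pool.Agent.Lib.H99.NF.Transfer
import Pool.Agent.Lib.H99W.Defs

/-!
# The Hodge–Tate weights of the transfer
-/

namespace Pool.Agent.H99W

open NumberField TensorProduct Module Pool.Agent.GSem Pool.Agent.NF Pool.Agent.PD
  Pool.Agent.H99L

variable {p : ℕ} [hp : Fact p.Prime]

/-- Chunk H1 (size M/L). **The weight of the transfer is the sum of the weights.** `H i` is the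
Hodge–Tate weight of `δ` at the embedding `ι ∘ x i`; the square of the transfer is, up to finite
order, the power `- e` of the cyclotomic character.

PROOF. `Γ₀ = (Γ ⊓ Δ).normalCore` has finite index in `Gal(Qb/ℚ)`. Let `C = ∏ i, c i ≠ 0`. Let
`Compat ι σ g` with `g ∈ Γ₀`; then `g ∈ Δ` and `(x i)⁻¹ * g * x i ∈ Γ` for all `i`
(`conj_mem_of_core`). The family `x`, `f = 1` is `IsOrbits (Γ.subgroupOf Δ) ⟨g, _⟩ x 1` (`pos`, `mem`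
clear; `bij`: `s ↦ g ^ 0 * x s.1` is `x` composed with the bijection `(Σ i : Fin k, Fin 1) ≃ Fin k`,
`hx`), so `Ψ g = ∏ i, δ ⟨(x i)⁻¹ * g * x i, _⟩` (`pow_one`). `compat_conj` (file
`H99/NF/Transfer.lean`) gives `Compat (twistEmb ι (x i)) σ ((x i)⁻¹ * g * x i)`, so `hc` and
`cyc_conj` give, multiplied over `i`,
`galC σ C * toQ (Ψ g) = χ g ^ (-∑ H i) * C` (in `ℂ_[p]`, `algebraMap`). Take the `2 N`-th powers:
`galC σ (C ^ (2N)) * toQ (Ψ g) ^ (2N) = χ g ^ (-2N ∑ H i) * C ^ (2N)`, and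
`toQ (Ψ g) ^ (2N) = χ g ^ (-N e)` by `hrel` (apply `toQ`). So
`galC σ (C ^ (2N)) = χ g ^ (N * (e - 2 ∑ H i)) * C ^ (2N)` for all such `σ`, `g`. If
`e ≠ 2 ∑ H i` this contradicts `exists_ne_twist_sub ι Γ₀ (C ^ (2N))` (file `H99/PD/Tate2.lean`). -/
theorem two_mul_weights {Γ Δ : Subgroup Gal(Qb/ℚ)} [Γ.FiniteIndex] [Δ.FiniteIndex]
    (δ : Γ →* ℤ_[p]ˣ) (Ψ : Δ →* ℤ_[p]ˣ)
    (hΨ : ∀ (g : Δ) (k : ℕ) (x : Fin k → Δ) (f : Fin k → ℕ)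
      (ho : IsOrbits (Γ.subgroupOf Δ) g x f), Ψ g = ∏ i, δ (elt ho i))
    (e : ℤ) (N : ℕ) (hN : 0 < N)
    (hrel : ∀ g : Δ, (Ψ g ^ 2 * cyc p Qb (g : Gal(Qb/ℚ)) ^ e) ^ N = 1)
    (ι : Qb →+* PadicAlgCl p) {k : ℕ} (x : Fin k → Δ)
    (hx : Function.Bijective (fun i => ((x i : Δ) : Δ ⧸ Γ.subgroupOf Δ))) (H : Fin k → ℤ)
    (c : Fin k → ℂ_[p]) (hc0 : ∀ i, c i ≠ 0)
    (hc : ∀ i σ (g : Γ), Compat (twistEmb ι (x i)) σ g →
      galC σ (c i) * algebraMap ℚ_[p] ℂ_[p] (toQ (δ g)) =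
        algebraMap ℚ_[p] ℂ_[p] (toQ (cyc p Qb (g : Gal(Qb/ℚ))) ^ (-H i)) * c i) :
    2 * ∑ i, H i = e := by
  classical
  obtain ⟨Γ₀, hΓ₀⟩ : ∃ Γ₀ : Subgroup Gal(Qb/ℚ), Γ₀ = (Γ ⊓ Δ).normalCore := ⟨_, rfl⟩
  have hfin : Γ₀.FiniteIndex := by
    rw [hΓ₀]
    infer_instance
  have hmemΔ : ∀ g ∈ Γ₀, g ∈ Δ := fun g hg => by
    rw [hΓ₀] at hg
    exact (Subgroup.normalCore_le _ hg).2
  have hmemΓ : ∀ g ∈ Γ₀, ∀ y : Gal(Qb/ℚ), y⁻¹ * g * y ∈ Γ := fun g hg y => by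
    rw [hΓ₀] at hg
    exact (conj_mem_of_core (Γ ⊓ Δ) hg y).1
  have horb : ∀ g (hg : g ∈ Γ₀), IsOrbits (Γ.subgroupOf Δ) (⟨g, hmemΔ g hg⟩ : Δ) x (fun _ => 1) := by
    intro g hg
    refine ⟨fun _ => one_pos, fun i => ?_, ?_⟩
    · rw [pow_one, Subgroup.mem_subgroupOf]
      exact hmemΓ g hg (x i)
    · have h1 : (fun s : (Σ _ : Fin k, Fin 1) =>
          (((⟨g, hmemΔ g hg⟩ : Δ) ^ (s.2 : ℕ) * x s.1 : Δ) : Δ ⧸ Γ.subgroupOf Δ)) =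
          (fun i => ((x i : Δ) : Δ ⧸ Γ.subgroupOf Δ)) ∘ Sigma.fst := by
        funext s
        have h2 : (s.2 : ℕ) = 0 := by omega
        rw [h2, pow_zero, one_mul]
        rfl
      rw [h1]
      refine hx.comp ⟨?_, fun i => ⟨⟨i, 0⟩, rfl⟩⟩
      rintro ⟨i, a⟩ ⟨i', a'⟩ h
      obtain rfl : i = i' := h
      rw [Subsingleton.elim a a']
  obtain ⟨C, hC⟩ : ∃ C : ℂ_[p], C = ∏ i, c i := ⟨_, rfl⟩
  have hC0 : C ≠ 0 := by
    rw [hC]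
    exact Finset.prod_ne_zero_iff.2 fun i _ => hc0 i
  have hkey : ∀ σ g (_ : Compat ι σ g) (hg : g ∈ Γ₀),
      galC σ C * algebraMap ℚ_[p] ℂ_[p] (toQ (Ψ ⟨g, hmemΔ g hg⟩)) =
        algebraMap ℚ_[p] ℂ_[p] (toQ (cyc p Qb g)) ^ (-∑ i, H i) * C := by
    intro σ g hcg hg
    have h1 : ∀ i, galC σ (c i) * algebraMap ℚ_[p] ℂ_[p] (toQ (δ ⟨(x i : Gal(Qb/ℚ))⁻¹ * g * x i,
        hmemΓ g hg _⟩)) = algebraMap ℚ_[p] ℂ_[p] (toQ (cyc p Qb g)) ^ (-H i) * c i := by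
      intro i
      have h2 := hc i σ ⟨(x i : Gal(Qb/ℚ))⁻¹ * g * x i, hmemΓ g hg _⟩ (compat_conj hcg (x i))
      rw [cyc_conj, map_zpow₀] at h2
      exact h2
    have h2 := hΨ _ k x _ (horb g hg)
    have h3 : ∀ i, elt (horb g hg) i = ⟨(x i : Gal(Qb/ℚ))⁻¹ * g * x i, hmemΓ g hg _⟩ := by
      intro i
      apply Subtype.ext
      show ((((x i)⁻¹ * (⟨g, hmemΔ g hg⟩ : Δ) ^ 1 * x i : Δ)) : Gal(Qb/ℚ)) = _
      rw [pow_one]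
      rfl
    rw [Finset.prod_congr rfl fun i _ => congrArg δ (h3 i)] at h2
    rw [h2, map_prod, map_prod, hC, map_prod, ← Finset.prod_mul_distrib,
      Finset.prod_congr rfl fun i _ => h1 i, Finset.prod_mul_distrib]
    congr 1
    rw [← Finset.sum_neg_distrib]
    have hχ : algebraMap ℚ_[p] ℂ_[p] (toQ (cyc p Qb g)) ≠ 0 := by
      rw [Ne, map_eq_zero]
      exact toQ_ne_zero _
    generalize (Finset.univ : Finset (Fin k)) = s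
    induction s using Finset.induction_on with
    | empty => simp
    | insert i s hi ih => rw [Finset.prod_insert hi, Finset.sum_insert hi, zpow_add₀ hχ, ih]
  by_contra hne
  have hm : (N : ℤ) * (e - 2 * ∑ i, H i) ≠ 0 :=
    mul_ne_zero (by exact_mod_cast hN.ne') (sub_ne_zero.2 (Ne.symm hne))
  have hgal := qb_gal
  obtain ⟨σ, g, hcg, hg, hne2⟩ := exists_ne_twist_sub ι Γ₀ (C ^ (2 * N)) (pow_ne_zero _ hC0) _ hm
  apply hne2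
  have hχ : algebraMap ℚ_[p] ℂ_[p] (toQ (cyc p Qb g)) ≠ 0 := by
    rw [Ne, map_eq_zero]
    exact toQ_ne_zero _
  have h1 := hkey σ g hcg hg
  have h2 : algebraMap ℚ_[p] ℂ_[p] (toQ (Ψ ⟨g, hmemΔ g hg⟩)) ^ (2 * N) *
      algebraMap ℚ_[p] ℂ_[p] (toQ (cyc p Qb g)) ^ (e * N) = 1 := by
    have h3 := congrArg (fun u => algebraMap ℚ_[p] ℂ_[p] (toQ u)) (hrel ⟨g, hmemΔ g hg⟩)
    simp only [map_pow, map_mul, map_zpow, map_one, map_zpow₀] at h3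
    rw [mul_pow, ← pow_mul, ← zpow_natCast (_ ^ e), ← zpow_mul] at h3
    exact h3
  have h4 := congrArg (fun z => z ^ (2 * N)) h1
  simp only [mul_pow] at h4
  have h5 : galC σ C ^ (2 * N) = algebraMap ℚ_[p] ℂ_[p] (toQ (cyc p Qb g)) ^ (e * N) *
      ((algebraMap ℚ_[p] ℂ_[p] (toQ (cyc p Qb g)) ^ (-∑ i, H i)) ^ (2 * N) * C ^ (2 * N)) := by
    rw [← h4, mul_left_comm, mul_comm (algebraMap ℚ_[p] ℂ_[p] (toQ (cyc p Qb g)) ^ (e * N)), h2,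
      mul_one]
  rw [map_pow, h5, ← mul_assoc, map_zpow₀, ← zpow_natCast (_ ^ (-∑ i, H i)), ← zpow_mul,
    ← zpow_add₀ hχ]
  congr 2
  push_cast
  ring

end Pool.Agent.H99W
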