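import Mathlib


/-!
# A positive generator of a number field
-/

namespace Pool.Agent.H99W

open NumberField

/-- Chunk R1a (size M). **A generator which is positive at all real embeddings.**

PROOF. `Field.exists_primitive_element ℚ M` gives `α` with `ℚ⟮α⟯ = ⊤`; `exists_integral_multiple`
(or `IsIntegral.exists_multiple_integral_of_isLocalization`, or `IsFractionRing.div_surjective`) gives
`d : ℤ`, `d ≠ 0`, with `d • α` integral over `ℤ`: `b : 𝓞 M`, and `ℚ⟮b⟯ = ⊤`. There are finitely many
`φ : M →+* ℝ` (instance `Fintype (M →+* A)`), so there is `C : ℕ` with `|φ b| < C` for all `φ`;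
choose `C` such that moreover `b + C ≠ 0` (replace `C` by `C + 1` if `b + C = 0`). Put `a = b + C`.
`φ a = φ b + C > 0`. If `τ a = τ' a` then `τ b = τ' b`, so `τ` and `τ'` agree on `ℚ⟮b⟯ = ⊤`: pass to
`ℚ`-algebra homomorphisms (`RingHom.toRatAlgHom`), `IntermediateField.algHom_ext_of_eq_adjoin` or
`IntermediateField.adjoin_le_iff` applied to the subfield `AlgHom.equalizer`/`fieldRange`, or
`Field.primitive_element`-style extensionality. -/
theorem exists_pos_gen (M : Type) [Field M] [NumberField M] (K : Type*) [Field K] [CharZero K] :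
    ∃ a : 𝓞 M, (a : M) ≠ 0 ∧ (∀ φ : M →+* ℝ, 0 < φ a) ∧
      ∀ τ τ' : M →+* K, τ a = τ' a → τ = τ' := by
  classical
  obtain ⟨α, hα⟩ := Field.exists_primitive_element ℚ M
  have hαa : IsAlgebraic ℤ α :=
    (IsFractionRing.isAlgebraic_iff ℤ ℚ M).2 (Algebra.IsAlgebraic.isAlgebraic α)
  obtain ⟨d, hd, hint⟩ := hαa.exists_integral_multiple
  let b : 𝓞 M := ⟨d • α, hint⟩
  have hb : (b : M) = d • α := rfl
  obtain ⟨C, hC⟩ := exists_nat_gt (∑ φ : M →+* ℝ, |φ b|)
  have hφ : ∀ φ : M →+* ℝ, |φ b| < C := fun φ =>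
    (Finset.single_le_sum (f := fun φ : M →+* ℝ => |φ b|) (fun _ _ => abs_nonneg _)
      (Finset.mem_univ φ)).trans_lt hC
  have hgen : ∀ (c : ℕ) (τ τ' : M →+* K), τ ((b : M) + c) = τ' ((b : M) + c) → τ = τ' := by
    intro c τ τ' h
    rw [map_add, map_add, map_natCast, map_natCast, add_left_inj, hb, map_zsmul, map_zsmul,
      zsmul_eq_mul, zsmul_eq_mul] at h
    have h1 : τ α = τ' α := mul_left_cancel₀ (Int.cast_ne_zero.2 hd) h
    have h2 : (⊤ : IntermediateField ℚ M) ≤ (RingHom.eqLocusField τ τ').toIntermediateField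
        (fun r => by
          change τ (algebraMap ℚ M r) = τ' (algebraMap ℚ M r)
          rw [eq_ratCast, map_ratCast, map_ratCast]) := by
      rw [← hα, IntermediateField.adjoin_simple_le_iff]
      exact h1
    ext x
    exact h2 (IntermediateField.mem_top (x := x))
  have hpos : ∀ c : ℕ, C ≤ c → ∀ φ : M →+* ℝ, 0 < φ ((b : M) + c) := by
    intro c hc φ
    rw [map_add, map_natCast]
    have h1 := abs_lt.1 (hφ φ)
    have h2 : (C : ℝ) ≤ c := by exact_mod_cast hc
    linarith [h1.1]
  by_cases h0 : (b : M) + C = 0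
  · refine ⟨b + ((C + 1 : ℕ) : 𝓞 M), ?_, ?_, ?_⟩
    · push_cast
      rw [← add_assoc, h0, zero_add]
      exact one_ne_zero
    · intro φ
      have h1 := hpos (C + 1) (by omega) φ
      push_cast at h1 ⊢
      exact h1
    · intro τ τ' h
      refine hgen (C + 1) τ τ' ?_
      push_cast at h ⊢
      exact h
  · refine ⟨b + ((C : ℕ) : 𝓞 M), ?_, ?_, ?_⟩
    · push_cast
      exact h0
    · intro φ
      have h1 := hpos C le_rfl φ
      push_cast at h1 ⊢
      exact h1
    · intro τ τ' h
      refine hgen C τ τ' ?_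
      push_cast at h ⊢
      exact h

end Pool.Agent.H99W
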