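import Mathlib


/-!
# Multiplicative independence of linear polynomials
-/

namespace Pool.Agent.H99W

open Polynomial

/-- Chunk R1b (size M). **Independence of linear factors.**

PROOF. Suppose `m i₀ ≠ 0`; replacing `m` by `-m` (all products are inverted:
`Finset.prod_inv_distrib`, `zpow_neg`) we may assume `0 < m i₀`. Put
`A = ∏ i, (1 + X * C (β i)) ^ (m i).toNat` and `B = ∏ i, (1 + X * C (β i)) ^ (-(m i)).toNat` in
`K[X]`. For `s : ℕ`, `A.eval s = B.eval s`: `u ^ m i = u ^ (m i).toNat / u ^ (-(m i)).toNat` for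
`u ≠ 0` (`hne`), so the product of the quotients is `1` (`h`). Two polynomials over a field of
characteristic zero which agree at all natural numbers are equal
(`Polynomial.eq_of_infinite_eval_eq`, `Set.infinite_range_of_injective Nat.cast_injective`). Evaluate
at `x = -(β i₀)⁻¹`: the factor `1 + x * β i₀` is `0` and `(m i₀).toNat ≠ 0`, so `A.eval x = 0`; in
`B` the factor at `i` is nonzero if `i ≠ i₀` (`1 + x * β i = 0` gives `β i = β i₀`, contradiction to
`hβ`), and for `i = i₀` the exponent is `0`, so `B.eval x ≠ 0` (`Finset.prod_ne_zero_iff`).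
Contradiction. -/
theorem mult_indep {ι K : Type*} [Fintype ι] [Field K] [CharZero K] (β : ι → K)
    (hβ : Function.Injective β) (hβ0 : ∀ i, β i ≠ 0) (m : ι → ℤ)
    (hne : ∀ (s : ℕ) (i : ι), 1 + (s : K) * β i ≠ 0)
    (h : ∀ s : ℕ, ∏ i, (1 + (s : K) * β i) ^ m i = 1) : ∀ i, m i = 0 := by
  have key : ∀ (m : ι → ℤ), (∀ s : ℕ, ∏ i, (1 + (s : K) * β i) ^ m i = 1) → ∀ i₀, ¬ 0 < m i₀ := by
    intro m h i₀ hpos
    obtain ⟨A, hA⟩ : ∃ A : K[X], A = ∏ i, (1 + X * C (β i)) ^ (m i).toNat := ⟨_, rfl⟩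
    obtain ⟨B, hB⟩ : ∃ B : K[X], B = ∏ i, (1 + X * C (β i)) ^ (-(m i)).toNat := ⟨_, rfl⟩
    have hAe : ∀ x : K, A.eval x = ∏ i, (1 + x * β i) ^ (m i).toNat := by
      intro x
      rw [hA, eval_prod]
      refine Finset.prod_congr rfl fun i _ => ?_
      rw [eval_pow, eval_add, eval_one, eval_mul, eval_X, eval_C]
    have hBe : ∀ x : K, B.eval x = ∏ i, (1 + x * β i) ^ (-(m i)).toNat := by
      intro x
      rw [hB, eval_prod]
      refine Finset.prod_congr rfl fun i _ => ?_
      rw [eval_pow, eval_add, eval_one, eval_mul, eval_X, eval_C]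
    have hAB : A = B := by
      refine eq_of_infinite_eval_eq A B ((Set.infinite_range_of_injective
        (Nat.cast_injective (R := K))).mono ?_)
      rintro _ ⟨s, rfl⟩
      show A.eval (s : K) = B.eval (s : K)
      rw [hAe, hBe]
      have h1 : ∀ i, (1 + (s : K) * β i) ^ m i =
          (1 + (s : K) * β i) ^ (m i).toNat / (1 + (s : K) * β i) ^ (-(m i)).toNat := by
        intro i
        rw [← zpow_natCast, ← zpow_natCast, ← zpow_sub₀ (hne s i)]
        congr 1
        omega
      have h2 := h s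
      rw [Finset.prod_congr rfl fun i _ => h1 i, Finset.prod_div_distrib] at h2
      refine (div_eq_one_iff_eq (Finset.prod_ne_zero_iff.2 fun i _ => ?_)).1 h2
      exact pow_ne_zero _ (hne s i)
    have h3 : A.eval (-(β i₀)⁻¹) = 0 := by
      rw [hAe]
      refine Finset.prod_eq_zero (Finset.mem_univ i₀) ?_
      rw [neg_mul, inv_mul_cancel₀ (hβ0 i₀), add_neg_cancel]
      exact zero_pow (by omega)
    have h4 : B.eval (-(β i₀)⁻¹) ≠ 0 := by
      rw [hBe]
      refine Finset.prod_ne_zero_iff.2 fun i _ => ?_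
      by_cases hi : i = i₀
      · rw [hi]
        have h5 : (-(m i₀)).toNat = 0 := by omega
        rw [h5, pow_zero]
        exact one_ne_zero
      · refine pow_ne_zero _ fun h5 => hi (hβ ?_)
        have h6 : (β i₀)⁻¹ * β i = 1 := by linear_combination -h5
        have h7 : β i₀ * ((β i₀)⁻¹ * β i) = β i₀ * 1 := by rw [h6]
        rwa [← mul_assoc, mul_inv_cancel₀ (hβ0 i₀), one_mul, mul_one] at h7
    exact h4 (hAB ▸ h3)
  intro i
  have h1 := key m h i
  have h2 := key (fun i => -(m i)) (fun s => by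
    have h3 := h s
    have h4 : ∏ i, (1 + (s : K) * β i) ^ (-(m i)) = (∏ i, (1 + (s : K) * β i) ^ m i)⁻¹ := by
      rw [← Finset.prod_inv_distrib]
      exact Finset.prod_congr rfl fun i _ => zpow_neg _ _
    rw [h4, h3, inv_one]) i
  omega

end Pool.Agent.H99W
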