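import Mathlib
import Pool.Agent.Lib.CFT.D0
import Pool.Agent.Lib.H99W.R1a
import Pool.Agent.Lib.H99W.R1b

/-!
# Independence of the embeddings on a ray
-/

namespace Pool.Agent.H99W

open NumberField IsDedekindDomain

/-- Chunk R1c (size M). **Embeddings are multiplicatively independent on a ray.**

PROOF. Let `a` be from `exists_pos_gen M K` (R1a). Put `t = 2 * ∏ v ∈ T, (Ideal.absNorm v.asIdeal) ^ (N + 1)`,
a natural number, and `x s = 1 + s * t * a ∈ M` for `s : ℕ`. Claim: `x s` is in the ray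
`CFT.Ray T N` (file `CFT/D0.lean`; fields `ne`, `cong`, `pos`).
`pos`: `φ (x s) = 1 + s * t * φ a > 0`. `cong`: for `v ∈ T`, `v.valuation M (x s - 1)` is
`v.valuation M ((s * t * a : 𝓞 M))`; `t ∈ v.asIdeal ^ (N + 1)` because
`(absNorm v.asIdeal : 𝓞 M) ∈ v.asIdeal` (`Ideal.absNorm_mem`) and the product has a factor which is
its `(N + 1)`-st power; so the valuation is at most `exp (-(N + 1))`
(`HeightOneSpectrum.valuation_le_pow_iff_mem` / `intValuation_le_pow_iff_mem`,
`HeightOneSpectrum.valuation_of_algebraMap`), `< exp (-N)`. `ne`: if `x s = 0` then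
`-1 = 2 * (s * (∏ ..) * a)` in `𝓞 M`, so `2` is a unit of `𝓞 M`, impossible (the absolute norm of the
ideal generated by `2` is `2 ^ finrank`, or: `1 / 2 ∈ ℚ` would be integral over `ℤ`, see the lemma
`one_ne..`/`Rat` integrality `IsIntegrallyClosed`; or `(2 : ℤ)` is not a unit:
`isUnit_of_map_unit` for the local homomorphism `ℤ → 𝓞 M`, integral extension).
Now apply `mult_indep` (R1b) with `ι = (M →+* K)`, `β τ = t * τ a`: injective by R1a and `t ≠ 0`,
nonzero, `1 + s * β τ = τ (x s) ≠ 0`, and the product is `1` by `h (x s)`. -/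
theorem ray_indep (M : Type) [Field M] [NumberField M] (T : Finset (CFT.Pr M)) (N : ℕ)
    (K : Type*) [Field K] [CharZero K] (m : (M →+* K) → ℤ)
    (h : ∀ x : M, CFT.Ray T N x → ∏ τ : M →+* K, τ x ^ m τ = 1) : ∀ τ, m τ = 0 := by
  classical
  obtain ⟨a, ha0, hapos, hainj⟩ := exists_pos_gen M K
  obtain ⟨t₀, ht₀⟩ : ∃ t₀ : ℕ, t₀ = ∏ v ∈ T, (Ideal.absNorm v.asIdeal) ^ (N + 1) := ⟨_, rfl⟩
  have ht0 : t₀ ≠ 0 := by
    rw [ht₀, Finset.prod_ne_zero_iff]
    intro v _
    exact pow_ne_zero _ (Ideal.absNorm_eq_zero_iff.not.2 v.ne_bot)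
  have htmem : ∀ v ∈ T, (t₀ : 𝓞 M) ∈ v.asIdeal ^ (N + 1) := by
    intro v hv
    rw [ht₀, ← Finset.mul_prod_erase T _ hv, Nat.cast_mul, Nat.cast_pow]
    exact Ideal.mul_mem_right _ _ (Ideal.pow_mem_pow (Ideal.absNorm_mem _) _)
  have hray : ∀ s : ℕ, CFT.Ray T N (1 + (s : M) * ((2 * t₀ : ℕ) : M) * (a : M)) := by
    intro s
    refine ⟨?_, fun v hv => ?_, fun φ => ?_⟩
    · intro h0
      have h1 : algebraMap ℚ M (1 / 2) = ((-((s : 𝓞 M) * (t₀ : 𝓞 M) * a) : 𝓞 M) : M) := by
        have hq : algebraMap ℚ M (1 / 2) = 1 / 2 := by rw [map_div₀, map_one, map_ofNat]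
        rw [hq]
        push_cast at h0 ⊢
        linear_combination (1 / 2 : M) * h0
      have h2 : IsIntegral ℤ (algebraMap ℚ M (1 / 2)) := by
        rw [h1]
        exact RingOfIntegers.isIntegral_coe _
      have h3 : IsIntegral ℤ (1 / 2 : ℚ) :=
        (isIntegral_algebraMap_iff (algebraMap ℚ M).injective).1 h2
      obtain ⟨k, hk⟩ := IsIntegrallyClosed.isIntegral_iff.1 h3
      have h4 : ((2 * k : ℤ) : ℚ) = ((1 : ℤ) : ℚ) := by
        have h5 : (k : ℚ) = 1 / 2 := by
          rw [← hk]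
          simp
        push_cast
        rw [h5]
        norm_num
      have h6 : 2 * k = 1 := by exact_mod_cast h4
      omega
    · have h1 : (1 + (s : M) * ((2 * t₀ : ℕ) : M) * (a : M)) - 1 =
          algebraMap (𝓞 M) M ((s : 𝓞 M) * 2 * a * (t₀ : 𝓞 M)) := by
        rw [map_mul, map_mul, map_mul, map_natCast, map_natCast, map_ofNat]
        push_cast
        ring
      rw [h1, HeightOneSpectrum.valuation_of_algebraMap]
      have h2 : (s : 𝓞 M) * 2 * a * (t₀ : 𝓞 M) ∈ v.asIdeal ^ (N + 1) :=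
        Ideal.mul_mem_left _ _ (htmem v hv)
      refine ((HeightOneSpectrum.intValuation_le_pow_iff_mem v _ _).2 h2).trans_lt ?_
      rw [WithZero.exp_lt_exp]
      push_cast
      omega
    · rw [map_add, map_one, map_mul, map_mul, map_natCast, map_natCast]
      have h1 := hapos φ
      positivity
  refine mult_indep (fun τ : M →+* K => ((2 * t₀ : ℕ) : K) * τ a) ?_ ?_ m ?_ ?_
  · intro τ τ' h1
    refine hainj τ τ' (mul_left_cancel₀ (Nat.cast_ne_zero.2 (by omega)) h1)
  · intro τ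
    refine mul_ne_zero (Nat.cast_ne_zero.2 (by omega)) ?_
    rw [map_ne_zero]
    exact ha0
  · intro s τ h1
    have h2 : τ (1 + (s : M) * ((2 * t₀ : ℕ) : M) * (a : M)) = 0 := by
      rw [map_add, map_one, map_mul, map_mul, map_natCast, map_natCast, ← h1]
      ring
    exact (hray s).ne ((map_eq_zero τ).1 h2)
  · intro s
    refine Eq.trans (Finset.prod_congr rfl fun τ _ => ?_) (h _ (hray s))
    rw [map_add, map_one, map_mul, map_mul, map_natCast, map_natCast, mul_assoc]

end Pool.Agent.H99W
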