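import Mathlib
import Pool.Agent.Lib.H99W.R1c

/-!
# Weight zero: real embeddings
-/

namespace Pool.Agent.H99W

open NumberField

/-- Chunk R2a (size M). **Weight zero at a real embedding.**

PROOF. Let `e φ = ComplexEmbedding.conjugate φ`, an involution of `M →+* ℂ`
(`ComplexEmbedding.involutive_conjugate`). For `x` in the ray, `x ≠ 0`. Squaring `h x`:
`∏ φ, (‖φ x‖ ^ 2) ^ n φ = 1` in `ℝ`, and in `ℂ`, `(‖φ x‖ ^ 2 : ℂ) = φ x * e φ x`
(`Complex.mul_conj`, `Complex.normSq_eq_norm_sq`). So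
`1 = (∏ φ, (φ x) ^ n φ) * ∏ φ, (e φ x) ^ n φ`, and by the substitution `φ ↦ e φ`
(`Equiv.prod_comp`, `Function.Involutive.toPerm`) the second product is `∏ φ, (φ x) ^ n (e φ)`:
`∏ φ, (φ x) ^ (n φ + n (e φ)) = 1` (`zpow_add₀`). `ray_indep` (R1c, `K = ℂ`) gives
`n φ + n (e φ) = 0`; for the real `φ` of the statement `e φ = φ`
(`ComplexEmbedding.isReal_iff`), so `n φ = 0`. -/
theorem real_zero (M : Type) [Field M] [NumberField M] (T : Finset (CFT.Pr M)) (N : ℕ)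
    (n : (M →+* ℂ) → ℤ)
    (h : ∀ x : M, CFT.Ray T N x → ∏ φ : M →+* ℂ, ‖φ x‖ ^ n φ = 1)
    (φ : M →+* ℂ) (hφ : ComplexEmbedding.IsReal φ) : n φ = 0 := by
  classical
  have hinv : Function.Involutive (ComplexEmbedding.conjugate : (M →+* ℂ) → (M →+* ℂ)) :=
    ComplexEmbedding.involutive_conjugate M
  let e : (M →+* ℂ) ≃ (M →+* ℂ) := hinv.toPerm
  have hee : ∀ φ, e (e φ) = φ := hinv
  have key : ∀ x : M, CFT.Ray T N x → ∏ φ : M →+* ℂ, φ x ^ (n φ + n (e φ)) = 1 := by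
    intro x hx
    have h0 : ∀ φ : M →+* ℂ, φ x ≠ 0 := fun φ => (map_ne_zero φ).2 hx.ne
    have h1 : ∏ φ : M →+* ℂ, (φ x * e φ x) ^ n φ = 1 := by
      have h2 : ∀ φ : M →+* ℂ, (φ x * e φ x) ^ n φ = (((‖φ x‖ ^ n φ : ℝ)) : ℂ) ^ 2 := by
        intro φ
        have h3 : φ x * e φ x = ((‖φ x‖ : ℝ) : ℂ) ^ 2 := by
          have h4 : e φ x = (starRingEnd ℂ) (φ x) := ComplexEmbedding.conjugate_coe_eq φ x
          rw [h4, Complex.mul_conj']
        rw [h3, Complex.ofReal_zpow, ← zpow_natCast, ← zpow_natCast, ← zpow_mul, ← zpow_mul,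
          mul_comm]
      rw [Finset.prod_congr rfl fun φ _ => h2 φ, Finset.prod_pow, ← Complex.ofReal_prod, h x hx,
        Complex.ofReal_one, one_pow]
    have h2 : ∏ φ : M →+* ℂ, (e φ x) ^ n φ = ∏ φ : M →+* ℂ, φ x ^ n (e φ) := by
      rw [← Equiv.prod_comp e (fun φ => φ x ^ n (e φ))]
      exact Finset.prod_congr rfl fun φ _ => by rw [hee]
    rw [← h1, Finset.prod_congr rfl fun φ _ => zpow_add₀ (h0 φ) (n φ) (n (e φ)),
      Finset.prod_mul_distrib, ← h2, ← Finset.prod_mul_distrib]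
    exact Finset.prod_congr rfl fun φ _ => (mul_zpow _ _ _).symm
  have h1 := ray_indep M T N ℂ (fun φ => n φ + n (e φ)) key φ
  have h2 : e φ = φ := ComplexEmbedding.isReal_iff.1 hφ
  rw [h2] at h1
  omega

end Pool.Agent.H99W
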