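import Mathlib


/-!
# Extension of embeddings
-/

namespace Pool.Agent.H99W

open NumberField

/-- Chunk R2b (size M). **Every pair of embeddings of a number field extends.**

PROOF. Let `A = algebraicClosure ℚ Ω₁`. Every `τ x` is algebraic over `ℚ` (`M` is a number field), so
`τ` has values in `A`: let `τ' : M →+* A` be the restriction (`RingHom.codRestrict`). Make `A` an
`M`-algebra through `τ'` (`τ'.toAlgebra`) and `ℂ` an `M`-algebra through `φ` (`φ.toAlgebra`). `A` is
algebraic over `ℚ` (`algebraicClosure.isAlgebraic`), hence over `M` (tower `ℚ → M → A`: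
`Algebra.IsAlgebraic.tower_top`; the scalar tower holds because `ℚ`-algebra structures are unique,
`IsScalarTower.of_algebraMap_eq'` with `Subsingleton.elim`). `IsAlgClosed.lift : A →ₐ[M] ℂ` is `κ`;
`κ (τ' x) = φ x` by `AlgHom.commutes`. -/
theorem exists_kappa (M : Type) [Field M] [NumberField M] {Ω₁ : Type*} [Field Ω₁] [CharZero Ω₁]
    (τ : M →+* Ω₁) (φ : M →+* ℂ) : ∃ κ : (algebraicClosure ℚ Ω₁) →+* ℂ,
      ∀ (x : M) (y : algebraicClosure ℚ Ω₁), (y : Ω₁) = τ x → κ y = φ x := by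
  have hmem : ∀ x : M, τ x ∈ algebraicClosure ℚ Ω₁ := by
    intro x
    rw [mem_algebraicClosure_iff]
    exact ((Algebra.IsAlgebraic.isAlgebraic (R := ℚ) x).isIntegral.map τ.toRatAlgHom).isAlgebraic
  let τ' : M →+* algebraicClosure ℚ Ω₁ := τ.codRestrict (algebraicClosure ℚ Ω₁) hmem
  let _ : Algebra M (algebraicClosure ℚ Ω₁) := τ'.toAlgebra
  let _ : Algebra M ℂ := φ.toAlgebra
  have : IsScalarTower ℚ M (algebraicClosure ℚ Ω₁) :=
    IsScalarTower.of_algebraMap_eq' (Subsingleton.elim _ _)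
  have : Algebra.IsAlgebraic ℚ (algebraicClosure ℚ Ω₁) := algebraicClosure.isAlgebraic ℚ Ω₁
  have : Algebra.IsAlgebraic M (algebraicClosure ℚ Ω₁) :=
    Algebra.IsAlgebraic.tower_top (K := ℚ) M
  let κ : algebraicClosure ℚ Ω₁ →ₐ[M] ℂ := IsAlgClosed.lift
  refine ⟨κ, fun x y hy => ?_⟩
  have h1 : y = algebraMap M (algebraicClosure ℚ Ω₁) x := Subtype.ext hy
  rw [h1]
  exact κ.commutes x

end Pool.Agent.H99W
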