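import Mathlib
import Pool.Agent.Lib.H99W.R2a
import Pool.Agent.Lib.H99W.R2b

/-!
# Weight zero: all exponents vanish
-/

namespace Pool.Agent.H99W

open NumberField

/-- Chunk R2 (size M). **A character of weight zero of a field with a real place is trivial on a
ray.**

PROOF. Let `φ` be the real embedding and `τ₀ : M →+* Ω₁`. `exists_kappa` (R2b) gives `κ` with
`κ (τ₀ x) = φ x`. For `τ : M →+* Ω₁` let `E τ : M →+* ℂ` be `x ↦ κ (τ x)` (the values `τ x` are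
algebraic: `RingHom.codRestrict` to `algebraicClosure ℚ Ω₁`, then `κ`). `E` is injective (`κ` is
injective) and both finite sets have `finrank ℚ M` elements (`NumberField.Embeddings.card`), so `E` is
bijective (`Fintype.bijective_iff_injective_and_card`); `E τ₀ = φ`. Let `n' : (M →+* ℂ) → ℤ` be
`n ∘ E⁻¹` (`Equiv.ofBijective`). For `x` in the ray let `y` be the element `∏ τ, (τ x) ^ n τ` of
`algebraicClosure ℚ Ω₁`; `κ y = ∏ τ, (E τ x) ^ n τ`, so
`1 = ‖κ y‖ = ∏ τ, ‖E τ x‖ ^ n τ = ∏ φ', ‖φ' x‖ ^ n' φ'` (`norm_prod`, `norm_zpow`,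
`Equiv.prod_comp`). `real_zero` (R2a) gives `0 = n' φ = n τ₀`. -/
theorem exps_zero (M : Type) [Field M] [NumberField M] {Ω₁ : Type*} [Field Ω₁] [CharZero Ω₁]
    [IsAlgClosed Ω₁] (T : Finset (CFT.Pr M)) (N : ℕ) (n : (M →+* Ω₁) → ℤ)
    (hreal : ∃ φ : M →+* ℂ, ComplexEmbedding.IsReal φ)
    (h : ∀ x : M, CFT.Ray T N x → ∀ (κ : (algebraicClosure ℚ Ω₁) →+* ℂ)
      (y : algebraicClosure ℚ Ω₁), (y : Ω₁) = ∏ τ : M →+* Ω₁, τ x ^ n τ → ‖κ y‖ = 1) :
    ∀ τ, n τ = 0 := by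
  classical
  obtain ⟨φ, hφ⟩ := hreal
  intro τ₀
  obtain ⟨κ, hκ⟩ := exists_kappa M τ₀ φ
  have hmem : ∀ (τ : M →+* Ω₁) (x : M), τ x ∈ algebraicClosure ℚ Ω₁ := by
    intro τ x
    rw [mem_algebraicClosure_iff]
    exact ((Algebra.IsAlgebraic.isAlgebraic (R := ℚ) x).isIntegral.map τ.toRatAlgHom).isAlgebraic
  let E : (M →+* Ω₁) → (M →+* ℂ) := fun τ =>
    κ.comp (τ.codRestrict (algebraicClosure ℚ Ω₁) (hmem τ))
  have hE : ∀ τ x, E τ x = κ ⟨τ x, hmem τ x⟩ := fun _ _ => rfl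
  have hEinj : Function.Injective E := by
    intro τ τ' h
    ext x
    have h1 : E τ x = E τ' x := by rw [h]
    rw [hE, hE] at h1
    exact congrArg Subtype.val (κ.injective h1)
  have hEbij : Function.Bijective E :=
    (Fintype.bijective_iff_injective_and_card E).2 ⟨hEinj, by rw [Embeddings.card, Embeddings.card]⟩
  have hE0 : E τ₀ = φ := by
    ext x
    exact hκ x _ rfl
  let eq : (M →+* Ω₁) ≃ (M →+* ℂ) := Equiv.ofBijective E hEbij
  have heq : ∀ τ, eq τ = E τ := fun _ => rfl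
  have h0 := real_zero M T N (fun φ' => n (eq.symm φ')) (fun x hx => by
    have h1 := h x hx κ (∏ τ : M →+* Ω₁, (⟨τ x, hmem τ x⟩ : algebraicClosure ℚ Ω₁) ^ n τ) (by
      push_cast
      rfl)
    rw [map_prod, norm_prod] at h1
    rw [← h1, ← Equiv.prod_comp eq]
    refine Finset.prod_congr rfl fun τ _ => ?_
    rw [eq.symm_apply_apply, heq, hE, map_zpow₀, norm_zpow]) φ hφ
  have h1 : eq.symm φ = τ₀ := by
    rw [Equiv.symm_apply_eq, heq, hE0]
  simp only [h1] at h0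
  exact h0

end Pool.Agent.H99W
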