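import Mathlib
import Pool.Agent.Lib.CFT.D0

/-!
# The complex absolute values of a character of the divisors
-/

namespace Pool.Agent.H99W

open NumberField

/-- Chunk R3 (size M). **Absolute values of the values at divisors.**

PROOF. Let `A = algebraicClosure ℚ Ω₁` and let `y v : A` be the element with
`(y v : Ω₁) = (D (single v 1)).toMul` (`hint`, `mem_algebraicClosure_iff`). `D E = ∑ v ∈ E.support,
E v • D (single v 1)` (`Finsupp.sum_single`, `map_sum`/`map_finsuppSum`, `map_zsmul`), so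
`((D E).toMul : Ω₁) = ∏ v ∈ E.support, ((y v : A) : Ω₁) ^ E v` (`toMul_sum`, `toMul_zsmul`,
`Units.val_prod`/`Units.coe_prod`, `Units.val_zpow_eq_zpow_val`), hence `y = ∏ v ∈ E.support, y v ^ E v`
(the inclusion of `A` is injective) and `‖κ y‖ = ∏ v, ‖κ (y v)‖ ^ E v = 1` (`hκ`, `one_zpow`). -/
theorem norm_divisor {M : Type} [Field M] [NumberField M] {Ω₁ : Type*} [Field Ω₁] [CharZero Ω₁]
    (D : CFT.Dv M →+ Additive Ω₁ˣ)
    (hint : ∀ v, IsIntegral ℚ ((D (Finsupp.single v 1)).toMul : Ω₁))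
    (κ : (algebraicClosure ℚ Ω₁) →+* ℂ)
    (hκ : ∀ (v : CFT.Pr M) (y : algebraicClosure ℚ Ω₁),
      (y : Ω₁) = ((D (Finsupp.single v 1)).toMul : Ω₁) → ‖κ y‖ = 1)
    (E : CFT.Dv M) (y : algebraicClosure ℚ Ω₁) (hy : (y : Ω₁) = ((D E).toMul : Ω₁)) :
    ‖κ y‖ = 1 := by
  classical
  have hmem : ∀ v, ((D (Finsupp.single v 1)).toMul : Ω₁) ∈ algebraicClosure ℚ Ω₁ := fun v =>
    mem_algebraicClosure_iff.2 (hint v).isAlgebraic
  obtain ⟨yv, hyv⟩ : ∃ yv : CFT.Pr M → algebraicClosure ℚ Ω₁,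
      ∀ v, (yv v : Ω₁) = ((D (Finsupp.single v 1)).toMul : Ω₁) := ⟨fun v => ⟨_, hmem v⟩, fun _ => rfl⟩
  have hD : ((D E).toMul : Ω₁) = ∏ v ∈ E.support, (yv v : Ω₁) ^ E v := by
    have h1 : E = ∑ v ∈ E.support, E v • Finsupp.single v (1 : ℤ) := by
      conv_lhs => rw [← Finsupp.sum_single E]
      refine Finset.sum_congr rfl fun v _ => ?_
      rw [Finsupp.smul_single, smul_eq_mul, mul_one]
    have h2 : D E = ∑ v ∈ E.support, E v • D (Finsupp.single v (1 : ℤ)) := by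
      conv_lhs => rw [h1, map_sum]
      exact Finset.sum_congr rfl fun v _ => map_zsmul _ _ _
    rw [h2, toMul_sum, Units.coe_prod]
    refine Finset.prod_congr rfl fun v _ => ?_
    rw [toMul_zsmul, Units.val_zpow_eq_zpow_val, hyv]
  have hy2 : y = ∏ v ∈ E.support, yv v ^ E v := by
    apply Subtype.ext
    rw [hy, hD]
    push_cast
    rfl
  rw [hy2, map_prod, norm_prod]
  refine Finset.prod_eq_one fun v _ => ?_
  rw [map_zpow₀, norm_zpow, hκ v (yv v) (hyv v), one_zpow]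

end Pool.Agent.H99W
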