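import Mathlib
import Pool.Agent.Lib.CFT.N11
import Pool.Agent.Lib.H99W.Defs2

/-!
# The character of the divisors attached to a Galois character
-/

namespace Pool.Agent.H99W

open NumberField IsDedekindDomain Pool.Agent.GSem H25G ST32

variable {p : ℕ} [hp : Fact p.Prime]

/-- Chunk R4 (size S/M). **The data of `ST32.GD` exist for every character which is unramified at
almost all primes.**

PROOF. Copy of the proof of `ST32.exists_GD` (file `CFT/N12.lean`), with `S1` and `hin` given instead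
of `gb7` and with `S' = insert p S1`; the last clause is `Set.Finite.mem_toFinset`. -/
theorem exists_GD (M : IntermediateField ℚ Qb) [NumberField M]
    (ψ : M.fixingSubgroup →* (PadicAlgCl p)ˣ) (S1 : Finset ℕ)
    (hin : ∀ q : ℕ, q.Prime → q ∉ S1 → ∀ Q : Ideal (𝓞 Qb), Q.IsPrime → (q : 𝓞 Qb) ∈ Q →
      ∀ s : M.fixingSubgroup, (∀ x : 𝓞 Qb, (s : Gal(Qb/ℚ)) • x - x ∈ Q) → ψ s = 1) :
    ∃ (S' : Finset ℕ) (T : Finset (CFT.Pr M)) (Fr : CFT.Pr M → M.fixingSubgroup)
      (D : CFT.Dv M →+ Additive (PadicAlgCl p)ˣ), S1 ⊆ S' ∧ p ∈ S' ∧ ST32.GD M ψ S' T Fr D ∧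
        ∀ v, v ∈ T ↔ ∃ q ∈ S', q.Prime ∧ (q : 𝓞 M) ∈ v.asIdeal := by
  classical
  have hgal := om_galM M
  have hFr : ∀ v : CFT.Pr M, ∃ h : M.fixingSubgroup, IsFrP M v h := by
    intro v
    obtain ⟨g, hg⟩ := exists_frv (Om := H25G.Om) v
    refine ⟨(eM M).symm g, ?_⟩
    rw [← isFrv_iff, MulEquiv.apply_symm_apply]
    exact hg
  choose Fr hFr using hFr
  let S' : Finset ℕ := insert p S1
  let T : Finset (CFT.Pr M) := (over_fin M S').toFinset
  have hT : ∀ v, v ∈ T ↔ ∃ p ∈ S', p.Prime ∧ (p : 𝓞 M) ∈ v.asIdeal :=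
    fun v => Set.Finite.mem_toFinset _
  let D : CFT.Dv M →+ Additive (PadicAlgCl p)ˣ :=
    Finsupp.liftAddHom fun v => zmultiplesHom (Additive (PadicAlgCl p)ˣ)
      (if v ∈ T then 0 else Additive.ofMul (ψ (Fr v)))
  have hD : ∀ v, D (Finsupp.single v 1) = if v ∈ T then 0 else Additive.ofMul (ψ (Fr v)) := by
    intro v
    change Finsupp.liftAddHom _ (Finsupp.single v 1) = _
    rw [Finsupp.liftAddHom_apply_single, zmultiplesHom_apply, one_smul]
  refine ⟨S', T, Fr, D, Finset.subset_insert _ _, Finset.mem_insert_self _ _,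
    ⟨?_, ?_, hFr, ?_, ?_⟩, hT⟩
  · intro q hq hqS
    exact hin q hq fun hc => hqS (Finset.mem_insert_of_mem hc)
  · intro v q hq hqv hqS
    exact (hT v).2 ⟨q, hqS, hq, hqv⟩
  · intro v hv
    rw [hD, if_neg hv]
  · intro v hv
    rw [hD, if_pos hv]

end Pool.Agent.H99W
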