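import Mathlib
import Pool.Agent.Lib.CFT.N11
import Pool.Agent.Lib.H99W.Defs2

/-!
# Levels
-/

namespace Pool.Agent.H99W

open NumberField IsDedekindDomain Pool.Agent.GSem H25G ST32

variable {p : ℕ} [hp : Fact p.Prime] {M : IntermediateField ℚ Qb} [NumberField M]
  {ψ : M.fixingSubgroup →* (PadicAlgCl p)ˣ} {S' : Finset ℕ} {T : Finset (CFT.Pr M)}
  {Fr : CFT.Pr M → M.fixingSubgroup} {D : CFT.Dv M →+ Additive (PadicAlgCl p)ˣ}

/-- Chunk R5 (size S/M). **Artin reciprocity for the character `ψ` at all levels.**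

PROOF. Copy of `ST32.GD.lev` (file `CFT/N11.lean`): there the hypotheses on `ρ` are used only for the
continuity of `ψ`, which is given here (continuity of `psiM ψ`: as in `ST32.psiM_cont`, compose with
`eM_symm_cont M`). -/
theorem GD_lev (hc : Continuous fun g => (ψ g : PadicAlgCl p)) (h : ST32.GD M ψ S' T Fr D) (ε : ℝ)
    (hε : 0 < ε) :
    ∃ N : ℕ, ∀ x : M, CFT.Ray T N x → ‖((D (CFT.dv x)).toMul : PadicAlgCl p) - 1‖ ≤ ε := by
  have := om_galM M
  exact levels (psiM ψ) (hc.comp (eM_symm_cont M)) T h.unr (fun v => eM M (Fr v))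
    (fun v _ => (isFrv_iff M v (Fr v)).2 (h.fr v)) D
    (fun v hv => by rw [h.off v hv, psiM_eM]) h.on ε hε

/-- **A nontrivial character has a nontrivial Frobenius value.**

PROOF. Copy of `ST32.GD.ne_one` (file `CFT/N11.lean`); the hypotheses on `ρ`, `ψ` are not used
there. That `χ` is unramified outside `T` (`UnrV (psiM χ) v`) is proved as `ST32.GD.unr`, with
`hinert`. -/
theorem GD_ne_one (h : ST32.GD M ψ S' T Fr D) (χ : M.fixingSubgroup →* (PadicAlgCl p)ˣ)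
    (hχc : Continuous fun g => (χ g : PadicAlgCl p))
    (hinert : ∀ q : ℕ, q.Prime → q ∉ S' → ∀ Q : Ideal (𝓞 Qb), Q.IsPrime → (q : 𝓞 Qb) ∈ Q →
      ∀ s : M.fixingSubgroup, (∀ x : 𝓞 Qb, (s : Gal(Qb/ℚ)) • x - x ∈ Q) → χ s = 1)
    (hne : χ ≠ 1) : ∃ v ∉ T, χ (Fr v) ≠ 1 := by
  have := om_galM M
  have hχu : ∀ v ∉ T, UnrV (psiM χ) v := by
    intro v hv P hP g hg
    obtain ⟨q, f, hq, hf, hqv, -⟩ := exists_below M v
    have hqS : q ∉ S' := fun hc => hv (h.ovr v q hq hqv hc)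
    have hqP : (q : 𝓞 H25G.Om) ∈ P := by
      have h1 := hqv
      rw [← hP.2, Ideal.mem_comap, map_natCast] at h1
      exact h1
    exact hinert q hq hqS P hP.1 hqP ((eM M).symm g) hg
  have hne' : psiM χ ≠ 1 := by
    intro h1
    apply hne
    ext g
    have h2 := DFunLike.congr_fun h1 (eM M g)
    rw [psiM_eM] at h2
    rw [h2]
    rfl
  obtain ⟨v, hv, h2⟩ := exists_frob_ne' (psiM χ) (hχc.comp (eM_symm_cont M)) hne' T hχu
    (fun v => eM M (Fr v)) (fun v _ => (isFrv_iff M v (Fr v)).2 (h.fr v))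
  rw [psiM_eM] at h2
  exact ⟨v, hv, h2⟩

end Pool.Agent.H99W
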