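import Mathlib
import Pool.Agent.Lib.H99W.R5

/-!
# Local algebraicity of a good character
-/

namespace Pool.Agent.H99W

open NumberField IsDedekindDomain Polynomial Pool.Agent.GSem H25G ST32

variable {p : ℕ} [hp : Fact p.Prime] {M : IntermediateField ℚ Qb} [NumberField M]
  {ψ : M.fixingSubgroup →* (PadicAlgCl p)ˣ} {S' : Finset ℕ} {T : Finset (CFT.Pr M)}
  {Fr : CFT.Pr M → M.fixingSubgroup} {D : CFT.Dv M →+ Additive (PadicAlgCl p)ˣ}

/-- Chunk R6 (size M). **Local algebraicity.**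

PROOF. Copy of `ST32.GD.alg` (file `CFT/N11.lean`): apply `CFT.loc_alg (l := p) ST32.norm_l T`.
`hSl`: `h.ovr v p _ hv hl`. `h0`: `h.on`. `hnorm`: `ST32.norm_char` for `v ∉ T` (the group
`M.fixingSubgroup` is compact), value `1` on `T`. `hlev`: `GD_lev` (R5). For `v ∉ T`,
`(D (single v 1)).toMul = ψ (Fr v)` (`h.off`), `H25G.IsFrP M v (Fr v)` (`h.fr`). There is a prime `q`
with `q ∈ v.asIdeal` (`ST32.exists_below`), and `b < q` because otherwise `q ∈ S'` (`hb`) and `v ∈ T`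
(`h.ovr`); so `hdata q _ _` applies: it gives `hint` with `m`, `hdeg` with `B`; `habs`: for a complex
root `z` of the minimal polynomial, `ST32.exists_conj` gives `κ` with `κ y = z`, and the third clause
of `hdata`. `hprime`: `N0 = 1`, the field `E`, `T = Finset.range (b + 1)`; for a prime `q` totally
split in `E` the Frobenius element `Fr v` is in `E.fixingSubgroup`: as in the proof of
`ST32.GD.alg`, `H25G.gb4_sep E` gives a bound, add the numbers up to it to the finite set; then the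
fourth clause of `hdata`. (`ψ (Fr v) ≠ 0`; the statement of `hdata` is the body of the field
`IsGood.data`.) -/
theorem GD_alg (hc : Continuous fun g => (ψ g : PadicAlgCl p)) (h : ST32.GD M ψ S' T Fr D)
    (hl : p ∈ S') {b B m : ℕ} {E : IntermediateField ℚ Qb} [NumberField E]
    (hb : ∀ q ≤ b, q ∈ S')
    (hdata : ∀ q : ℕ, b < q → q.Prime → ∀ v : CFT.Pr M, (q : 𝓞 M) ∈ v.asIdeal →
      ∀ g : M.fixingSubgroup, H25G.IsFrP M v g →
      IsIntegral ℤ ((CFT.Nm v : PadicAlgCl p) ^ m * ψ g) ∧ ST32.DegLe B (ψ g : PadicAlgCl p) ∧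
      (∀ (κ : Ab p →+* ℂ) (y : Ab p), (y : PadicAlgCl p) = ψ g → ‖κ y‖ = 1) ∧
      ((g : Gal(Qb/ℚ)) ∈ E.fixingSubgroup → ∀ (σ : Ab p →+* PadicAlgCl p) (y : Ab p),
        (y : PadicAlgCl p) = ψ g → ∀ (ζ : PadicAlgCl p) (j : ℕ), 0 < j → ζ ^ j = 1 →
          σ y = ζ * y → ζ = 1)) :
    ∃ (N : ℕ) (n : (M →+* PadicAlgCl p) → ℤ), ∀ x : M, CFT.Ray T N x →
      ((D (CFT.dv x)).toMul : PadicAlgCl p) = ∏ τ : M →+* PadicAlgCl p, τ x ^ n τ := by
  have hval : ∀ v ∉ T, ((D (Finsupp.single v 1)).toMul : PadicAlgCl p) =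
      (ψ (Fr v) : PadicAlgCl p) := by
    intro v hv
    rw [h.off v hv]
    rfl
  have hcompact : CompactSpace M.fixingSubgroup := by
    have := om_gal
    have h1 : IsClosed (M.fixingSubgroup : Set Gal(H25G.Om/ℚ)) :=
      InfiniteGalois.fixingSubgroup_isClosed M
    exact isCompact_iff_compactSpace.1 h1.isCompact
  -- the data at the primes outside `T`
  have hbelow : ∀ v ∉ T, ∃ q f : ℕ, q.Prime ∧ b < q ∧ 0 < f ∧ (q : 𝓞 M) ∈ v.asIdeal ∧
      CFT.Nm v = q ^ f := by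
    intro v hv
    obtain ⟨q, f, hq, hf, hqv, hNm⟩ := exists_below M v
    refine ⟨q, f, hq, ?_, hf, hqv, hNm⟩
    by_contra hcon
    exact hv (h.ovr v q hq hqv (hb q (by omega)))
  refine CFT.loc_alg (l := p) norm_l T (fun v hv => h.ovr v p hp.out hv hl) D h.on ?_
    (GD_lev hc h) B m ?_ ?_ ?_ ?_
  · intro v
    by_cases hv : v ∈ T
    · rw [h.on v hv, toMul_zero, Units.val_one, norm_one]
    · rw [hval v hv]
      exact norm_char ψ hc _
  · intro v hv
    obtain ⟨q, f, hq, hbq, hf, hqv, hNm⟩ := hbelow v hv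
    rw [hval v hv]
    exact (hdata q hbq hq v hqv (Fr v) (h.fr v)).1
  · intro v hv
    obtain ⟨q, f, hq, hbq, hf, hqv, hNm⟩ := hbelow v hv
    rw [hval v hv]
    exact (hdata q hbq hq v hqv (Fr v) (h.fr v)).2.1.2
  · intro v hv z hz
    obtain ⟨q, f, hq, hbq, hf, hqv, hNm⟩ := hbelow v hv
    rw [hval v hv] at hz
    have h1 := hdata q hbq hq v hqv (Fr v) (h.fr v)
    obtain ⟨κ, hκ⟩ := exists_conj h1.2.1.1 hz
    rw [← hκ]
    exact h1.2.2.1 κ _ rfl
  · obtain ⟨b', hb'⟩ := gb4_sep E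
    refine ⟨1, one_pos, E, inferInstance, inferInstance, Finset.range (b' + 1), ?_⟩
    intro q' hq' hqT hsplit v hqv' hv σ hσ y hy ζ j hj hζ he
    obtain ⟨q, f, hq, hbq, hf, hqv, hNm⟩ := hbelow v hv
    have hpp' : q = q' := by
      by_contra hne
      have hcop : IsCoprime (q : ℤ) (q' : ℤ) := by
        rw [Nat.isCoprime_iff_coprime]
        exact (Nat.coprime_primes hq hq').2 hne
      obtain ⟨c, d, hcd⟩ := hcop
      have e1 : (c : 𝓞 M) * (q : 𝓞 M) + (d : 𝓞 M) * (q' : 𝓞 M) = 1 := by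
        exact_mod_cast congrArg (fun z : ℤ => (z : 𝓞 M)) hcd
      have e2 : (1 : 𝓞 M) ∈ v.asIdeal := by
        rw [← e1]
        exact Ideal.add_mem _ (Ideal.mul_mem_left _ _ hqv) (Ideal.mul_mem_left _ _ hqv')
      exact v.isPrime.ne_top ((Ideal.eq_top_iff_one _).2 e2)
    subst hpp'
    -- the Frobenius element is trivial on E
    have hmem : (Fr v : Gal(H25G.Om/ℚ)) ∈ E.fixingSubgroup := by
      obtain ⟨-, Q, hQ, hQv, hQF⟩ := h.fr v
      have hpQ : (q : 𝓞 H25G.Om) ∈ Q := by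
        have e1 := hqv
        rw [← hQv, Ideal.mem_comap, map_natCast] at e1
        exact e1
      have hbp : b' < q := by
        rw [Finset.mem_range] at hqT
        omega
      have e2 := hb' q hbp hq Q hQ hpQ (Fr v : Gal(H25G.Om/ℚ)) 1 ?_
      · rwa [inv_one, one_mul] at e2
      intro x
      -- the prime of E
      have hpr : (Q.comap (algebraMap (𝓞 E) (𝓞 H25G.Om))).IsPrime := Ideal.IsPrime.comap _
      have hpE : (q : 𝓞 E) ∈ Q.comap (algebraMap (𝓞 E) (𝓞 H25G.Om)) := by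
        rw [Ideal.mem_comap, map_natCast]
        exact hpQ
      have hnb : Q.comap (algebraMap (𝓞 E) (𝓞 H25G.Om)) ≠ ⊥ := by
        intro e3
        rw [e3, Ideal.mem_bot] at hpE
        exact hq.ne_zero (by exact_mod_cast hpE)
      let w : CFT.Pr E := ⟨Q.comap (algebraMap (𝓞 E) (𝓞 H25G.Om)), hpr, hnb⟩
      have hNw : CFT.Nm w = q := hsplit w hpE
      have hx1 : ∀ k : ℕ, x ^ q ^ k - x ∈ w.asIdeal := by
        have hmax : w.asIdeal.IsMaximal := w.isMaximal
        let _ : Field (𝓞 E ⧸ w.asIdeal) := Ideal.Quotient.field w.asIdeal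
        have hfin : Finite (𝓞 E ⧸ w.asIdeal) := Ideal.finiteQuotientOfFreeOfNeBot w.asIdeal w.ne_bot
        let _ : Fintype (𝓞 E ⧸ w.asIdeal) := Fintype.ofFinite _
        have hcard : Fintype.card (𝓞 E ⧸ w.asIdeal) = q := by
          rw [← hNw]
          unfold CFT.Nm
          rw [Ideal.absNorm_apply, Submodule.cardQuot_apply, Nat.card_eq_fintype_card]
        intro k
        rw [← Ideal.Quotient.eq_zero_iff_mem, map_sub, map_pow, sub_eq_zero, ← hcard]
        exact FiniteField.pow_card_pow k _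
      have e3 := hQF (algebraMap (𝓞 E) (𝓞 H25G.Om) x)
      rw [hNm] at e3
      have e4 : algebraMap (𝓞 E) (𝓞 H25G.Om) (x ^ q ^ f - x) ∈ Q := hx1 f
      rw [map_sub, map_pow] at e4
      have e5 := Q.add_mem e3 e4
      rw [one_smul]
      have e6 : (Fr v : Gal(H25G.Om/ℚ)) • algebraMap (𝓞 E) (𝓞 H25G.Om) x -
          algebraMap (𝓞 E) (𝓞 H25G.Om) x =
          (Fr v : Gal(H25G.Om/ℚ)) • algebraMap (𝓞 E) (𝓞 H25G.Om) x -
            algebraMap (𝓞 E) (𝓞 H25G.Om) x ^ q ^ f +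
          (algebraMap (𝓞 E) (𝓞 H25G.Om) x ^ q ^ f - algebraMap (𝓞 E) (𝓞 H25G.Om) x) := by ring
      rw [e6]
      exact e5
    have h1 := hdata q hbq hq v hqv (Fr v) (h.fr v)
    exact h1.2.2.2 hmem σ y (hy.trans (hval v hv)) ζ j hj hζ he

end Pool.Agent.H99W
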