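import Mathlib
import Pool.Agent.Lib.H99W.R2
import Pool.Agent.Lib.H99W.R3
import Pool.Agent.Lib.H99W.R4
import Pool.Agent.Lib.H99W.R6

/-!
# Good characters of fields with a real place have finite order
-/

namespace Pool.Agent.H99W

open NumberField IsDedekindDomain Polynomial Pool.Agent.GSem

variable {p : ℕ} [hp : Fact p.Prime]

/-- A divisor supported on `T` has trivial value. -/
theorem r7_zero {M : Type} [Field M] [NumberField M] {A : Type*} [AddCommGroup A]
    (D : CFT.Dv M →+ A) (T : Finset (CFT.Pr M)) (hon : ∀ v ∈ T, D (Finsupp.single v 1) = 0)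
    (E : CFT.Dv M) (hE : ∀ v ∉ T, E v = 0) : D E = 0 := by
  classical
  have h1 : E = ∑ v ∈ E.support, E v • Finsupp.single v (1 : ℤ) := by
    ext u
    rw [Finsupp.finsetSum_apply]
    simp only [Finsupp.smul_apply, Finsupp.single_apply, smul_eq_mul, mul_ite, mul_one, mul_zero]
    rw [Finset.sum_ite_eq' E.support u (fun v => E v)]
    split_ifs with h
    · rfl
    · exact Finsupp.notMem_support_iff.1 h
  rw [h1, map_sum]
  apply Finset.sum_eq_zero
  intro v hv
  by_cases hvT : v ∈ T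
  · rw [map_zsmul, hon v hvT, smul_zero]
  · exact absurd (hE v hvT) (Finsupp.mem_support_iff.1 hv)

/-- Chunk R7 (size M/L). **A good character of weight zero of a number field with a real place has
finite order.**

PROOF. Take `b B m E` from `hψ.data`. `exists_GD` (R4) with `S1 = Finset.range (b + 1)` gives
`S' T Fr D`. `GD_alg` (R6) gives `N` and `n` with `D (dv x) = ∏ τ x ^ n τ` on the ray. All exponents
vanish by `exps_zero` (R2, `Ω₁ = PadicAlgCl p`): for `x` in the ray, `κ`, `y` with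
`(y : _) = ∏ τ x ^ n τ = (D (dv x)).toMul`, `norm_divisor` (R3) gives `‖κ y‖ = 1`; its hypotheses: for
`v ∉ T`, `(D (single v 1)).toMul = ψ (Fr v)` and the clauses of `hψ.data` (prime `q` below `v`:
`ST32.exists_below`; `b < q` since `v ∉ T`, last clause of R4), for `v ∈ T` the value is `1`
(`GD.on`). So `D (dv x) = 0` for all `x` in the ray. The ray class group is finite: let
`k = (CFT.Pray T N).index`, `0 < k` (`CFT.pray_fin M T N`, file `CFT/Core1.lean`,
`AddSubgroup.FiniteIndex`); for `v ∉ T`, `k • single v 1 ∈ Pray T N`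
(`AddSubgroup.nsmul_index_mem`), i.e. there is `x` in the ray such that `k • single v 1` and `dv x`
agree outside `T`; since `D` is zero on the primes of `T`, `D (k • single v 1) = D (dv x) = 0`
(write the difference of the two divisors as a sum over `T`: `Finsupp` induction, or
`Finsupp.sum`); so `ψ (Fr v) ^ k = 1`. If `ψ ^ k ≠ 1`, `GD_ne_one` (R5) for `χ = ψ ^ k`
(continuous; trivial on inertia) gives `v ∉ T` with `ψ (Fr v) ^ k ≠ 1`, contradiction. -/
theorem finite_order_of_good (M : IntermediateField ℚ Qb) [NumberField M]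
    (ψ : M.fixingSubgroup →* (PadicAlgCl p)ˣ) (hψ : IsGood M ψ)
    (hreal : ∃ φ : M →+* ℂ, ComplexEmbedding.IsReal φ) :
    ∃ k : ℕ, 0 < k ∧ ∀ g, ψ g ^ k = 1 := by
  classical
  obtain ⟨hc, b, B, m, E, hE, hdata⟩ := hψ
  obtain ⟨S', T, Fr, D, hS, hpS, hGD, hT⟩ := exists_GD M ψ (Finset.range (b + 1)) (by
    intro q hq hqS Q hQ hqQ s hs
    rw [Finset.mem_range] at hqS
    exact (hdata q (by omega) hq).1 s Q hQ hqQ hs)
  have hb : ∀ q ≤ b, q ∈ S' := fun q hq => hS (Finset.mem_range.2 (by omega))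
  obtain ⟨N, n, hn⟩ := GD_alg hc hGD hpS hb (fun q hbq hq => (hdata q hbq hq).2)
  have hval : ∀ v ∉ T, ((D (Finsupp.single v 1)).toMul : PadicAlgCl p) =
      (ψ (Fr v) : PadicAlgCl p) := by
    intro v hv
    rw [hGD.off v hv]
    rfl
  -- the data at the primes outside `T`
  have hbelow : ∀ v ∉ T, ∃ q : ℕ, q.Prime ∧ b < q ∧ (q : 𝓞 M) ∈ v.asIdeal := by
    intro v hv
    obtain ⟨q, f, hq, hf, hqv, hNm⟩ := ST32.exists_below M v
    refine ⟨q, hq, ?_, hqv⟩
    by_contra hcon
    exact hv (hGD.ovr v q hq hqv (hb q (by omega)))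
  have hint : ∀ v, IsIntegral ℚ ((D (Finsupp.single v 1)).toMul : PadicAlgCl p) := by
    intro v
    by_cases hv : v ∈ T
    · rw [hGD.on v hv, toMul_zero, Units.val_one]
      exact isIntegral_one
    · obtain ⟨q, hq, hbq, hqv⟩ := hbelow v hv
      rw [hval v hv]
      exact ((hdata q hbq hq).2 v hqv (Fr v) (hGD.fr v)).2.1.1
  have hκ : ∀ (κ : (algebraicClosure ℚ (PadicAlgCl p)) →+* ℂ) (v : CFT.Pr M)
      (y : algebraicClosure ℚ (PadicAlgCl p)),
      (y : PadicAlgCl p) = ((D (Finsupp.single v 1)).toMul : PadicAlgCl p) → ‖κ y‖ = 1 := by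
    intro κ v y hy
    by_cases hv : v ∈ T
    · rw [hGD.on v hv, toMul_zero, Units.val_one] at hy
      have h1 : y = 1 := Subtype.ext hy
      rw [h1, map_one, norm_one]
    · obtain ⟨q, hq, hbq, hqv⟩ := hbelow v hv
      rw [hval v hv] at hy
      exact ((hdata q hbq hq).2 v hqv (Fr v) (hGD.fr v)).2.2.1 κ y hy
  have hexp : ∀ τ, n τ = 0 := by
    refine exps_zero M T N n hreal fun x hx κ y hy => ?_
    refine norm_divisor D hint κ (hκ κ) (CFT.dv x) y ?_
    rw [hy, hn x hx]
  have hdv : ∀ x : M, CFT.Ray T N x → D (CFT.dv x) = 0 := by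
    intro x hx
    have h1 := hn x hx
    have h2 : ∏ τ : M →+* PadicAlgCl p, τ x ^ n τ = 1 :=
      Finset.prod_eq_one fun τ _ => by rw [hexp τ, zpow_zero]
    rw [h2] at h1
    apply Additive.toMul.injective
    rw [toMul_zero]
    exact Units.ext (by rw [h1, Units.val_one])
  have hfin : (CFT.Pray T N).FiniteIndex := CFT.pray_fin M T N
  have hk0 : (CFT.Pray (K := M) T N).index ≠ 0 := hfin.index_ne_zero
  obtain ⟨k, hk⟩ : ∃ k : ℕ, k = (CFT.Pray (K := M) T N).index := ⟨_, rfl⟩
  have hFrk : ∀ v ∉ T, ψ (Fr v) ^ k = 1 := by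
    intro v hv
    have h1 : k • Finsupp.single v (1 : ℤ) ∈ CFT.Pray (K := M) T N := by
      rw [hk]
      exact AddSubgroup.nsmul_index_mem _ _
    obtain ⟨x, hx, hxv⟩ := h1
    have h2 : D (k • Finsupp.single v (1 : ℤ) - CFT.dv x) = 0 := by
      refine r7_zero D T hGD.on _ fun u hu => ?_
      rw [Finsupp.sub_apply, hxv u hu, CFT.dv_apply, sub_self]
    rw [map_sub, hdv x hx, sub_zero, map_nsmul, hGD.off v hv] at h2
    have h3 : Additive.ofMul (ψ (Fr v) ^ k) = 0 := h2
    exact h3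
  refine ⟨k, by omega, ?_⟩
  by_contra hcon
  push Not at hcon
  obtain ⟨g, hg⟩ := hcon
  have hne : ψ ^ k ≠ 1 := by
    intro h1
    apply hg
    have h2 := DFunLike.congr_fun h1 g
    rwa [MonoidHom.pow_apply, MonoidHom.one_apply] at h2
  obtain ⟨v, hv, h1⟩ := GD_ne_one hGD (ψ ^ k) (by
    have h2 : (fun g => (((ψ ^ k) g : (PadicAlgCl p)ˣ) : PadicAlgCl p)) =
        fun g => (ψ g : PadicAlgCl p) ^ k := by
      funext g
      rw [MonoidHom.pow_apply, Units.val_pow_eq_pow_val]
    rw [h2]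
    exact hc.pow k) (by
    intro q hq hqS Q hQ hqQ s hs
    rw [MonoidHom.pow_apply, hGD.inert q hq hqS Q hQ hqQ s hs, one_pow]) hne
  apply h1
  rw [MonoidHom.pow_apply]
  exact hFrk v hv

end Pool.Agent.H99W
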