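import Mathlib
import Pool.Agent.Lib.H99L.T1
import Pool.Agent.Lib.H99.NF.Transfer
import Pool.Agent.Lib.H99W.Defs

/-!
# The transfer to an open subgroup
-/

namespace Pool.Agent.H99W

open NumberField Module Pool.Agent.GSem Pool.Agent.NF Pool.Agent.H99L Topology

variable {p : ℕ} [hp : Fact p.Prime]

/-- Chunk T1 (size M). **The transfer is continuous.**

PROOF. As `Pool.Agent.NF.continuous_transfer` (file `H99/NF/Transfer.lean`) with `G` instead of
`Gal(Ω/ℚ)`: the normal core `N` of `Γ` is open (`Γ` is open of finite index, hence closed, the core is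
closed of finite index, see `systemClause` in `H99L/Y11.lean`: `normalCore_isClosed`,
`Subgroup.isOpen_of_isClosed_of_finiteIndex`), and on `N` the transfer is the product of
`δ (x.out⁻¹ * g * x.out)` (`Pool.Agent.NF.transfer_core`, general `G`), which is continuous;
`continuous_of_continuousAt_one`. -/
theorem continuous_transfer' {G : Type*} [Group G] [TopologicalSpace G] [IsTopologicalGroup G]
    (Γ : Subgroup G) [Γ.FiniteIndex] (hΓ : IsOpen (Γ : Set G)) (δ : Γ →* ℤ_[p]ˣ)
    (hδ : Continuous δ) : Continuous (MonoidHom.transfer δ) := by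
  classical
  let _ : Fintype (G ⧸ Γ) := Subgroup.fintypeQuotientOfFiniteIndex
  have hΓc : IsClosed (Γ : Set G) := Subgroup.isClosed_of_isOpen Γ hΓ
  have hNc : IsClosed (Γ.normalCore : Set G) := Subgroup.normalCore_isClosed Γ hΓc
  have hNo : IsOpen (Γ.normalCore : Set G) :=
    Subgroup.isOpen_of_isClosed_of_finiteIndex _ hNc
  apply continuous_of_continuousAt_one
  have h1 : ContinuousOn (MonoidHom.transfer δ) (Γ.normalCore : Set G) := by
    rw [continuousOn_iff_continuous_domRestrict]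
    have h2 : (Γ.normalCore : Set G).domRestrict (MonoidHom.transfer δ) = fun g : Γ.normalCore =>
        ∏ x : G ⧸ Γ, δ ⟨x.out⁻¹ * (g : G) * x.out, conj_mem_of_core Γ g.2 _⟩ := by
      funext g
      exact transfer_core Γ δ g.2
    rw [h2]
    refine continuous_finsetProd _ fun x _ => hδ.comp ?_
    refine Continuous.subtype_mk ?_ _
    fun_prop
  exact h1.continuousAt (hNo.mem_nhds (one_mem Γ.normalCore))

/-- **The transfer from `Δ` of a character of `Γ`.**

PROOF. Let `Γ' = Γ.subgroupOf Δ`, of finite index in `Δ`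
(`Subgroup.finiteIndex_subgroupOf`/`instFiniteIndex_subgroupOf`) and open (preimage of `Γ`), and
`δ' : Γ' →* ℤ_[p]ˣ` the composition of `δ` with `Γ' →* Γ`, `h ↦ ⟨h, h.2⟩` (`Subgroup.mem_subgroupOf`;
`MonoidHom.codRestrict` or an explicit structure; continuous). `Ψ = MonoidHom.transfer δ'`;
continuity by the first part, the formula is `H99L.transfer_orbits` (file `H99L/T1.lean`, for the group
`Δ`), `δ' (ho.elt i) = δ (elt ho i)` by definition. -/
theorem exists_transfer {Γ Δ : Subgroup Gal(Qb/ℚ)} [Γ.FiniteIndex]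
    (hΓ : IsOpen (Γ : Set Gal(Qb/ℚ))) (δ : Γ →* ℤ_[p]ˣ) (hδ : Continuous δ) :
    ∃ Ψ : Δ →* ℤ_[p]ˣ, Continuous Ψ ∧ ∀ (g : Δ) (k : ℕ) (x : Fin k → Δ) (f : Fin k → ℕ)
      (ho : IsOrbits (Γ.subgroupOf Δ) g x f), Ψ g = ∏ i, δ (elt ho i) := by
  let incl : Γ.subgroupOf Δ →* Γ :=
    { toFun := fun h => ⟨((h : Δ) : Gal(Qb/ℚ)), Subgroup.mem_subgroupOf.1 h.2⟩
      map_one' := rfl
      map_mul' := fun _ _ => rfl }
  have hincl : Continuous incl := by
    refine Continuous.subtype_mk ?_ _
    exact continuous_subtype_val.comp continuous_subtype_val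
  let δ' : Γ.subgroupOf Δ →* ℤ_[p]ˣ := δ.comp incl
  have hδ' : Continuous δ' := hδ.comp hincl
  have ho' : IsOpen (Γ.subgroupOf Δ : Set Δ) := hΓ.preimage continuous_subtype_val
  have hfi : (Γ.subgroupOf Δ).FiniteIndex := inferInstance
  refine ⟨MonoidHom.transfer δ', continuous_transfer' (Γ.subgroupOf Δ) ho' δ' hδ', ?_⟩
  intro g k x f ho
  rw [transfer_orbits (Γ.subgroupOf Δ) δ' ho]
  rfl

end Pool.Agent.H99W
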