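import Mathlib
import Pool.Agent.Lib.H99L.Defs

/-!
# Orbits exist
-/

namespace Pool.Agent.H99W

open Pool.Agent.H99L

/-- Chunk V0 (size M). **The orbits of `g` on the cosets can be written as in `IsOrbits`.**

PROOF. Let `Q = MulAction.orbitRel.Quotient (Subgroup.zpowers g) (G ⧸ Γ)`, a finite type, with an
equivalence `e : Fin k ≃ Q` (`Finite.equivFin`, `k = Nat.card Q`). Mathlib's
`Subgroup.quotientEquivSigmaZMod Γ g : G ⧸ Γ ≃ Σ q : Q, ZMod (Function.minimalPeriod (g • ·) q.out)`
(file `Mathlib/GroupTheory/Transfer.lean` or `GroupAction/Quotient`) has the inverse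
`⟨q, j⟩ ↦ g ^ (j.cast : ℤ) • q.out` (`Subgroup.quotientEquivSigmaZMod_symm_apply`). Put
`x i = (e i).out.out` (a representative in `G` of the coset `(e i).out`) and
`f i = minimalPeriod (g • ·) (e i).out`, positive because `G ⧸ Γ` is finite
(`Function.minimalPeriod_pos_of_mem_periodicPts` or the instance used in
`MonoidHom.transfer_eq_prod_quotient_orbitRel_zpowers_quot`). `mem`: `g ^ f i • (e i).out = (e i).out`
(`Function.isPeriodicPt_minimalPeriod`, `smul_iterate`), `QuotientGroup.eq`. `bij`: compose the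
bijection `Σ i, Fin (f i) ≃ Σ q, ZMod ..` (for `n ≠ 0`, `Fin n` and `ZMod n`, `ZMod.finEquiv` or
`Equiv`) with the inverse above: the coset of `g ^ j * x i` is `g ^ j • (e i).out`. The file
`H99L/T1.lean` (`transfer_orbits`) uses the same Mathlib results. -/
theorem exists_isOrbits {G : Type*} [Group G] (Γ : Subgroup G) [Γ.FiniteIndex] (g : G) :
    ∃ (k : ℕ) (x : Fin k → G) (f : Fin k → ℕ), IsOrbits Γ g x f := by
  classical
  have hfin : Finite (G ⧸ Γ) := inferInstance
  have hQ : Finite (MulAction.orbitRel.Quotient (Subgroup.zpowers g) (G ⧸ Γ)) :=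
    Quotient.finite _
  let e : Fin (Nat.card (MulAction.orbitRel.Quotient (Subgroup.zpowers g) (G ⧸ Γ))) ≃
    MulAction.orbitRel.Quotient (Subgroup.zpowers g) (G ⧸ Γ) := (Finite.equivFin _).symm
  have hpos : ∀ q : MulAction.orbitRel.Quotient (Subgroup.zpowers g) (G ⧸ Γ),
      0 < Function.minimalPeriod (g • ·) q.out := by
    intro q
    apply Function.minimalPeriod_pos_of_mem_periodicPts
    have : Function.Injective (fun y : G ⧸ Γ => g • y) := MulAction.injective g
    exact Function.Injective.mem_periodicPts this _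
  refine ⟨_, fun i => (e i).out.out, fun i => Function.minimalPeriod (g • ·) (e i).out,
    ⟨fun i => hpos _, fun i => QuotientGroup.out_conj_pow_minimalPeriod_mem Γ g _, ?_⟩⟩
  have hφ : Function.Bijective (fun s : (Σ i, Fin (Function.minimalPeriod (g • ·) (e i).out)) =>
      (⟨e s.1, ((s.2 : ℕ) : ZMod _)⟩ : Σ q : MulAction.orbitRel.Quotient (Subgroup.zpowers g) (G ⧸ Γ),
        ZMod (Function.minimalPeriod (g • ·) q.out))) := by
    constructor
    · rintro ⟨i, a⟩ ⟨j, b⟩ h
      have h1 : e i = e j := congrArg Sigma.fst h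
      have h2 : i = j := e.injective h1
      subst h2
      have h3 : ((a : ℕ) : ZMod (Function.minimalPeriod (g • ·) (e i).out)) = ((b : ℕ) : ZMod _) := by
        simpa using h
      rw [ZMod.natCast_eq_natCast_iff', Nat.mod_eq_of_lt a.2, Nat.mod_eq_of_lt b.2] at h3
      have h4 : a = b := Fin.ext h3
      rw [h4]
    · rintro ⟨q, z⟩
      obtain ⟨i, rfl⟩ := e.surjective q
      have : NeZero (Function.minimalPeriod (g • ·) (e i).out) := ⟨(hpos (e i)).ne'⟩
      refine ⟨⟨i, ⟨z.val, ZMod.val_lt z⟩⟩, ?_⟩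
      simp
  have h := (Subgroup.quotientEquivSigmaZMod Γ g).symm.bijective.comp hφ
  have hfun : (fun s : (Σ i, Fin (Function.minimalPeriod (g • ·) (e i).out)) =>
      ((g ^ (s.2 : ℕ) * (e s.1).out.out : G) : G ⧸ Γ)) =
      (Subgroup.quotientEquivSigmaZMod Γ g).symm ∘ (fun s : (Σ i, Fin (Function.minimalPeriod (g • ·) (e i).out)) =>
      (⟨e s.1, ((s.2 : ℕ) : ZMod _)⟩ : Σ q : MulAction.orbitRel.Quotient (Subgroup.zpowers g) (G ⧸ Γ),
        ZMod (Function.minimalPeriod (g • ·) q.out))) := by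
    funext s
    rw [Function.comp_apply, Subgroup.quotientEquivSigmaZMod_symm_apply]
    have : NeZero (Function.minimalPeriod (g • ·) (e s.1).out) := ⟨(hpos (e s.1)).ne'⟩
    have h5 : ((((s.2 : ℕ) : ZMod (Function.minimalPeriod (g • ·) (e s.1).out)).cast : ℤ)) = ((s.2 : ℕ) : ℤ) := by
      rw [ZMod.cast_eq_val, ZMod.val_natCast, Nat.mod_eq_of_lt s.2.2]
    rw [h5, zpow_natCast, ← smul_eq_mul, ← MulAction.Quotient.smul_coe, QuotientGroup.out_eq']
  rw [hfun]
  exact h

end Pool.Agent.H99W
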