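import Mathlib
import Pool.Agent.Lib.CFT.N09
import Pool.Agent.Lib.H99W.Defs

/-!
# A number field over which the representation is near 1
-/

namespace Pool.Agent.H99W

open NumberField Module Polynomial Pool.Agent.GSem Pool.Agent.NF

variable {p : ℕ} [hp : Fact p.Prime] {Γ : Subgroup Gal(Qb/ℚ)}
variable {V : Type*} [AddCommGroup V] [Module ℚ_[p] V] [FiniteDimensional ℚ_[p] V]

/-- Chunk V4 (size M). **Elements near `1`.**

PROOF. Let `b = Module.finBasis ℚ_[p] V` and `A γ = LinearMap.toMatrix b b (ρ γ)`; the entries are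
continuous functions of `γ : Γ` (`IsContRep`: `b.coord i (ρ γ (b j))`) and `A 1 = 1`. So the set of
`γ ∈ Γ` with `‖(A γ - 1) i j‖ < ε` for all `i j` is a neighbourhood of `1` in `Γ`, and, `Γ` being
open, the set `O` of these `γ` is a neighbourhood of `1` in `Gal(Qb/ℚ)`
(`Subgroup.isOpenEmbedding..`/`IsOpen.isOpenEmbedding_subtypeVal`, `map_nhds`). It contains an open
normal subgroup `N` (`ProfiniteGrp.exist_openNormalSubgroup_sub_open_nhds_of_one`, used in
`H99/NF/Transfer.lean`; take an open neighbourhood of `1` inside), and `N` contains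
`E.fixingSubgroup` for a number field `E` (`krullTopology_mem_nhds_one_iff`, see `ST32.exists_E` in
`CFT/N10.lean`). For `g ∈ E.fixingSubgroup` the element `γ = y⁻¹ * g ^ f * y` is in `N ⊆ O ⊆ Γ`. The
eigenvalues of `ρ γ` are near `1`: `ST32.eig_near` (file `CFT/N09.lean`) for the matrix
`(A γ).map (algebraMap ..)`, whose characteristic polynomial is that of `ρ γ`
(`LinearMap.charpoly_toMatrix`, `Matrix.charpoly_map`), entries as in `ST32.exists_E`. -/
theorem exists_near_field (hΓ : IsOpen (Γ : Set Gal(Qb/ℚ))) (ρ : Representation ℚ_[p] Γ V)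
    (hρ : IsContRep ρ) {ε : ℝ} (hε : 0 < ε) :
    ∃ (E : IntermediateField ℚ Qb) (_ : NumberField E), ∀ g ∈ E.fixingSubgroup,
      ∀ (y : Gal(Qb/ℚ)) (f : ℕ), ∃ h : y⁻¹ * g ^ f * y ∈ Γ, ∀ d : PadicAlgCl p,
        ((ρ ⟨y⁻¹ * g ^ f * y, h⟩).charpoly.map (algebraMap ℚ_[p] (PadicAlgCl p))).IsRoot d →
          ‖d - 1‖ ≤ ε := by
  classical
  have := qb_gal
  have h1 : ∀ i j, Continuous fun γ : Γ =>
      (LinearMap.toMatrix (Module.finBasis ℚ_[p] V) (Module.finBasis ℚ_[p] V) (ρ γ)) i j := by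
    intro i j
    have h := hρ (Module.finBasis ℚ_[p] V j) ((Module.finBasis ℚ_[p] V).coord i)
    refine h.congr fun γ => ?_
    rw [LinearMap.toMatrix_apply]
    rfl
  have h2 : ∀ i j, ∀ᶠ γ : Γ in nhds 1,
      ‖(LinearMap.toMatrix (Module.finBasis ℚ_[p] V) (Module.finBasis ℚ_[p] V) (ρ γ) - 1) i j‖ < ε := by
    intro i j
    have h3 : Continuous fun γ : Γ =>
        (LinearMap.toMatrix (Module.finBasis ℚ_[p] V) (Module.finBasis ℚ_[p] V) (ρ γ) - 1) i j := by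
      show Continuous fun γ : Γ =>
        (LinearMap.toMatrix (Module.finBasis ℚ_[p] V) (Module.finBasis ℚ_[p] V) (ρ γ)) i j -
          (1 : Matrix _ _ ℚ_[p]) i j
      exact (h1 i j).sub continuous_const
    have h4 := h3.norm.tendsto 1
    rw [map_one, LinearMap.toMatrix_one, sub_self, Matrix.zero_apply, norm_zero] at h4
    exact h4.eventually (gt_mem_nhds hε)
  have h3 : ∀ᶠ γ : Γ in nhds 1, ∀ i j,
      ‖(LinearMap.toMatrix (Module.finBasis ℚ_[p] V) (Module.finBasis ℚ_[p] V) (ρ γ) - 1) i j‖ < ε :=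
    Filter.eventually_all.2 fun i => Filter.eventually_all.2 fun j => h2 i j
  have h4 : {g : Gal(Qb/ℚ) | ∃ h : g ∈ Γ, ∀ i j, ‖(LinearMap.toMatrix (Module.finBasis ℚ_[p] V)
      (Module.finBasis ℚ_[p] V) (ρ ⟨g, h⟩) - 1) i j‖ < ε} ∈ nhds (1 : Gal(Qb/ℚ)) := by
    have h5 := hΓ.isOpenEmbedding_subtypeVal.map_nhds_eq (1 : Γ)
    rw [show (1 : Gal(Qb/ℚ)) = ((1 : Γ) : Gal(Qb/ℚ)) from rfl, ← h5, Filter.mem_map]
    filter_upwards [h3] with γ hγ
    exact ⟨γ.2, hγ⟩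
  obtain ⟨O, hO, hOo, h1O⟩ := mem_nhds_iff.1 h4
  obtain ⟨N, hN⟩ := ProfiniteGrp.exist_openNormalSubgroup_sub_open_nhds_of_one hOo h1O
  have hNn : N.toSubgroup.Normal := N.isNormal'
  have hNo : (N.toSubgroup : Set Gal(Qb/ℚ)) ∈ nhds (1 : Gal(Qb/ℚ)) := N.isOpen'.mem_nhds N.toSubgroup.one_mem
  obtain ⟨E, hE, hEN⟩ := (krullTopology_mem_nhds_one_iff ℚ Qb _).1 hNo
  refine ⟨E, ?_, fun g hg y f => ?_⟩
  · have := hE
    exact NumberField.of_module_finite ℚ E
  · have h5 : y⁻¹ * g ^ f * y ∈ N.toSubgroup := by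
      have h6 := hNn.conj_mem (g ^ f) (pow_mem (hEN hg) f) y⁻¹
      rwa [inv_inv] at h6
    obtain ⟨h, hh⟩ := hO (hN h5)
    refine ⟨h, fun d hd => ?_⟩
    have h7 : (ρ ⟨y⁻¹ * g ^ f * y, h⟩).charpoly.map (algebraMap ℚ_[p] (PadicAlgCl p)) =
        ((LinearMap.toMatrix (Module.finBasis ℚ_[p] V) (Module.finBasis ℚ_[p] V)
          (ρ ⟨y⁻¹ * g ^ f * y, h⟩)).map (algebraMap ℚ_[p] (PadicAlgCl p))).charpoly := by
      rw [Matrix.charpoly_map, LinearMap.charpoly_toMatrix]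
    rw [h7] at hd
    refine ST32.eig_near hε.le (fun i j => ?_) hd
    have h8 : ((LinearMap.toMatrix (Module.finBasis ℚ_[p] V) (Module.finBasis ℚ_[p] V)
          (ρ ⟨y⁻¹ * g ^ f * y, h⟩)).map (algebraMap ℚ_[p] (PadicAlgCl p)) - 1) i j =
        algebraMap ℚ_[p] (PadicAlgCl p) ((LinearMap.toMatrix (Module.finBasis ℚ_[p] V)
          (Module.finBasis ℚ_[p] V) (ρ ⟨y⁻¹ * g ^ f * y, h⟩) - 1) i j) := by
      rw [Matrix.sub_apply, Matrix.sub_apply, map_sub]
      congr 1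
      rw [Matrix.one_apply, Matrix.one_apply]
      split_ifs
      · rw [map_one]
      · rw [map_zero]
    rw [h8, norm_algebraMap']
    exact (hh i j).le

end Pool.Agent.H99W
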