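import Mathlib
import Pool.Agent.Lib.H25G.GB4B
import Pool.Agent.Lib.H99W.V2a

/-!
# The characteristic polynomials at Frobenius elements of finite extensions
-/

namespace Pool.Agent.H99W

open NumberField Module Polynomial Pool.Agent.GSem Pool.Agent.NF

variable {p : ℕ} [hp : Fact p.Prime] {F : IntermediateField ℚ Qb} [NumberField F]
variable {V : Type*} [AddCommGroup V] [Module ℚ_[p] V] [FiniteDimensional ℚ_[p] V]

/-- Chunk V2 (size M). **Characteristic polynomials.** For all large `q`: if `g` acts as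
`x ↦ x ^ (q ^ a)` modulo a prime above `q` and `γ = y⁻¹ * g ^ f * y ∈ Γ = Gal(Qb/F)`, the
characteristic polynomial of `ρ γ` is rational, with the weights and the integrality of
`φ ^ (a * f)`; and inertia elements of `Γ` act trivially.

PROOF. Let `b₀ m` be from `hg` (`IsGeom`) and `b₁` from `H25G.gb4_sep F`; `b = max b₀ b₁`. The second
clause is that of `IsGeom`. First clause: `exists_frob_conj` (V2a) gives `Q'`, `φ`; the element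
`t = (φ ^ (a * f))⁻¹ * γ` is trivial modulo `Q'`, so `t ∈ F.fixingSubgroup` (`gb4_sep F` with
`t' = 1`), so `φ ^ (a * f) = γ * t⁻¹ ∈ F.fixingSubgroup` and `ρ t = 1` (`IsGeom`), so
`ρ γ = ρ (φ ^ (a * f))`. Apply `IsGeom` with `j = a * f > 0`. -/
theorem charpoly_frob (ρ : Representation ℚ_[p] F.fixingSubgroup V) {w : ℤ} (hg : IsGeom ρ w) :
    ∃ b m : ℕ, ∀ q : ℕ, b < q → q.Prime →
      (∀ (g : Gal(Qb/ℚ)) (a : ℕ) (Q : Ideal (𝓞 Qb)), Q.IsPrime → (q : 𝓞 Qb) ∈ Q → 0 < a →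
        (∀ x : 𝓞 Qb, g • x - x ^ (q ^ a) ∈ Q) →
        ∀ (y : Gal(Qb/ℚ)) (f : ℕ), 0 < f → ∀ h : y⁻¹ * g ^ f * y ∈ F.fixingSubgroup, ∃ P : ℚ[X],
          (ρ ⟨y⁻¹ * g ^ f * y, h⟩).charpoly = P.map (algebraMap ℚ ℚ_[p]) ∧
          ∀ z : ℂ, aeval z P = 0 → ‖z‖ ^ 2 = (q : ℝ) ^ (-(w * (a * f))) ∧
            IsIntegral ℤ ((q : ℂ) ^ (m * (a * f)) * z)) ∧
      ∀ (s : F.fixingSubgroup) (Q : Ideal (𝓞 Qb)), Q.IsPrime → (q : 𝓞 Qb) ∈ Q →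
        (∀ x : 𝓞 Qb, (s : Gal(Qb/ℚ)) • x - x ∈ Q) → ρ s = 1 := by
  obtain ⟨b₀, m, h0⟩ := hg
  obtain ⟨b₁, h1⟩ := H25G.gb4_sep F
  refine ⟨max b₀ b₁, m, fun q hbq hq => ⟨?_, ?_⟩⟩
  · intro g a Q hQ hqQ ha hg y f hf h
    obtain ⟨Q', φ, hQ', hqQ', hφ, ht⟩ := exists_frob_conj hq hQ hqQ hg y f
    have ht1 : (φ ^ (a * f))⁻¹ * (y⁻¹ * g ^ f * y) ∈ F.fixingSubgroup := by
      have h2 := h1 q (lt_of_le_of_lt (le_max_right _ _) hbq) hq Q' hQ' hqQ'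
        ((φ ^ (a * f))⁻¹ * (y⁻¹ * g ^ f * y)) 1 (fun x => by
          rw [one_smul]
          exact ht _)
      rwa [inv_one, one_mul] at h2
    have hφF : φ ^ (a * f) ∈ F.fixingSubgroup := by
      have h3 : φ ^ (a * f) = (y⁻¹ * g ^ f * y) * ((φ ^ (a * f))⁻¹ * (y⁻¹ * g ^ f * y))⁻¹ := by
        group
      rw [h3]
      exact mul_mem h (inv_mem ht1)
    obtain ⟨h4, h5⟩ := h0 q (lt_of_le_of_lt (le_max_left _ _) hbq) hq
    have h6 : ρ ⟨(φ ^ (a * f))⁻¹ * (y⁻¹ * g ^ f * y), ht1⟩ = 1 := h4 _ Q' hQ' hqQ' ht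
    have h7 : (⟨y⁻¹ * g ^ f * y, h⟩ : F.fixingSubgroup) =
        ⟨φ ^ (a * f), hφF⟩ * ⟨(φ ^ (a * f))⁻¹ * (y⁻¹ * g ^ f * y), ht1⟩ := by
      apply Subtype.ext
      exact (mul_inv_cancel_left _ _).symm
    have h8 : ρ ⟨y⁻¹ * g ^ f * y, h⟩ = ρ ⟨φ ^ (a * f), hφF⟩ := by
      rw [h7, map_mul, h6, mul_one]
    obtain ⟨P, h9, h10⟩ := h5 φ hφ (a * f) hφF (Nat.mul_pos ha hf)
    refine ⟨P, by rw [h8, h9], fun z hz => ?_⟩
    have h11 := h10 z hz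
    rw [Nat.cast_mul] at h11
    exact h11
  · intro s Q hQ hqQ hs
    exact (h0 q (lt_of_le_of_lt (le_max_left _ _) hbq) hq).1 s Q hQ hqQ hs

end Pool.Agent.H99W
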