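import Mathlib
import Pool.Agent.Lib.H99W.Defs2

/-!
# Weil numbers
-/

namespace Pool.Agent.H99W

open NumberField Polynomial

variable {p : ℕ} [hp : Fact p.Prime]

theorem w1_aeval (P : ℚ[X]) {z : PadicAlgCl p} (hz : aeval z P = 0) (y : Ab p)
    (hy : (y : PadicAlgCl p) = z) : aeval y P = 0 := by
  apply (algebraicClosure ℚ (PadicAlgCl p)).val.injective
  rw [map_zero]
  have h2 : (algebraicClosure ℚ (PadicAlgCl p)).val (aeval y P) = aeval z P := by
    rw [← Polynomial.aeval_algHom_apply]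
    rw [← hy]
    rfl
  exact h2.trans hz

/-- Chunk W1 (size S/M). **Roots of rational polynomials.**

PROOF. `deg`: `ST32.degLe_root` (file `CFT/N06.lean`). `int`: `ST32.int_of_complex` (file
`CFT/N08.lean`) with `c = q ^ m` (casts). `abs`: `aeval (y : Ab p) P = 0` (the inclusion of `Ab p` is
an injective `ℚ`-algebra homomorphism, see the proof of `ST32.aeval_inv_zero`), so
`aeval (κ y) P = 0` (`ST32.aeval_map_zero`), and `hP`. -/
theorem WN_root {q : ℕ} {b : ℤ} {m : ℕ} (P : ℚ[X]) (hP0 : P ≠ 0)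
    (hP : ∀ z : ℂ, aeval z P = 0 → ‖z‖ ^ 2 = (q : ℝ) ^ (-b) ∧ IsIntegral ℤ ((q : ℂ) ^ m * z))
    {z : PadicAlgCl p} (hz : aeval z P = 0) : WN q b m P.natDegree z := by
  refine ⟨ST32.degLe_root hP0 hz, ?_, ?_⟩
  · have h1 := ST32.int_of_complex P hP0 (q ^ m) (fun z h => by
      rw [Nat.cast_pow]
      exact (hP z h).2) hz
    rwa [Nat.cast_pow] at h1
  · intro κ y hy
    exact (hP _ (ST32.aeval_map_zero κ P (w1_aeval P hz y hy))).1

end Pool.Agent.H99W
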