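import Mathlib
import Pool.Agent.Lib.H99W.Defs2

/-!
# Products of Weil numbers
-/

namespace Pool.Agent.H99W

open NumberField Polynomial

variable {p : ℕ} [hp : Fact p.Prime]

/-- Chunk W2 (size M). **Products of two numbers.**

PROOF. `deg`: `ST32.DegLe.mul`. `int`: `q ^ (m + m') * (z * z') = (q ^ m * z) * (q ^ m' * z')`,
`IsIntegral.mul`. `abs`: let `y` with `(y : _) = z * z'`; `z`, `z'` are algebraic (`deg.1`), so there
are `u u' : Ab p` over `z`, `z'`, `y = u * u'`, and `‖κ y‖ ^ 2 = ‖κ u‖ ^ 2 * ‖κ u'‖ ^ 2`,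
`zpow_add₀` (`q ≠ 0`). -/
theorem WN.mul {q : ℕ} (hq : 0 < q) {b b' : ℤ} {m m' n n' : ℕ} {z z' : PadicAlgCl p}
    (h : WN q b m n z) (h' : WN q b' m' n' z') : WN q (b + b') (m + m') (n * n') (z * z') := by
  refine ⟨h.deg.mul h'.deg, ?_, ?_⟩
  · have e : (q : PadicAlgCl p) ^ (m + m') * (z * z') =
        ((q : PadicAlgCl p) ^ m * z) * ((q : PadicAlgCl p) ^ m' * z') := by ring
    rw [e]
    exact h.int.mul h'.int
  · intro κ y hy
    let u : Ab p := ⟨z, mem_algebraicClosure_iff.2 h.deg.1.isAlgebraic⟩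
    let u' : Ab p := ⟨z', mem_algebraicClosure_iff.2 h'.deg.1.isAlgebraic⟩
    have h1 : y = u * u' := Subtype.ext hy
    have hq0 : (q : ℝ) ≠ 0 := by exact_mod_cast hq.ne'
    rw [h1, map_mul, norm_mul, mul_pow, h.abs κ u rfl, h'.abs κ u' rfl, neg_add,
      zpow_add₀ hq0]

theorem WN_one (q : ℕ) : WN q 0 0 1 (1 : PadicAlgCl p) := by
  refine ⟨ST32.degLe_one, ?_, ?_⟩
  · rw [pow_zero, one_mul]
    exact isIntegral_one
  · intro κ y hy
    have h1 : y = 1 := Subtype.ext hy
    rw [h1, map_one, norm_one, one_pow, neg_zero, zpow_zero]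

/-- Monotonicity in `m` and `n`. -/
theorem WN.mono {q : ℕ} {b : ℤ} {m m' n n' : ℕ} {z : PadicAlgCl p} (h : WN q b m n z)
    (hm : m ≤ m') (hn : n ≤ n') : WN q b m' n' z := by
  refine ⟨h.deg.mono hn, ?_, h.abs⟩
  obtain ⟨c, rfl⟩ := Nat.exists_eq_add_of_le hm
  have e : (q : PadicAlgCl p) ^ (m + c) * z = (q : PadicAlgCl p) ^ c * ((q : PadicAlgCl p) ^ m * z) := by
    ring
  rw [e]
  have h1 : IsIntegral ℤ ((q : PadicAlgCl p) ^ c) := by
    have h2 : IsIntegral ℤ (q : PadicAlgCl p) := by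
      have h3 := isIntegral_algebraMap (R := ℤ) (A := PadicAlgCl p) (x := (q : ℤ))
      rwa [map_natCast] at h3
    exact h2.pow c
  exact h1.mul h.int

/-- Products over multisets: induction with `WN.mul` and `WN_one`. -/
theorem WN_prod {q : ℕ} (hq : 0 < q) {b : ℤ} {m n : ℕ} (s : Multiset (PadicAlgCl p))
    (h : ∀ z ∈ s, WN q b m n z) :
    WN q (Multiset.card s * b) (Multiset.card s * m) (n ^ Multiset.card s) s.prod := by
  induction s using Multiset.induction_on with
  | empty =>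
    rw [Multiset.prod_zero, Multiset.card_zero]
    have h1 := WN_one (p := p) q
    rwa [Nat.cast_zero, zero_mul, zero_mul, pow_zero]
  | cons a s ih =>
    rw [Multiset.prod_cons, Multiset.card_cons]
    have h1 := (h a (Multiset.mem_cons_self a s)).mul hq
      (ih fun z hz => h z (Multiset.mem_cons_of_mem hz))
    have e1 : ((Multiset.card s + 1 : ℕ) : ℤ) * b = b + (Multiset.card s : ℤ) * b := by
      push_cast
      ring
    have e2 : (Multiset.card s + 1) * m = m + Multiset.card s * m := by ring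
    rw [e1, e2, pow_succ, mul_comm (n ^ _)]
    exact h1

/-- Powers of `q`: rational numbers; `q ^ |a| * q ^ a` is a natural number. -/
theorem WN_zpow {q : ℕ} (hq : 0 < q) (a : ℤ) :
    WN q (-(2 * a)) a.natAbs 1 ((q : PadicAlgCl p) ^ a) := by
  have hq0 : (q : PadicAlgCl p) ≠ 0 := by exact_mod_cast hq.ne'
  have hqr : (q : ℝ) ≠ 0 := by exact_mod_cast hq.ne'
  refine ⟨?_, ?_, ?_⟩
  · have h1 : (q : PadicAlgCl p) ^ a = algebraMap ℚ (PadicAlgCl p) ((q : ℚ) ^ a) := by
      rw [map_zpow₀, map_natCast]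
    rw [h1]
    refine ⟨isIntegral_algebraMap, ?_⟩
    rw [minpoly.eq_X_sub_C, natDegree_X_sub_C]
  · have h1 : IsIntegral ℤ (q : PadicAlgCl p) := by
      have h3 := isIntegral_algebraMap (R := ℤ) (A := PadicAlgCl p) (x := (q : ℤ))
      rwa [map_natCast] at h3
    have h2 : ∃ j : ℕ, (q : PadicAlgCl p) ^ a.natAbs * (q : PadicAlgCl p) ^ a =
        (q : PadicAlgCl p) ^ j := by
      refine ⟨(a.natAbs + a).toNat, ?_⟩
      rw [← zpow_natCast, ← zpow_natCast, ← zpow_add₀ hq0]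
      congr 1
      omega
    obtain ⟨j, hj⟩ := h2
    rw [hj]
    exact h1.pow j
  · intro κ y hy
    have h1 : y = (q : Ab p) ^ a := by
      apply Subtype.ext
      rw [hy]
      have h2 : ((((q : Ab p) ^ a : Ab p)) : PadicAlgCl p) =
          (algebraicClosure ℚ (PadicAlgCl p)).val ((q : Ab p) ^ a) := rfl
      rw [h2, map_zpow₀, map_natCast]
    rw [h1, map_zpow₀, map_natCast, norm_zpow, Complex.norm_natCast, neg_neg, mul_comm 2 a,
      zpow_mul]
    norm_cast

end Pool.Agent.H99W
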