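import Mathlib
import Pool.Agent.Lib.H99W.Defs2

/-!
# Numbers all of whose conjugates are near 1
-/

namespace Pool.Agent.H99W

open NumberField Polynomial

variable {p : ℕ} [hp : Fact p.Prime]

theorem w3_aeval (P : ℚ[X]) {z : PadicAlgCl p} (hz : aeval z P = 0) (y : Ab p)
    (hy : (y : PadicAlgCl p) = z) : aeval y P = 0 := by
  apply (algebraicClosure ℚ (PadicAlgCl p)).val.injective
  rw [map_zero]
  have h2 : (algebraicClosure ℚ (PadicAlgCl p)).val (aeval y P) = aeval z P := by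
    rw [← Polynomial.aeval_algHom_apply]
    rw [← hy]
    rfl
  exact h2.trans hz

/-- Chunk W3 (size M). **Roots of a polynomial with all roots near `1`.**

PROOF. As in `WN_root` (W1): `aeval (σ y) P = 0` by `ST32.aeval_map_zero`. -/
theorem Nr_root {ε : ℝ} (P : ℚ[X]) (hP : ∀ d : PadicAlgCl p, aeval d P = 0 → ‖d - 1‖ ≤ ε)
    {z : PadicAlgCl p} (hz : aeval z P = 0) : Nr ε z := by
  intro σ y hy
  exact hP _ (ST32.aeval_map_zero σ P (w3_aeval P hz y hy))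

/-- PROOF. `σ (u u') - 1 = (σ u - 1) * σ u' + (σ u' - 1)`, `‖σ u'‖ ≤ 1` because
`‖σ u' - 1‖ ≤ ε ≤ 1`; the ultrametric inequality (`IsUltrametricDist.norm_add_le_max`). The numbers
`z`, `z'` are algebraic (`hz`, `hz'`), so they have preimages `u`, `u'` in `Ab p`. -/
theorem Nr.mul {ε : ℝ} (h0 : 0 < ε) (h1 : ε < 1) {z z' : PadicAlgCl p} (hz : IsIntegral ℚ z)
    (hz' : IsIntegral ℚ z') (h : Nr ε z) (h' : Nr ε z') : Nr ε (z * z') := by
  intro σ y hy
  have hε1 := h1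
  let u : Ab p := ⟨z, mem_algebraicClosure_iff.2 hz.isAlgebraic⟩
  let u' : Ab p := ⟨z', mem_algebraicClosure_iff.2 hz'.isAlgebraic⟩
  have h1 : y = u * u' := Subtype.ext hy
  have h2 := h σ u rfl
  have h3 := h' σ u' rfl
  have h4 : ‖σ u'‖ ≤ 1 := by
    have e : σ u' = (σ u' - 1) + 1 := by ring
    rw [e]
    refine (IsUltrametricDist.norm_add_le_max _ _).trans (max_le (h3.trans hε1.le) ?_)
    rw [norm_one]
  rw [h1, map_mul]
  have e : σ u * σ u' - 1 = (σ u - 1) * σ u' + (σ u' - 1) := by ring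
  rw [e]
  refine (IsUltrametricDist.norm_add_le_max _ _).trans (max_le ?_ h3)
  rw [norm_mul]
  calc ‖σ u - 1‖ * ‖σ u'‖ ≤ ε * 1 := mul_le_mul h2 h4 (norm_nonneg _) h0.le
    _ = ε := mul_one ε

/-- Induction with `Nr.mul`; `Nr ε 1`. -/
theorem Nr_prod {ε : ℝ} (h0 : 0 < ε) (h1 : ε < 1) (s : Multiset (PadicAlgCl p))
    (hint : ∀ z ∈ s, IsIntegral ℚ z) (h : ∀ z ∈ s, Nr ε z) : Nr ε s.prod := by
  have key : IsIntegral ℚ s.prod ∧ Nr ε s.prod := by
    induction s using Multiset.induction_on with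
    | empty =>
      rw [Multiset.prod_zero]
      refine ⟨isIntegral_one, ?_⟩
      intro σ y hy
      have h2 : y = 1 := Subtype.ext hy
      rw [h2, map_one, sub_self, norm_zero]
      exact h0.le
    | cons a s ih =>
      obtain ⟨h2, h3⟩ := ih (fun z hz => hint z (Multiset.mem_cons_of_mem hz))
        (fun z hz => h z (Multiset.mem_cons_of_mem hz))
      rw [Multiset.prod_cons]
      have h4 := hint a (Multiset.mem_cons_self a s)
      exact ⟨h4.mul h2, Nr.mul h0 h1 h4 h2 (h a (Multiset.mem_cons_self a s)) h3⟩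
  exact key.2

/-- **No root of unity.** PROOF. Let `u : Ab p` be the preimage of `z`
(`u = y / q ^ a`, or `z` is algebraic). `σ y = σ u * q ^ a` (`map_mul`, `map_zpow₀`, `map_natCast`)
and `y = u * q ^ a`, so `σ u = ζ * u` (`q ≠ 0`). `‖u - 1‖ ≤ ε` (`h` with the inclusion
`algebraMap (Ab p) (PadicAlgCl p)` as `σ`) and `‖σ u - 1‖ ≤ ε`, so `‖u‖ = 1` and
`‖ζ - 1‖ = ‖(σ u - u) / u‖ ≤ ε`; `ζ = 1` by `ST32.root_near` with `ST32.norm_l` (file
`CFT/N09.lean`; `ζ` is a unit, `ST32.mem_near`). -/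
theorem zeta_eq_one {ε : ℝ} (h0 : 0 < ε) (h1 : ε < (p : ℝ)⁻¹) {z : PadicAlgCl p}
    (hz : IsIntegral ℚ z) (h : Nr ε z) {q : ℕ} (hq : 0 < q) (a : ℤ) (σ : Ab p →+* PadicAlgCl p)
    (y : Ab p) (hy : (y : PadicAlgCl p) = z * (q : PadicAlgCl p) ^ a) (ζ : PadicAlgCl p) (j : ℕ)
    (hj : 0 < j) (hζ : ζ ^ j = 1) (hσ : σ y = ζ * y) : ζ = 1 := by
  let u : Ab p := ⟨z, mem_algebraicClosure_iff.2 hz.isAlgebraic⟩
  have hq0 : (q : PadicAlgCl p) ≠ 0 := by exact_mod_cast hq.ne'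
  have hε : ε < 1 := h1.trans (inv_lt_one_of_one_lt₀ (by exact_mod_cast hp.out.one_lt))
  have h2 : y = u * (q : Ab p) ^ a := by
    apply Subtype.ext
    rw [hy]
    have h3 : (((u * (q : Ab p) ^ a : Ab p)) : PadicAlgCl p) =
        (algebraicClosure ℚ (PadicAlgCl p)).val (u * (q : Ab p) ^ a) := rfl
    rw [h3, map_mul, map_zpow₀, map_natCast]
    rfl
  have h3 : σ u = ζ * z := by
    have h4 : σ u * (q : PadicAlgCl p) ^ a = ζ * z * (q : PadicAlgCl p) ^ a := by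
      have h5 := hσ
      rw [hy, h2, map_mul, map_zpow₀, map_natCast] at h5
      rw [h5]
      ring
    exact mul_right_cancel₀ (zpow_ne_zero a hq0) h4
  have h4 : ‖z - 1‖ ≤ ε := h (algebraMap (Ab p) (PadicAlgCl p)) u rfl
  have h5 : ‖σ u - 1‖ ≤ ε := h σ u rfl
  have hne : ∀ x : PadicAlgCl p, ‖x - 1‖ ≤ ε → x ≠ 0 := by
    intro x hx h6
    rw [h6, zero_sub, norm_neg, norm_one] at hx
    exact absurd hx (not_le.2 hε)
  let Z : (PadicAlgCl p)ˣ := Units.mk0 z (hne z h4)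
  let S : (PadicAlgCl p)ˣ := Units.mk0 (σ u) (hne _ h5)
  have hZ : Z ∈ (ST32.near ε h0 hε : Subgroup (PadicAlgCl p)ˣ) := h4
  have hS : S ∈ (ST32.near ε h0 hε : Subgroup (PadicAlgCl p)ˣ) := h5
  have hSZ : ((S * Z⁻¹ : (PadicAlgCl p)ˣ) : PadicAlgCl p) = ζ := by
    rw [Units.val_mul, Units.val_inv_eq_inv_val]
    change σ u * z⁻¹ = ζ
    rw [h3, mul_assoc, mul_inv_cancel₀ (hne z h4), mul_one]
  have h6 : (S * Z⁻¹) ^ j = 1 := by
    apply Units.ext
    rw [Units.val_pow_eq_pow_val, hSZ, hζ, Units.val_one]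
  have h7 := ST32.root_near ST32.norm_l h0 hε h1 (Subgroup.mul_mem _ hS (Subgroup.inv_mem _ hZ)) hj h6
  rw [← hSZ, h7, Units.val_one]

end Pool.Agent.H99W
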