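import Mathlib
import Pool.Agent.Lib.H99L.E1
import Pool.Agent.Lib.H99.NF.Sum
import Pool.Agent.Lib.H43.GS.Charpoly
import Pool.Agent.Lib.H99W.W1
import Pool.Agent.Lib.H99W.W2
import Pool.Agent.Lib.H99W.W3

/-!
# The determinant on a stable subspace is a product of eigenvalues
-/

namespace Pool.Agent.H99W

open NumberField Module Polynomial Pool.Agent.GSem Pool.Agent.NF Pool.Agent.H99L

variable {p : ℕ} [hp : Fact p.Prime] {G : Type*} [Group G]
variable {V : Type*} [AddCommGroup V] [Module ℚ_[p] V] [FiniteDimensional ℚ_[p] V]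

/-- Chunk V3 (size M). **The determinant as a product.** `PadicAlgCl p` is
`AlgebraicClosure ℚ_[p]` by definition.

PROOF. `s = eig (ρ γ) W`: card by `card_eig`, product by `prod_eig` (file `H99L/E1.lean`; `detG` is
the determinant of the restriction by definition). An element of `eig (ρ γ) W`, a root of the
characteristic polynomial of the restriction, is a root of that of `ρ γ`, which it divides (see
`isoIn_eig` in `H99L/E2.lean`, or `Pool.Agent.PD.charpoly_mul`/`LinearMap.charpoly` of a restriction),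
so a root of `P` (`hP`, `Polynomial.map_map`, `aeval_def`, `eval_map`). -/
theorem det_eq_prod (ρ : Representation ℚ_[p] G V) (W : Submodule ℚ_[p] V)
    (hW : ∀ g, ∀ u ∈ W, ρ g u ∈ W) (γ : G) (P : ℚ[X])
    (hP : (ρ γ).charpoly = P.map (algebraMap ℚ ℚ_[p])) :
    ∃ s : Multiset (PadicAlgCl p), Multiset.card s = finrank ℚ_[p] W ∧
      s.prod = algebraMap ℚ_[p] (PadicAlgCl p) (detG ρ W hW γ) ∧ ∀ z ∈ s, aeval z P = 0 := by
  refine ⟨eig (ρ γ) W, card_eig _ _ (hW γ), prod_eig _ _ (hW γ), ?_⟩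
  intro z hz
  rw [eig_of_stable _ _ (hW γ)] at hz
  have h1 := isRoot_of_mem_roots hz
  have h2 := Pool.Agent.H43GS.charpoly_eq_mul (ρ γ) W (hW γ)
  have h3 : IsRoot ((ρ γ).charpoly.map (algebraMap ℚ_[p] (AlgebraicClosure ℚ_[p]))) z := by
    rw [h2, Polynomial.map_mul, IsRoot.def, eval_mul]
    have h4 : eval z (((ρ γ).restrict (hW γ)).charpoly.map
        (algebraMap ℚ_[p] (AlgebraicClosure ℚ_[p]))) = 0 := h1
    exact mul_eq_zero_of_left h4 _
  rw [hP, Polynomial.map_map, IsRoot.def, eval_map] at h3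
  rw [aeval_def]
  exact h3

theorem v3_natDegree (T : V →ₗ[ℚ_[p]] V) (P : ℚ[X])
    (hP : T.charpoly = P.map (algebraMap ℚ ℚ_[p])) : P.natDegree = finrank ℚ_[p] V := by
  rw [← LinearMap.charpoly_natDegree T, hP, natDegree_map]

theorem v3_ne (T : V →ₗ[ℚ_[p]] V) (P : ℚ[X])
    (hP : T.charpoly = P.map (algebraMap ℚ ℚ_[p])) : P ≠ 0 := by
  rintro rfl
  rw [Polynomial.map_zero] at hP
  exact (LinearMap.charpoly_monic T).ne_zero hP

/-- PROOF. `det_eq_prod`, `WN_root` (W1; `P ≠ 0` and `P.natDegree = finrank V` by `hP`: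
`LinearMap.charpoly_natDegree`, `natDegree_map`), `WN_prod` (W2). -/
theorem WN_det (ρ : Representation ℚ_[p] G V) (W : Submodule ℚ_[p] V)
    (hW : ∀ g, ∀ u ∈ W, ρ g u ∈ W) (γ : G) (P : ℚ[X])
    (hP : (ρ γ).charpoly = P.map (algebraMap ℚ ℚ_[p])) {q : ℕ} (hq : 0 < q) {b : ℤ} {m : ℕ}
    (hz : ∀ z : ℂ, aeval z P = 0 → ‖z‖ ^ 2 = (q : ℝ) ^ (-b) ∧ IsIntegral ℤ ((q : ℂ) ^ m * z)) :
    WN q (finrank ℚ_[p] W * b) (finrank ℚ_[p] W * m) (finrank ℚ_[p] V ^ finrank ℚ_[p] W)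
      (algebraMap ℚ_[p] (PadicAlgCl p) (detG ρ W hW γ)) := by
  obtain ⟨s, h1, h2, h3⟩ := det_eq_prod ρ W hW γ P hP
  have h4 := WN_prod hq (b := b) (m := m) (n := finrank ℚ_[p] V) s (fun z hzs => by
    have h5 := WN_root P (v3_ne _ P hP) hz (h3 z hzs)
    rwa [v3_natDegree _ P hP] at h5)
  rw [h1, h2] at h4
  exact h4

/-- PROOF. `det_eq_prod`, `Nr_root` and `Nr_prod` (W3); the roots of `P` are the roots of the
characteristic polynomial of `ρ γ`. -/
theorem Nr_det (ρ : Representation ℚ_[p] G V) (W : Submodule ℚ_[p] V)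
    (hW : ∀ g, ∀ u ∈ W, ρ g u ∈ W) (γ : G) (P : ℚ[X])
    (hP : (ρ γ).charpoly = P.map (algebraMap ℚ ℚ_[p])) {ε : ℝ} (h0 : 0 < ε) (h1 : ε < 1)
    (hr : ∀ d : PadicAlgCl p,
      ((ρ γ).charpoly.map (algebraMap ℚ_[p] (PadicAlgCl p))).IsRoot d → ‖d - 1‖ ≤ ε) :
    Nr ε (algebraMap ℚ_[p] (PadicAlgCl p) (detG ρ W hW γ)) := by
  obtain ⟨s, _, h2, h3⟩ := det_eq_prod ρ W hW γ P hP
  have hr' : ∀ d : PadicAlgCl p, aeval d P = 0 → ‖d - 1‖ ≤ ε := by
    intro d hd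
    apply hr
    rw [hP, Polynomial.map_map, IsRoot.def, eval_map]
    rw [aeval_def] at hd
    exact hd
  rw [← h2]
  refine Nr_prod h0 h1 s (fun z hzs => ?_) (fun z hzs => ?_)
  · exact IsAlgebraic.isIntegral ⟨P, v3_ne _ P hP, h3 z hzs⟩
  · exact Nr_root P hr' (h3 z hzs)

end Pool.Agent.H99W
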