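import Mathlib
import Pool.Agent.Lib.H99L.M3
import Pool.Agent.Lib.H99W.V2
import Pool.Agent.Lib.H99W.V3

/-!
# The values of the transfer at Frobenius elements
-/

namespace Pool.Agent.H99W

open NumberField Module Polynomial Pool.Agent.GSem Pool.Agent.NF Pool.Agent.H99L

variable {p : ℕ} [hp : Fact p.Prime]

/-- Chunk V5a (size M). **Products of Weil numbers over a family.**

PROOF. Induction on the finite set (`Finset.prod_insert`, `WN.mul`, `WN_one`), in the form: for every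
finite set `s` of indices the product over `s` is
`WN q (c * ∑ i ∈ s, f i) (d * ∑ i ∈ s, f i) (B ^ s.card)`. -/
theorem WN_family {q : ℕ} (hq : 0 < q) {k : ℕ} (f : Fin k → ℕ) (c : ℤ) (d B : ℕ)
    (z : Fin k → PadicAlgCl p) (h : ∀ i, WN q (c * f i) (d * f i) B (z i)) :
    WN q (c * ∑ i, (f i : ℤ)) (d * ∑ i, f i) (B ^ k) (∏ i, z i) := by
  classical
  have key : ∀ s : Finset (Fin k),
      WN q (c * ∑ i ∈ s, (f i : ℤ)) (d * ∑ i ∈ s, f i) (B ^ s.card) (∏ i ∈ s, z i) := by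
    intro s
    induction s using Finset.induction_on with
    | empty =>
      rw [Finset.sum_empty, Finset.sum_empty, Finset.prod_empty, Finset.card_empty, mul_zero, mul_zero, pow_zero]
      exact WN_one q
    | insert i s hi ih =>
      rw [Finset.sum_insert hi, Finset.sum_insert hi, Finset.prod_insert hi, Finset.card_insert_of_notMem hi, mul_add, mul_add,
        pow_succ']
      exact WN.mul hq (h i) ih
  have h1 := key Finset.univ
  rw [Finset.card_univ, Fintype.card_fin] at h1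
  exact h1

variable {F : IntermediateField ℚ Qb} [NumberField F] {Δ : Subgroup Gal(Qb/ℚ)}
variable {V : Type*} [AddCommGroup V] [Module ℚ_[p] V] [FiniteDimensional ℚ_[p] V]

/-- **The value of the transfer at a Frobenius element of `Δ`.** `d` is the index of `Γ ∩ Δ` in `Δ`,
`r = dim W`, `n = dim V`; `Ψ` is the transfer of the determinant of `W`.

PROOF. `b`, `m₀` from `charpoly_frob ρ hg` (V2); `m = r * m₀`. Let `q`, `g`, `a`, `Q` be given.
`exists_isOrbits` gives `k x f ho` for `Γ' = F.fixingSubgroup.subgroupOf Δ` (finite index `d`,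
`∑ f i = d` by `H99L.sum_orbits`, `Subgroup.relIndex`, `Subgroup.index_eq_card`); it is given here as
a hypothesis. By `hΨ` and `hδ`, `toQ (Ψ g) = ∏ i, detG ρ W hW (elt ho i)`, and `elt ho i` is
`(x i)⁻¹ * g ^ f i * x i` (`rfl` up to coercions `Subgroup.coe_mul`, `coe_inv`, `coe_pow`), so V2
gives `P i` and `WN_det` (V3) gives `WN q (r * (w * (a * f i))) (r * (m₀ * (a * f i))) (n ^ r)`;
`WN_family` with `c = r * w * a`, `d = r * m₀ * a` (rewrite exponents by `ring`). -/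
theorem WN_transfer (ρ : Representation ℚ_[p] F.fixingSubgroup V) {w : ℤ} (hg : IsGeom ρ w)
    (W : Submodule ℚ_[p] V) (hW : ∀ g, ∀ u ∈ W, ρ g u ∈ W) (δ : F.fixingSubgroup →* ℤ_[p]ˣ)
    (hδ : ∀ g, toQ (δ g) = detG ρ W hW g) (Ψ : Δ →* ℤ_[p]ˣ)
    (hΨ : ∀ (g : Δ) (k : ℕ) (x : Fin k → Δ) (f : Fin k → ℕ)
      (ho : IsOrbits (F.fixingSubgroup.subgroupOf Δ) g x f), Ψ g = ∏ i, δ (elt ho i)) :
    ∃ b m : ℕ, ∀ q : ℕ, b < q → q.Prime → ∀ (g : Δ) (a : ℕ) (Q : Ideal (𝓞 Qb)), Q.IsPrime →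
      (q : 𝓞 Qb) ∈ Q → 0 < a → (∀ x : 𝓞 Qb, (g : Gal(Qb/ℚ)) • x - x ^ (q ^ a) ∈ Q) →
      ∀ (k : ℕ) (x : Fin k → Δ) (f : Fin k → ℕ),
        IsOrbits (F.fixingSubgroup.subgroupOf Δ) g x f →
        WN q (finrank ℚ_[p] W * w * a * ∑ i, (f i : ℤ)) (m * a * ∑ i, f i)
          ((finrank ℚ_[p] V ^ finrank ℚ_[p] W) ^ k)
          (algebraMap ℚ_[p] (PadicAlgCl p) (toQ (Ψ g))) := by
  obtain ⟨b, m₀, hb⟩ := charpoly_frob ρ hg
  refine ⟨b, finrank ℚ_[p] W * m₀, fun q hbq hq g a Q hQ hqQ ha hgQ k x f ho => ?_⟩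
  have h1 : toQ (Ψ g) = ∏ i, detG ρ W hW (elt ho i) := by
    rw [hΨ g k x f ho, map_prod]
    exact Finset.prod_congr rfl fun i _ => hδ _
  rw [h1, map_prod]
  refine WN_family hq.pos f (finrank ℚ_[p] W * w * a) (finrank ℚ_[p] W * m₀ * a)
    (finrank ℚ_[p] V ^ finrank ℚ_[p] W) _ fun i => ?_
  have hmem : ((x i : Δ) : Gal(Qb/ℚ))⁻¹ * (g : Gal(Qb/ℚ)) ^ f i * ((x i : Δ) : Gal(Qb/ℚ)) ∈ F.fixingSubgroup := ho.mem i
  obtain ⟨P, hP, hz⟩ := (hb q hbq hq).1 (g : Gal(Qb/ℚ)) a Q hQ hqQ ha hgQ ((x i : Δ) : Gal(Qb/ℚ)) (f i) (ho.pos i) hmem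
  have h2 := WN_det ρ W hW (elt ho i) P hP hq.pos (b := w * (a * f i)) (m := m₀ * (a * f i)) hz
  have e1 : (finrank ℚ_[p] W : ℤ) * w * a * f i = finrank ℚ_[p] W * (w * (a * f i)) := by ring
  have e2 : finrank ℚ_[p] W * m₀ * a * f i = finrank ℚ_[p] W * (m₀ * (a * f i)) := by ring
  rw [e1, e2]
  exact h2

end Pool.Agent.H99W
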