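import Mathlib
import Pool.Agent.Lib.H99W.V0
import Pool.Agent.Lib.H99W.V4
import Pool.Agent.Lib.H99W.V5a
import Pool.Agent.Lib.CFT.N10

/-!
# The square of the transfer, normalised, is a good character
-/

namespace Pool.Agent.H99W

open NumberField Module Polynomial Pool.Agent.GSem Pool.Agent.NF Pool.Agent.H99L

variable {p : ℕ} [hp : Fact p.Prime] {F M : IntermediateField ℚ Qb} [NumberField F]
  [NumberField M]
variable {V : Type*} [AddCommGroup V] [Module ℚ_[p] V] [FiniteDimensional ℚ_[p] V]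

omit [FiniteDimensional ℚ_[p] V] in
theorem v5_det_one {G : Type*} [Group G] (ρ : Representation ℚ_[p] G V) (W : Submodule ℚ_[p] V)
    (hW : ∀ g, ∀ u ∈ W, ρ g u ∈ W) (γ : G) (h : ρ γ = 1) : detG ρ W hW γ = 1 := by
  have h1 : (ρ γ).restrict (hW γ) = LinearMap.id := by
    ext u
    rw [LinearMap.coe_restrict_apply, h]
    rfl
  change LinearMap.det ((ρ γ).restrict (hW γ)) = 1
  rw [h1, LinearMap.det_id]

theorem v5_continuous_toQ : Continuous fun u : ℤ_[p]ˣ => (toQ u : ℚ_[p]) := by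
  have h1 : Continuous fun u : ℤ_[p] => (u : ℚ_[p]) := continuous_subtype_val
  exact h1.comp Units.continuous_val

/-- Chunk V5 (size M/L). **The character `Φ = Ψ ^ 2 * χ ^ (w r d)` is good.** Here
`r = finrank W`, `d = F.fixingSubgroup.relIndex M.fixingSubgroup`.

PROOF. Continuity: `Φ` is continuous and `toQ`, `algebraMap ℚ_[p] (PadicAlgCl p)` are continuous.
Data: `E` from `exists_near_field` (V4) with `ε = (p : ℝ)⁻¹ / 2` and `Γ = F.fixingSubgroup` (open: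
`IntermediateField.fixingSubgroup_isOpen`); `b₁ m₁` from `WN_transfer` (V5a); `b₂` from
`charpoly_frob` (V2); `b = max` of `b₁`, `b₂`, `p`. Let `b < q`, `q` prime, `Γ' =
F.fixingSubgroup.subgroupOf M.fixingSubgroup`, of index `d` (finite: `F.fixingSubgroup` is open).
INERTIA: `s ∈ M.fixingSubgroup` with `s • x - x ∈ Q`: take `k x f ho` from `exists_isOrbits Γ' s`
(V0); each `elt ho i = (x i)⁻¹ * s ^ f i * x i` is an inertia element (`inertia_conj`, V1), so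
`ρ (elt ho i) = 1` (V2), `detG = 1` (`detG` of an element acting trivially: the restriction is the
identity), `δ (elt ho i) = 1` (`toQ_injective`), `Ψ s = 1`; `cyc p Qb s = 1` (V1), so `Φ s = 1`.
FROBENIUS: `v`, `g` with `IsFrP M v g`: a prime `Q` over `v` with `g • x - x ^ Nm v ∈ Q`. By
`ST32.exists_below`, `Nm v = q' ^ a` with `q' ∈ v`, `0 < a`, and `q' = q` (both in the proper ideal
`v.asIdeal`; see the proof of `ST32.GD.alg` in `CFT/N11.lean`). `q ∈ Q`. With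
`exists_isOrbits Γ' g`: `WN_transfer`, `∑ f i = d` (`H99L.sum_orbits`), `k ≤ d` (`0 < f i`).
`χ g = q ^ a` (`cyc_frob_mul`, V2a). So `θ = algebraMap (toQ (Φ g)) = z * z * q ^ (a w r d)` with
`WN q (r w a d) (m₁ a d) (B₁ ^ k) z`; by `WN.mul`, `WN_zpow` (W2), `θ` is `WN q 0 M' B'` with
`M' = 2 m₁ a d + |a w r d| = a * (2 m₁ d + |w r d|)`. So `m = 2 m₁ d + |w r d|` works
(`(Nm v) ^ m = q ^ (a m)`), `B = ((B₁ + 1) ^ d) ^ 2 * 1` bounds the degree (`WN.mono`,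
`ST32.DegLe.mono`), and `‖κ y‖ ^ 2 = q ^ 0 = 1`. Last clause: `g ∈ E.fixingSubgroup`, so the
`elt ho i` satisfy the conclusion of V4, and `Nr_det` (V3; `P i` from V2) gives
`Nr ε (algebraMap (detG (elt ho i)))`; products by `Nr_prod`/`Nr.mul` (W3); `zeta_eq_one` (W3) for
`z * z` and `q ^ (a w r d)`. -/
theorem good_theta (ρ : Representation ℚ_[p] F.fixingSubgroup V) (hρ : IsContRep ρ) {w : ℤ}
    (hg : IsGeom ρ w) (W : Submodule ℚ_[p] V) (hW : ∀ g, ∀ u ∈ W, ρ g u ∈ W)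
    (δ : F.fixingSubgroup →* ℤ_[p]ˣ) (hδ : ∀ g, toQ (δ g) = detG ρ W hW g)
    (Ψ : M.fixingSubgroup →* ℤ_[p]ˣ) (hΨc : Continuous Ψ)
    (hΨ : ∀ (g : M.fixingSubgroup) (k : ℕ) (x : Fin k → M.fixingSubgroup) (f : Fin k → ℕ)
      (ho : IsOrbits (F.fixingSubgroup.subgroupOf M.fixingSubgroup) g x f),
      Ψ g = ∏ i, δ (elt ho i)) (Φ : M.fixingSubgroup →* ℤ_[p]ˣ)
    (hΦ : ∀ g, Φ g = Ψ g ^ 2 * cyc p Qb (g : Gal(Qb/ℚ)) ^
      (w * (finrank ℚ_[p] W * F.fixingSubgroup.relIndex M.fixingSubgroup))) :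
    IsGood M (unitL.comp Φ) := by
  classical
  have _ := qb_cl
  have _ : IsAlgClosed Qb := IsAlgClosure.isAlgClosed ℚ
  have hΓo : IsOpen (F.fixingSubgroup : Set Gal(Qb/ℚ)) :=
    IntermediateField.fixingSubgroup_isOpen F
  have hΓfin : Finite (Gal(Qb/ℚ) ⧸ F.fixingSubgroup) := Subgroup.quotient_finite_of_isOpen _ hΓo
  have hΓfi : F.fixingSubgroup.FiniteIndex := Subgroup.finiteIndex_of_finite_quotient
  have hp0 : (0 : ℝ) < (p : ℝ)⁻¹ := inv_pos.2 (by exact_mod_cast hp.out.pos)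
  have hp1 : (p : ℝ)⁻¹ ≤ 1 := inv_le_one_of_one_le₀ (by exact_mod_cast hp.out.one_le)
  obtain ⟨E, hE, hEn⟩ := exists_near_field hΓo ρ hρ (half_pos hp0)
  obtain ⟨b₁, m₁, hwn⟩ := WN_transfer ρ hg W hW δ hδ Ψ hΨ
  obtain ⟨b₂, m₂, hcp⟩ := charpoly_frob ρ hg
  obtain ⟨d, hd⟩ : ∃ d : ℕ, d = F.fixingSubgroup.relIndex M.fixingSubgroup := ⟨_, rfl⟩
  obtain ⟨r, hr⟩ : ∃ r : ℕ, r = finrank ℚ_[p] W := ⟨_, rfl⟩
  obtain ⟨B₁, hB₁⟩ : ∃ B₁ : ℕ, B₁ = finrank ℚ_[p] V ^ finrank ℚ_[p] W := ⟨_, rfl⟩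
  rw [← hd, ← hr] at hΦ
  rw [← hB₁, ← hr] at hwn
  have hval : ∀ g, ((unitL.comp Φ) g : PadicAlgCl p) =
      algebraMap ℚ_[p] (PadicAlgCl p) (toQ (Φ g)) := fun g => by
    rw [MonoidHom.comp_apply, unitL_apply]
  refine ⟨?_, max (max b₁ b₂) p, (B₁ + 1) ^ d * (B₁ + 1) ^ d * 1,
    2 * m₁ * d + (w * (r * d)).natAbs, E, hE, ?_⟩
  · have h1 : Continuous Φ := by
      have h2 : (Φ : M.fixingSubgroup → ℤ_[p]ˣ) = fun g => Ψ g ^ 2 *
          cyc p Qb (g : Gal(Qb/ℚ)) ^ (w * (r * d)) := funext hΦ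
      rw [h2]
      exact (hΨc.pow 2).mul (((continuous_cyc p Qb).comp continuous_subtype_val).zpow _)
    have h3 : (fun g => ((unitL.comp Φ) g : PadicAlgCl p)) = fun g =>
        algebraMap ℚ_[p] (PadicAlgCl p) (toQ (Φ g)) := funext hval
    rw [h3]
    exact (algebraMap_isometry ℚ_[p] (PadicAlgCl p)).continuous.comp
      (v5_continuous_toQ.comp h1)
  intro q hbq hq
  have hb₁ : b₁ < q := lt_of_le_of_lt (le_trans (le_max_left _ _) (le_max_left _ _)) hbq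
  have hb₂ : b₂ < q := lt_of_le_of_lt (le_trans (le_max_right _ _) (le_max_left _ _)) hbq
  have hbp : p < q := lt_of_le_of_lt (le_max_right _ _) hbq
  have hqp : q ≠ p := by omega
  constructor
  · intro s Q hQ hqQ hs
    obtain ⟨k, x, f, ho⟩ := exists_isOrbits (F.fixingSubgroup.subgroupOf M.fixingSubgroup) s
    have h1 : Ψ s = 1 := by
      rw [hΨ s k x f ho]
      apply Finset.prod_eq_one
      intro i _
      apply toQ_injective
      rw [hδ, map_one]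
      apply v5_det_one
      obtain ⟨Q', hQ', hqQ', hs'⟩ := inertia_conj hQ hqQ hs (x i : Gal(Qb/ℚ)) (f i)
      exact (hcp q hb₂ hq).2 (elt ho i) Q' hQ' hqQ' hs'
    have h2 : cyc p Qb (s : Gal(Qb/ℚ)) = 1 := cyc_inertia hq hqp hQ hqQ hs
    rw [MonoidHom.comp_apply, hΦ, h1, h2, one_pow, one_zpow, one_mul, map_one]
  · intro v hqv g hFr
    obtain ⟨-, Q, hQ, hQv, hQF⟩ := hFr
    obtain ⟨q', a, hq', ha, hq'v, hNm⟩ := ST32.exists_below M v
    have hqq' : q' = q := by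
      by_contra hne
      have hcop : IsCoprime (q' : ℤ) (q : ℤ) := by
        rw [Nat.isCoprime_iff_coprime]
        exact (Nat.coprime_primes hq' hq).2 hne
      obtain ⟨c, c', hcc⟩ := hcop
      have e1 : (c : 𝓞 M) * (q' : 𝓞 M) + (c' : 𝓞 M) * (q : 𝓞 M) = 1 := by
        exact_mod_cast congrArg (fun z : ℤ => (z : 𝓞 M)) hcc
      have e2 : (1 : 𝓞 M) ∈ v.asIdeal := by
        rw [← e1]
        exact Ideal.add_mem _ (Ideal.mul_mem_left _ _ hq'v) (Ideal.mul_mem_left _ _ hqv)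
      exact v.isPrime.ne_top ((Ideal.eq_top_iff_one _).2 e2)
    subst hqq'
    have hqQ : (q' : 𝓞 Qb) ∈ Q := by
      have e1 := hqv
      rw [← hQv, Ideal.mem_comap, map_natCast] at e1
      exact e1
    have hQF' : ∀ x : 𝓞 Qb, (g : Gal(Qb/ℚ)) • x - x ^ (q' ^ a) ∈ Q := by
      intro x
      have e1 := hQF x
      rwa [hNm] at e1
    obtain ⟨k, x, f, ho⟩ := exists_isOrbits (F.fixingSubgroup.subgroupOf M.fixingSubgroup) g
    have hsum : ∑ i, f i = d := by rw [hd]; exact sum_orbits ho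
    have hk : k ≤ d := by
      rw [← hsum]
      calc k = ∑ i : Fin k, 1 := by simp
        _ ≤ ∑ i, f i := Finset.sum_le_sum fun i _ => ho.pos i
    have hcyc : toQ (cyc p Qb (g : Gal(Qb/ℚ))) = (q' : ℚ_[p]) ^ a :=
      cyc_frob_mul hq hqp hQ hqQ hQF'
    obtain ⟨z, hz⟩ : ∃ z : PadicAlgCl p, z = algebraMap ℚ_[p] (PadicAlgCl p) (toQ (Ψ g)) :=
      ⟨_, rfl⟩
    have hW1 := hwn q' hb₁ hq g a Q hQ hqQ ha hQF' k x f ho
    rw [← hz] at hW1
    have hsumZ : ∑ i, (f i : ℤ) = d := by exact_mod_cast hsum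
    rw [hsum, hsumZ] at hW1
    have hθ : ((unitL.comp Φ) g : PadicAlgCl p) =
        z * z * (q' : PadicAlgCl p) ^ ((a : ℤ) * (w * (r * d))) := by
      rw [hval, hΦ, map_mul, map_pow, map_zpow, hcyc, map_mul, map_pow, map_zpow₀, map_pow,
        map_natCast, ← hz, zpow_mul (q' : PadicAlgCl p) (a : ℤ), zpow_natCast, sq]
    have hq0 : 0 < q' := hq.pos
    have hB : WN q' (r * w * a * d) (m₁ * a * d) ((B₁ + 1) ^ d) z := by
      refine hW1.mono le_rfl ?_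
      calc B₁ ^ k ≤ (B₁ + 1) ^ k := Nat.pow_le_pow_left (Nat.le_succ _) _
        _ ≤ (B₁ + 1) ^ d := Nat.pow_le_pow_right (Nat.succ_pos _) hk
    have hWθ := (hB.mul hq0 hB).mul hq0 (WN_zpow (p := p) hq0 ((a : ℤ) * (w * (r * d))))
    rw [← hθ] at hWθ
    have hb0 : (r * w * a * d + r * w * a * d) + -(2 * ((a : ℤ) * (w * (r * d)))) = 0 := by ring
    rw [hb0] at hWθ
    refine ⟨?_, hWθ.deg, ?_, ?_⟩
    · have h1 : m₁ * a * d + m₁ * a * d + ((a : ℤ) * (w * (r * d))).natAbs =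
          a * (2 * m₁ * d + (w * (r * d)).natAbs) := by
        rw [Int.natAbs_mul, Int.natAbs_natCast]
        ring
      have h2 := hWθ.int
      rw [h1, pow_mul] at h2
      rw [hNm]
      push_cast
      exact h2
    · intro κ y hy
      have h1 := hWθ.abs κ y hy
      rw [neg_zero, zpow_zero] at h1
      have h2 := norm_nonneg (κ y)
      nlinarith
    · intro hgE σ y hy ζ j hj hζ he
      have hhalf : (p : ℝ)⁻¹ / 2 < (p : ℝ)⁻¹ := half_lt_self hp0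
      have hh0 : 0 < (p : ℝ)⁻¹ / 2 := half_pos hp0
      have hh1 : (p : ℝ)⁻¹ / 2 < 1 := by linarith
      -- the values of the determinant are near 1
      have hnr : ∀ i, Nr ((p : ℝ)⁻¹ / 2) (algebraMap ℚ_[p] (PadicAlgCl p)
          (detG ρ W hW (elt ho i))) ∧ IsIntegral ℚ (algebraMap ℚ_[p] (PadicAlgCl p)
          (detG ρ W hW (elt ho i))) := by
        intro i
        obtain ⟨hmem, hroot⟩ := hEn (g : Gal(Qb/ℚ)) hgE (x i : Gal(Qb/ℚ)) (f i)
        obtain ⟨P, hP, hPz⟩ := (hcp q' hb₂ hq).1 (g : Gal(Qb/ℚ)) a Q hQ hqQ ha hQF'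
          (x i : Gal(Qb/ℚ)) (f i) (ho.pos i) hmem
        have helt : elt ho i = ⟨(x i : Gal(Qb/ℚ))⁻¹ * (g : Gal(Qb/ℚ)) ^ f i * (x i : Gal(Qb/ℚ)),
          hmem⟩ := rfl
        rw [helt]
        exact ⟨Nr_det ρ W hW _ P hP hh0 hh1 hroot, (WN_det ρ W hW _ P hP hq0 hPz).deg.1⟩
      have hz' : z = ((Finset.univ : Finset (Fin k)).val.map fun i =>
          algebraMap ℚ_[p] (PadicAlgCl p) (detG ρ W hW (elt ho i))).prod := by
        rw [hz, hΨ g k x f ho, map_prod, map_prod]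
        change _ = ∏ i, _
        exact Finset.prod_congr rfl fun i _ => by rw [hδ]
      have hzN : Nr ((p : ℝ)⁻¹ / 2) z := by
        rw [hz']
        apply Nr_prod hh0 hh1
        · intro t ht
          obtain ⟨i, -, rfl⟩ := Multiset.mem_map.1 ht
          exact (hnr i).2
        · intro t ht
          obtain ⟨i, -, rfl⟩ := Multiset.mem_map.1 ht
          exact (hnr i).1
      have hzi : IsIntegral ℚ z := hB.deg.1
      refine zeta_eq_one hh0 hhalf (hzi.mul hzi) (Nr.mul hh0 hh1 hzi hzi hzN hzN) hq0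
        ((a : ℤ) * (w * (r * d))) σ y ?_ ζ j hj hζ he
      rw [hy, hθ]

end Pool.Agent.H99W
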