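import Mathlib
import Pool.Agent.Lib.H99L.K6
import Pool.Agent.Lib.H99W.Defs

/-!
# The Tate clause
-/

namespace Pool.Agent.H99W

open NumberField Module Polynomial Pool.Agent.GSem Pool.Agent.NF Pool.Agent.H99L

variable {p : ℕ} [hp : Fact p.Prime] {Γ : Subgroup Gal(Qb/ℚ)}
variable {V : Type*} [AddCommGroup V] [Module ℚ_[p] V] [FiniteDimensional ℚ_[p] V]

/-- Chunk X1 (size S/M). **The Tate clause from the element clause over `F` itself.**

PROOF. Let `m`, `w = 2 * m`. `Γ.relIndex Γ = 1` (`Subgroup.relIndex_self`), so `H = m * r`. For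
`g : Γ` the data `k = 1`, `x = fun _ => 1`, `f = fun _ => 1` are `IsOrbits (Γ.subgroupOf Γ) g x f`
(`Subgroup.subgroupOf_self`; `mem` is `1⁻¹ * g ^ 1 * 1 ∈ ⊤`; `bij`: both sides have one element), and
`elt ho 0 = g` (`Subtype.ext`, `one_mul`, `mul_one`, `pow_one`, `inv_one`). So `hel` gives
`IsoIn (χ g ^ (-(w * 1))) (eig (ρ g) W) ..` and `(eig (ρ g) W).prod = ε g * χ g ^ (-H)`
(`Fin.prod_univ_one`/`Finset.prod_unique`). With `ε ^ M = 1`, `0 < M` (`isOfFinOrder_iff_pow_eq_one`),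
`(eig (ρ g) W).prod ^ M = χ g ^ (-(m * r * M))`. Now `H99L.tate_general` (file `H99L/K6.lean`). -/
theorem tateClause (hΓ : IsOpen (Γ : Set Gal(Qb/ℚ))) (ρ : Representation ℚ_[p] Γ V)
    (hρ : IsContRep ρ) (w : ℤ) (W : Submodule ℚ_[p] V) (hirr : IsIrredSub ρ W)
    (h : (∃ c ∈ Γ, IsCplxConj c) → ∃ (ε : Γ →* ℤ_[p]ˣ) (H : ℤ), IsOfFinOrder ε ∧
      2 * H = w * (finrank ℚ_[p] W * Γ.relIndex Γ) ∧ ElementClause ρ w W ε H) :
    TateClause ρ w W := by
  have := qb_cl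
  intro m hm hc hcl
  obtain ⟨ε, H, hε, hH, hel⟩ := h hc
  obtain ⟨M, hM, hεM⟩ := isOfFinOrder_iff_pow_eq_one.1 hε
  have hH' : H = m * finrank ℚ_[p] W := by
    rw [Subgroup.relIndex_self, hm, Nat.cast_one, mul_one] at hH
    have h2 : (2 : ℤ) ≠ 0 := two_ne_zero
    apply mul_left_cancel₀ h2
    rw [hH]
    ring
  have ho : ∀ g : Γ, IsOrbits (Γ.subgroupOf Γ) g (fun _ : Fin 1 => (1 : Γ)) (fun _ => 1) := by
    intro g
    refine ⟨fun _ => one_pos, fun _ => ?_, ?_, ?_⟩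
    · rw [Subgroup.subgroupOf_self]
      trivial
    · rintro ⟨i, s⟩ ⟨i', s'⟩ _
      obtain rfl : i = i' := Subsingleton.elim _ _
      obtain rfl : s = s' := Subsingleton.elim _ _
      rfl
    · intro y
      refine ⟨⟨0, 0⟩, ?_⟩
      obtain ⟨y, rfl⟩ := QuotientGroup.mk_surjective y
      apply QuotientGroup.eq.2
      rw [Subgroup.subgroupOf_self]
      trivial
  have key : ∀ g : Γ, IsoIn (algebraMap ℚ_[p] (AlgebraicClosure ℚ_[p])
      (chi p (g : Gal(Qb/ℚ)) (-(2 * m)))) (eig (ρ g) W) (rts (ρ g).charpoly) ∧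
      (eig (ρ g) W).prod = algebraMap ℚ_[p] (AlgebraicClosure ℚ_[p])
        (toQ (ε g) * chi p (g : Gal(Qb/ℚ)) (-H)) := by
    intro g
    obtain ⟨h1, h2⟩ := hel g 1 _ _ (ho g)
    have he : elt (ho g) 0 = g := by
      apply Subtype.ext
      show (((1 : Γ)⁻¹ * g ^ 1 * 1 : Γ) : Gal(Qb/ℚ)) = g
      rw [inv_one, one_mul, mul_one, pow_one]
    have h3 := h1 0
    rw [he, hm, Nat.cast_one, mul_one] at h3
    rw [Fin.prod_univ_one, he] at h2
    exact ⟨h3, h2⟩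
  refine tate_general hΓ ρ hρ m W hirr (fun g => (key g).1) hM (fun g => ?_) hcl
  rw [(key g).2, ← map_pow, mul_pow]
  have h4 : toQ (ε g) ^ M = 1 := by
    have h5 := DFunLike.congr_fun hεM g
    rw [MonoidHom.pow_apply, MonoidHom.one_apply] at h5
    rw [← map_pow, h5, map_one]
  rw [h4, one_mul, hH']
  congr 1
  unfold chi
  rw [← zpow_natCast, ← zpow_mul]
  congr 1
  ring

end Pool.Agent.H99W
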