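import Mathlib
import Pool.Agent.Lib.H99L.S1
import Pool.Agent.Lib.H99L.D5
import Pool.Agent.Lib.H99L.D7
import Pool.Agent.Lib.H99W.R7
import Pool.Agent.Lib.H99W.V5
import Pool.Agent.Lib.H99W.T1
import Pool.Agent.Lib.H99W.G1
import Pool.Agent.Lib.H99W.H1
import Pool.Agent.Lib.H99W.C1
import Pool.Agent.Lib.H99W.C2
import Pool.Agent.Lib.H99W.C3
import Pool.Agent.Lib.H99W.X1

/-!
# The local test theorem over fields with a real place
-/

namespace Pool.Agent.H99W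

open NumberField TensorProduct Module Polynomial Pool.Agent.GSem Pool.Agent.NF Pool.Agent.H99L

variable {p : ℕ} [hp : Fact p.Prime]

theorem unitL_injective : Function.Injective (unitL (p := p)) := by
  intro a b h
  apply toQ_injective
  apply (algebraMap ℚ_[p] (PadicAlgCl p)).injective
  rw [← unitL_apply, ← unitL_apply, h]

/-- The conditions attached to the Galois group of a number field `M` with a real place. -/
theorem test_over (F : IntermediateField ℚ Qb) [NumberField F]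
    {V : Type*} [AddCommGroup V] [Module ℚ_[p] V] [FiniteDimensional ℚ_[p] V]
    (ρ : Representation ℚ_[p] F.fixingSubgroup V) (hρ : IsContRep ρ) (w : ℤ)
    (hgeom : IsGeom ρ w)
    (B : V →ₗ[ℚ_[p]] V →ₗ[ℚ_[p]] ℚ_[p]) (hB : IsPol ρ w B)
    (W : Submodule ℚ_[p] V) (hW : ∀ g, ∀ x ∈ W, ρ g x ∈ W) (hiso : ∀ x ∈ W, ∀ y ∈ W, B x y = 0)
    (D : (F →+* PadicAlgCl p) → Multiset ℤ)
    (hDw : ∀ ι : Qb →+* PadicAlgCl p, IsWts ι ρ W (D (ι.comp (algebraMap F Qb))))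
    (M : IntermediateField ℚ Qb) [NumberField M]
    (hM : ∃ c ∈ M.fixingSubgroup, IsCplxConj c) : TestOver ρ w W D M.fixingSubgroup := by
  classical
  have _ : IsAlgClosure ℚ Qb := qb_cl
  have _ : IsGalois ℚ Qb := IsAlgClosure.isGalois ℚ Qb
  have hΓo : IsOpen (F.fixingSubgroup : Set Gal(Qb/ℚ)) :=
    IntermediateField.fixingSubgroup_isOpen F
  have hΔo : IsOpen (M.fixingSubgroup : Set Gal(Qb/ℚ)) :=
    IntermediateField.fixingSubgroup_isOpen M
  have hΓfin : Finite (Gal(Qb/ℚ) ⧸ F.fixingSubgroup) := Subgroup.quotient_finite_of_isOpen _ hΓo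
  have hΔfin : Finite (Gal(Qb/ℚ) ⧸ M.fixingSubgroup) := Subgroup.quotient_finite_of_isOpen _ hΔo
  have hΓfi : F.fixingSubgroup.FiniteIndex := Subgroup.finiteIndex_of_finite_quotient
  have hΔfi : M.fixingSubgroup.FiniteIndex := Subgroup.finiteIndex_of_finite_quotient
  obtain ⟨c, hc, hcc⟩ := hM
  have hreal := exists_real M hc hcc
  have hΓc : IsClosed (F.fixingSubgroup : Set Gal(Qb/ℚ)) := Subgroup.isClosed_of_isOpen _ hΓo
  have hcomp : CompactSpace F.fixingSubgroup := isCompact_iff_compactSpace.1 hΓc.isCompact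
  obtain ⟨δ, hδc, hδ⟩ := exists_unit_charG (detG ρ W hW) (continuous_detG ρ hρ W hW)
  obtain ⟨Ψ, hΨc, hΨ⟩ := exists_transfer (Δ := M.fixingSubgroup) hΓo δ hδc
  obtain ⟨e, he⟩ : ∃ e : ℤ,
      e = w * (finrank ℚ_[p] W * F.fixingSubgroup.relIndex M.fixingSubgroup) := ⟨_, rfl⟩
  -- the character of weight zero
  let Φ : M.fixingSubgroup →* ℤ_[p]ˣ :=
    { toFun := fun g => Ψ g ^ 2 * cyc p Qb (g : Gal(Qb/ℚ)) ^ e
      map_one' := by rw [map_one, OneMemClass.coe_one, map_one, one_zpow, one_pow, one_mul]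
      map_mul' := fun g h => by
        rw [map_mul, Subgroup.coe_mul, map_mul, mul_zpow, mul_pow, mul_mul_mul_comm] }
  have hΦ : ∀ g, Φ g = Ψ g ^ 2 * cyc p Qb (g : Gal(Qb/ℚ)) ^ e := fun g => rfl
  have hgood : IsGood M (unitL.comp Φ) :=
    good_theta ρ hρ hgeom W hW δ hδ Ψ hΨc hΨ Φ (fun g => by rw [hΦ, he])
  obtain ⟨N, hN, hNg⟩ := finite_order_of_good M _ hgood hreal
  have hrel : ∀ g : M.fixingSubgroup, (Ψ g ^ 2 * cyc p Qb (g : Gal(Qb/ℚ)) ^ e) ^ N = 1 := by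
    intro g
    apply unitL_injective
    rw [map_pow, map_one, ← hΦ]
    exact hNg g
  -- the weights
  have hwt : ∀ (ι : Qb →+* PadicAlgCl p) (k : ℕ) (x : Fin k → M.fixingSubgroup),
      Function.Bijective (fun i => ((x i : M.fixingSubgroup) :
        M.fixingSubgroup ⧸ F.fixingSubgroup.subgroupOf M.fixingSubgroup)) →
      2 * ∑ i, (D ((twistEmb ι (x i)).comp (algebraMap F Qb))).sum = e := by
    intro ι k x hx
    choose cc hc0 hcr using fun i => det_wts ρ W hW (hDw (twistEmb ι (x i)))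
    refine two_mul_weights δ Ψ hΨ e N hN hrel ι x hx _ cc hc0 ?_
    intro i σ g hg
    rw [hδ]
    exact hcr i σ g hg
  obtain ⟨ι₀⟩ : Nonempty (Qb →+* PadicAlgCl p) := by
    obtain ⟨f⟩ : Nonempty (Qb →ₐ[ℚ] PadicAlgCl p) := ⟨IsAlgClosed.lift⟩
    exact ⟨f⟩
  obtain ⟨k₀, x₀, hx₀⟩ : ∃ (k : ℕ) (x : Fin k → M.fixingSubgroup),
      Function.Bijective (fun i => ((x i : M.fixingSubgroup) :
        M.fixingSubgroup ⧸ F.fixingSubgroup.subgroupOf M.fixingSubgroup)) := by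
    have hfin : Finite (M.fixingSubgroup ⧸ F.fixingSubgroup.subgroupOf M.fixingSubgroup) :=
      Subgroup.finite_quotient_of_finiteIndex
    let eq := (Finite.equivFin
      (M.fixingSubgroup ⧸ F.fixingSubgroup.subgroupOf M.fixingSubgroup)).symm
    refine ⟨_, fun i => (eq i).out, ?_⟩
    have h1 : (fun i => (((eq i).out : M.fixingSubgroup) :
        M.fixingSubgroup ⧸ F.fixingSubgroup.subgroupOf M.fixingSubgroup)) = eq := by
      funext i
      exact QuotientGroup.out_eq' _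
    rw [h1]
    exact eq.bijective
  obtain ⟨H, hH⟩ : ∃ H : ℤ,
      H = ∑ i, (D ((twistEmb ι₀ (x₀ i)).comp (algebraMap F Qb))).sum := ⟨_, rfl⟩
  have hH2 : 2 * H = e := by rw [hH]; exact hwt ι₀ k₀ x₀ hx₀
  -- the character of finite order
  let ε : M.fixingSubgroup →* ℤ_[p]ˣ :=
    { toFun := fun g => Ψ g * cyc p Qb (g : Gal(Qb/ℚ)) ^ H
      map_one' := by rw [map_one, OneMemClass.coe_one, map_one, one_zpow, one_mul]
      map_mul' := fun g h => by
        rw [map_mul, Subgroup.coe_mul, map_mul, mul_zpow, mul_mul_mul_comm] }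
  have hε : ∀ g, ε g = Ψ g * cyc p Qb (g : Gal(Qb/ℚ)) ^ H := fun g => rfl
  have hεc : Continuous ε :=
    hΨc.mul (((continuous_cyc p Qb).comp continuous_subtype_val).zpow H)
  have hεf : IsOfFinOrder ε := by
    rw [isOfFinOrder_iff_pow_eq_one]
    refine ⟨2 * N, by omega, ?_⟩
    ext1 g
    rw [MonoidHom.pow_apply, hε, pow_mul, mul_pow, ← zpow_natCast (cyc p Qb _ ^ H) 2, ← zpow_mul,
      MonoidHom.one_apply]
    have h1 : H * ((2 : ℕ) : ℤ) = e := by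
      rw [← hH2]
      push_cast
      ring
    rw [h1]
    exact hrel g
  have hdet : ∀ (g : M.fixingSubgroup) (k : ℕ) (x : Fin k → M.fixingSubgroup) (f : Fin k → ℕ)
      (ho : IsOrbits (F.fixingSubgroup.subgroupOf M.fixingSubgroup) g x f),
        ∏ i, detG ρ W hW (elt ho i) = toQ (ε g) * chi p (g : Gal(Qb/ℚ)) (-H) := by
    intro g k x f ho
    have h1 : ∏ i, detG ρ W hW (elt ho i) = toQ (Ψ g) := by
      rw [hΨ g k x f ho, map_prod]
      exact Finset.prod_congr rfl fun i _ => (hδ _).symm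
    rw [h1, hε, map_mul, map_zpow, chi, mul_assoc, ← zpow_add₀ (toQ_ne_zero _), add_neg_cancel,
      zpow_zero, mul_one]
  have hel := elementClause ρ w B hB W hW hiso ε H hdet
  refine ⟨ε, H, hεc, hεf, by rw [hH2, he], ?_, hel, ?_, ?_⟩
  · intro ι k x hx
    have h1 := hwt ι k x hx
    omega
  · exact monodromyClause ρ w B hB W hW hiso ε hεf H (by rw [hH2, he]) hdet
  · exact systemClause hΓo hΔo ρ w W hW ε hεc hεf H hel

theorem local_test_real (F : IntermediateField ℚ Qb) [NumberField F]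
    {V : Type*} [AddCommGroup V] [Module ℚ_[p] V] [FiniteDimensional ℚ_[p] V]
    (ρ : Representation ℚ_[p] F.fixingSubgroup V) (hρ : IsContRep ρ) (w : ℤ)
    (hgeom : IsGeom ρ w)
    (B : V →ₗ[ℚ_[p]] V →ₗ[ℚ_[p]] ℚ_[p]) (hB : IsPol ρ w B) {n : ℕ}
    (h : (F →+* PadicAlgCl p) → Fin n → ℤ)
    (hHT : ∀ ι : Qb →+* PadicAlgCl p, ∃ e : Basis (Fin n) ℂ_[p] (ℂ_[p] ⊗[ℚ_[p]] V),
      IsHTBasisAt ι ρ (h (ι.comp (algebraMap F Qb))) e)
    (hns : ¬ IsSemisimpleRep ρ) :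
    ∃ (W : Submodule ℚ_[p] V) (D : (F →+* PadicAlgCl p) → Multiset ℤ),
      IsIrredSub ρ W ∧ (∀ x ∈ W, ∀ y ∈ W, B x y = 0) ∧
      (¬ ∃ W' : Submodule ℚ_[p] V, IsStable ρ W' ∧ IsCompl W W') ∧
      2 * finrank ℚ_[p] W ≤ n ∧ IsHTFamily w (finrank ℚ_[p] W) h D ∧ TateClause ρ w W ∧
      ∀ Δ : Subgroup Gal(Qb/ℚ), IsOpen (Δ : Set Gal(Qb/ℚ)) → (∃ c ∈ Δ, IsCplxConj c) →
        TestOver ρ w W D Δ := by
  classical
  have _ : IsAlgClosure ℚ Qb := qb_cl
  have hΓo : IsOpen (F.fixingSubgroup : Set Gal(Qb/ℚ)) :=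
    IntermediateField.fixingSubgroup_isOpen F
  obtain ⟨W, hirr, hiso, hnc⟩ := exists_irred_isotropic ρ w B hB hns
  have hW : ∀ g, ∀ x ∈ W, ρ g x ∈ W := hirr.2.1
  obtain ⟨D, hDw, hDc, hDi, hDp⟩ := exists_ht_family F ρ w B hB h hHT W hW hiso
  obtain ⟨ι₀⟩ : Nonempty (Qb →+* PadicAlgCl p) := by
    obtain ⟨f⟩ : Nonempty (Qb →ₐ[ℚ] PadicAlgCl p) := ⟨IsAlgClosed.lift⟩
    exact ⟨f⟩
  have hall : ∀ Δ : Subgroup Gal(Qb/ℚ), IsOpen (Δ : Set Gal(Qb/ℚ)) →
      (∃ c ∈ Δ, IsCplxConj c) → TestOver ρ w W D Δ := by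
    intro Δ hΔ hc
    obtain ⟨M, hM, rfl⟩ := exists_field Δ hΔ
    exact test_over F ρ hρ w hgeom B hB W hW hiso D hDw M hc
  refine ⟨W, D, hirr, hiso, hnc, ?_, ⟨hDc, hDi, hDp⟩, ?_, hall⟩
  · have h1 := isotropic_bound B ⊤ W le_top hiso (fun x _ hx => hB.1 x (fun y => hx y trivial))
    rw [finrank_top] at h1
    obtain ⟨e, -⟩ := hHT ι₀
    have h2 : finrank ℂ_[p] (ℂ_[p] ⊗[ℚ_[p]] V) = n := by
      rw [finrank_eq_card_basis e, Fintype.card_fin]
    rw [finrank_baseChange] at h2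
    rwa [h2] at h1
  · refine tateClause hΓo ρ hρ w W hirr fun hc => ?_
    obtain ⟨ε, H, -, hε, hH, -, hel, -, -⟩ := hall _ hΓo hc
    exact ⟨ε, H, hε, hH, hel⟩

end Pool.Agent.H99W
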