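import Mathlib
import Pool.Agent.Lib.H99W.Defs

/-!
# The weights at pairs of complex conjugate embeddings
-/

namespace Pool.Agent.H99W

open NumberField Module Pool.Agent.GSem Pool.Agent.NF Pool.Agent.H99L

variable {p : ℕ} [hp : Fact p.Prime]

theorem p1_sq {c : Gal(Qb/ℚ)} (hc : IsCplxConj c) : c * c = 1 := by
  obtain ⟨j, hj⟩ := hc
  ext x
  apply j.injective
  rw [AlgEquiv.mul_apply, hj, hj, starRingEnd_self_apply]
  rfl

/-- **Weights at pairs of complex conjugate embeddings.** For every embedding `ι` and every complex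
conjugation `c`, the sum of all elements of `D` at `ι` and at `ι ∘ c` is `w * r`. -/
theorem pair_sum (F : IntermediateField ℚ Qb) [NumberField F] (w : ℤ) (r : ℕ)
    (D : (F →+* PadicAlgCl p) → Multiset ℤ)
    (h : ∀ Δ : Subgroup Gal(Qb/ℚ), IsOpen (Δ : Set Gal(Qb/ℚ)) → (∃ c ∈ Δ, IsCplxConj c) →
      ∃ H : ℤ, 2 * H = w * (r * F.fixingSubgroup.relIndex Δ) ∧ WeightClause D Δ H)
    (ι : Qb →+* PadicAlgCl p) (c : Gal(Qb/ℚ)) (hc : IsCplxConj c) :
    (D (ι.comp (algebraMap F Qb))).sum + (D ((twistEmb ι c).comp (algebraMap F Qb))).sum =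
      w * r := by
  classical
  have hΓo : IsOpen (F.fixingSubgroup : Set Gal(Qb/ℚ)) :=
    IntermediateField.fixingSubgroup_isOpen F
  have hcl := qb_cl
  have hgal := qb_gal
  have hΓfin : Finite (Gal(Qb/ℚ) ⧸ F.fixingSubgroup) := Subgroup.quotient_finite_of_isOpen _ hΓo
  have hΓfi : F.fixingSubgroup.FiniteIndex := Subgroup.finiteIndex_of_finite_quotient
  have hNo : IsOpen (F.fixingSubgroup.normalCore : Set Gal(Qb/ℚ)) :=
    Subgroup.isOpen_of_isClosed_of_finiteIndex _
      (F.fixingSubgroup.normalCore_isClosed (Subgroup.isClosed_of_isOpen _ hΓo))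
  have hNn : F.fixingSubgroup.normalCore.Normal := Subgroup.normalCore_normal _
  obtain ⟨Δ, hΔ⟩ : ∃ Δ : Subgroup Gal(Qb/ℚ),
      Δ = F.fixingSubgroup.normalCore ⊔ Subgroup.zpowers c := ⟨_, rfl⟩
  have hNΔ : F.fixingSubgroup.normalCore ≤ Δ := by rw [hΔ]; exact le_sup_left
  have hcΔ : c ∈ Δ := by
    rw [hΔ]
    exact (le_sup_right : Subgroup.zpowers c ≤ _) (Subgroup.mem_zpowers c)
  have hΔo : IsOpen (Δ : Set Gal(Qb/ℚ)) := Subgroup.isOpen_mono hNΔ hNo
  obtain ⟨H, hH, hw⟩ := h Δ hΔo ⟨c, hcΔ, hc⟩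
  have h1 : (twistEmb ι (1 : Gal(Qb/ℚ))).comp (algebraMap F Qb) = ι.comp (algebraMap F Qb) := rfl
  by_cases hcΓ : c ∈ F.fixingSubgroup
  · have h2 : (twistEmb ι c).comp (algebraMap F Qb) = ι.comp (algebraMap F Qb) := by
      apply RingHom.ext
      intro y
      have h3 : c (y : Qb) = (y : Qb) :=
        (IntermediateField.mem_fixingSubgroup_iff F c).1 hcΓ _ y.2
      exact congrArg ι h3
    have hΔΓ : Δ ≤ F.fixingSubgroup := by
      rw [hΔ]
      exact sup_le (Subgroup.normalCore_le _) ((Subgroup.zpowers_le).2 hcΓ)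
    have h4 : F.fixingSubgroup.relIndex Δ = 1 := Subgroup.relIndex_eq_one.2 hΔΓ
    have h5 : Function.Bijective (fun _ : Fin 1 =>
        ((1 : Δ) : Δ ⧸ F.fixingSubgroup.subgroupOf Δ)) := by
      constructor
      · intro a b _
        exact Subsingleton.elim _ _
      · intro y
        obtain ⟨g, rfl⟩ := QuotientGroup.mk_surjective y
        refine ⟨0, ?_⟩
        rw [QuotientGroup.eq, Subgroup.mem_subgroupOf]
        exact hΔΓ (1⁻¹ * g).2
    have h6 := hw ι 1 (fun _ => 1) h5
    rw [Fin.sum_univ_one] at h6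
    change (D ((twistEmb ι (1 : Gal(Qb/ℚ))).comp (algebraMap F Qb))).sum = H at h6
    rw [h1] at h6
    rw [h4] at hH
    rw [h2, h6]
    push_cast at hH
    linarith
  · have h5 : Function.Bijective (fun i : Fin 2 =>
        (((![1, ⟨c, hcΔ⟩] : Fin 2 → Δ) i : Δ) : Δ ⧸ F.fixingSubgroup.subgroupOf Δ)) := by
      have h6 : ((1 : Δ) : Δ ⧸ F.fixingSubgroup.subgroupOf Δ) ≠
          ((⟨c, hcΔ⟩ : Δ) : Δ ⧸ F.fixingSubgroup.subgroupOf Δ) := by
        intro h7
        rw [QuotientGroup.eq, Subgroup.mem_subgroupOf] at h7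
        apply hcΓ
        have h8 : (((1 : Δ)⁻¹ * ⟨c, hcΔ⟩ : Δ) : Gal(Qb/ℚ)) = c := by
          rw [inv_one, one_mul]
        rwa [h8] at h7
      constructor
      · intro a b hab
        fin_cases a <;> fin_cases b
        · rfl
        · exact absurd hab h6
        · exact absurd hab.symm h6
        · rfl
      · intro y
        obtain ⟨⟨g, hg⟩, rfl⟩ := QuotientGroup.mk_surjective y
        have hg' := hg
        rw [hΔ, Subgroup.mem_sup_of_normal_left] at hg'
        obtain ⟨n, hn, z, hz, hnz⟩ := hg'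
        obtain ⟨k, rfl⟩ := Subgroup.mem_zpowers_iff.1 hz
        have hk : c ^ k = 1 ∨ c ^ k = c := by
          have h7 : c ^ (2 : ℤ) = 1 := by
            rw [zpow_two, p1_sq hc]
          rcases Int.even_or_odd' k with ⟨m, rfl | rfl⟩
          · left
            rw [zpow_mul, h7, one_zpow]
          · right
            rw [zpow_add, zpow_mul, h7, one_zpow, one_mul, zpow_one]
        rcases hk with hk | hk
        · refine ⟨0, ?_⟩
          change ((1 : Δ) : Δ ⧸ F.fixingSubgroup.subgroupOf Δ) = _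
          rw [QuotientGroup.eq, Subgroup.mem_subgroupOf]
          change (1 : Gal(Qb/ℚ))⁻¹ * g ∈ F.fixingSubgroup
          rw [inv_one, one_mul, ← hnz, hk, mul_one]
          exact Subgroup.normalCore_le _ hn
        · refine ⟨1, ?_⟩
          change ((⟨c, hcΔ⟩ : Δ) : Δ ⧸ F.fixingSubgroup.subgroupOf Δ) = _
          rw [QuotientGroup.eq, Subgroup.mem_subgroupOf]
          change c⁻¹ * g ∈ F.fixingSubgroup
          rw [← hnz, hk]
          apply Subgroup.normalCore_le
          have h8 := hNn.conj_mem n hn c⁻¹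
          rw [inv_inv] at h8
          rwa [← mul_assoc]
    have h6 := hw ι 2 _ h5
    rw [Fin.sum_univ_two] at h6
    change (D ((twistEmb ι (1 : Gal(Qb/ℚ))).comp (algebraMap F Qb))).sum +
      (D ((twistEmb ι c).comp (algebraMap F Qb))).sum = H at h6
    rw [h1] at h6
    have h7 : F.fixingSubgroup.relIndex Δ = 2 := by
      have h8 := Nat.card_eq_of_bijective _ h5
      rw [Nat.card_eq_fintype_card, Fintype.card_fin] at h8
      exact h8.symm
    rw [h7] at hH
    rw [h6]
    push_cast at hH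
    linarith

end Pool.Agent.H99W
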