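import Mathlib
import Pool.Agent.Lib.H99W.Final

/-!
# The statement of the local test theorem
-/

namespace Pool.Agent.H99W

open NumberField TensorProduct Module Polynomial Pool.Agent.GSem Pool.Agent.NF Pool.Agent.H99L

/-- **The local test over all fields with a real place**, for an algebraic closure `Ω` of `ℚ`.

Let `F ⊆ Ω` be a number field and `V` a continuous `p`-adic representation `ρ` of `Gal(Ω/F)` which
is geometric of weight `w`, has a nondegenerate pairing `B` with values in `ℚ_[p](-w)`, and is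
Hodge–Tate at all places above `p`, with the `n` weights `h σ` at the embedding `σ` of `F`. If `ρ`
is not semisimple, there are one irreducible isotropic subrepresentation `W` without stable
complement, `2 dim W ≤ n`, and one family `D` of weights, such that all conditions `TestOver` hold
for every open subgroup `Δ` which contains a complex conjugation, i.e. for `Δ = Gal(Ω/F₀)` with
every number field `F₀` with a real place. -/
def LocalTest.{u, v} (Ω : Type u) [Field Ω] [CharZero Ω] : Prop :=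
  ∀ (p : ℕ) [Fact p.Prime] (F : IntermediateField ℚ Ω) [NumberField F]
    (V : Type v) [AddCommGroup V] [Module ℚ_[p] V] [FiniteDimensional ℚ_[p] V]
    (ρ : Representation ℚ_[p] F.fixingSubgroup V) (w : ℤ)
    (B : V →ₗ[ℚ_[p]] V →ₗ[ℚ_[p]] ℚ_[p]) (n : ℕ) (h : (F →+* PadicAlgCl p) → Fin n → ℤ),
    IsContRep ρ → IsGeom ρ w → IsPol ρ w B →
    (∀ ι : Ω →+* PadicAlgCl p, ∃ e : Basis (Fin n) ℂ_[p] (ℂ_[p] ⊗[ℚ_[p]] V),
      IsHTBasisAt ι ρ (h (ι.comp (algebraMap F Ω))) e) →
    ¬ IsSemisimpleRep ρ →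
    ∃ (W : Submodule ℚ_[p] V) (D : (F →+* PadicAlgCl p) → Multiset ℤ),
      IsIrredSub ρ W ∧ (∀ x ∈ W, ∀ y ∈ W, B x y = 0) ∧
      (¬ ∃ W' : Submodule ℚ_[p] V, IsStable ρ W' ∧ IsCompl W W') ∧
      2 * finrank ℚ_[p] W ≤ n ∧ IsHTFamily w (finrank ℚ_[p] W) h D ∧
      H99W.TateClause ρ w W ∧
      ∀ Δ : Subgroup Gal(Ω/ℚ), IsOpen (Δ : Set Gal(Ω/ℚ)) → (∃ c ∈ Δ, IsCplxConj c) →
        TestOver ρ w W D Δ

theorem localTest : LocalTest (AlgebraicClosure ℚ) := by
  intro p hp F hF V _ _ _ ρ w B n h hρ hgeom hB hHT hns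
  exact local_test_real (F : IntermediateField ℚ Qb) ρ hρ w hgeom B hB h hHT hns

end Pool.Agent.H99W
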